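import Pool.Agent.Zk73.FQ.Lin
import Pool.Agent.Y445.WQ.CUB

/-!
# The relations for a solution of Fermat's equation in the first case over a quadratic field
-/

set_option autoImplicit false
set_option linter.all false

namespace Pool.Agent.Zk73.FQ

open Pool.Agent.Y546.WQ NumberField IsDedekindDomain Polynomial

/-- the facts used for one pair -/
structure DatR (p : ℕ) [Fact p.Prime] (d A B G t : ℤ) : Prop where
  cp : (A + B + t : ZMod p) = G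
  L : ∀ r : ℕ, r.Prime → r ≠ p → ¬ p ^ 2 ∣ r ^ (p - 1) - 1 → ∀ k : ℕ, Loc r A t B k →
    (k : ZMod p) * G = 2 * (G - A + B)
  R : 7 ≤ p → Reg p 3 → ((A : ZMod p) - B) * (G ^ 2 - 3 * (A + B) * G + 2 * (A - B) ^ 2) = 0
  A0 : (A : ZMod p) ≠ 0
  B0 : (B : ZMod p) ≠ 0
  G0 : (G : ZMod p) ≠ 0
  dd : ∃ m : ℤ, t ^ 2 - 4 * (A * B) = m ^ 2 * d

section

variable {K : Type} [Field K] [NumberField K]

theorem datR {p : ℕ} [Fact p.Prime] (h3 : 3 ≤ p)
    (hK : Module.finrank ℚ K = 2) (σ : 𝓞 K →+* 𝓞 K)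
    (hN : ∀ a : 𝓞 K, ((Algebra.norm ℤ a : ℤ) : 𝓞 K) = a * σ a)
    (hT : ∀ a : 𝓞 K, ((Algebra.trace ℤ (𝓞 K) a : ℤ) : 𝓞 K) = a + σ a)
    {E : Type} [Field E] [NumberField E] (c : Cyc p E) {X Y Z : 𝓞 K} (s : Sol p K X Y Z) :
    DatR p (NumberField.discr K) (Algebra.norm ℤ X) (Algebra.norm ℤ Y) (Algebra.norm ℤ Z)
      (Algebra.trace ℤ (𝓞 K) (X * σ Y)) := by
  have hpp : p.Prime := Fact.out
  have hp2 : p ≠ 2 := by omega
  have hσσ := conj_conj σ hT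
  have hz : ∀ k : ℤ, ¬ (p : ℤ) ∣ k → (k : ZMod p) ≠ 0 := by
    intro k hk h0
    exact hk ((ZMod.intCast_zmod_eq_zero_iff_dvd k p).1 h0)
  have hσ : Function.Injective σ := by
    intro x y hxy
    rw [← hσσ x, ← hσσ y, hxy]
  have hAn := norm_ncp hpp σ hN fun P hP hpP => (s.cp P hP hpP).1
  have hBn := norm_ncp hpp σ hN fun P hP hpP => (s.cp P hP hpP).2.1
  have hGn := norm_ncp hpp σ hN fun P hP hpP => (s.cp P hP hpP).2.2
  have hp := norm_rel σ hN hT p hpp (X := X) (Y := Y) (Z := Z)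
    (fun P hP hpP => lin_p hpp P hP hpP s.eq)
  have hb : ((Algebra.trace ℤ (𝓞 K) (X * σ Y) : ℤ) : 𝓞 K) = X * σ Y + σ X * Y := by
    rw [hT, map_mul, hσσ]
  obtain ⟨f1, f2, f3⟩ := fld Y261.WQ.main Y686.WQ.main p (by omega) E c K hK σ hσ X Y Z s.X0
    s.Y0 s.Z0 s.eq (fun P hP hpP => (s.cp P hP hpP).2.2)
    (Algebra.norm ℤ X) (Algebra.trace ℤ (𝓞 K) (X * σ Y)) (Algebra.norm ℤ Y) (hN X) hb (hN Y)
  have hcp : ((Algebra.norm ℤ X : ℤ) + (Algebra.norm ℤ Y : ℤ) +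
      (Algebra.trace ℤ (𝓞 K) (X * σ Y) : ℤ) : ZMod p) = (Algebra.norm ℤ Z : ℤ) := by
    have := (ZMod.intCast_zmod_eq_zero_iff_dvd _ p).2 hp
    push_cast at this
    linear_combination this
  have hpu : ¬ (p : ℤ) ∣ Algebra.norm ℤ X + Algebra.trace ℤ (𝓞 K) (X * σ Y) +
      Algebra.norm ℤ Y := by
    intro h
    have h' := (ZMod.intCast_zmod_eq_zero_iff_dvd _ p).2 h
    push_cast at h'
    apply hz _ hGn
    linear_combination h' - hcp
  refine ⟨hcp, ?_, ?_, hz _ hAn, hz _ hBn, hz _ hGn, ?_⟩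
  · intro r hr hrp hW k hk
    have := lin hp2 hr hrp hW c hpu hpu f1 f3 hk
    rw [← hcp]
    linear_combination this
  · intro h7 hreg
    generalize Algebra.norm ℤ X = A at *
    generalize Algebra.norm ℤ Y = B at *
    generalize Algebra.trace ℤ (𝓞 K) (X * σ Y) = t at *
    set f : Polynomial ℤ := C A + C t * Polynomial.X + C B * Polynomial.X ^ 2 with hf
    have hfz : aeval c.z f = (A : E) + t * c.z + B * c.z ^ 2 := by
      rw [hf]
      simp only [map_add, map_mul, map_pow, aeval_C, aeval_X, algebraMap_int_eq,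
        Int.coe_castRingHom]
    have hf1 : f.eval 1 = A + t + B := by
      rw [hf]
      simp
    have hrel : Rel p (f.map (Int.castRingHom (ZMod p))) := by
      intro a ha hap
      obtain ⟨g, hg, k, hk⟩ := relGA aUNITA hp2 a ha hap c f (A + t + B) hpu
        (by rw [hf1]; exact hpu) (by rw [hfz]; exact f1) (by
          intro P
          rw [hfz]
          exact f3 P)
      obtain ⟨r, hr, hdv⟩ := Y919.WQ.mainLAMA p hp2 a ha hap E c f _ hpu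
        (by rw [hf1]; exact hpu) g hg k hk
      exact ⟨k, r, hr, hdv⟩
    have hmap : f.map (Int.castRingHom (ZMod p)) = C (A : ZMod p) + C (t : ZMod p) * Polynomial.X +
        C (B : ZMod p) * Polynomial.X ^ 2 := by
      rw [hf]
      simp
    rw [hmap] at hrel
    have hu0 : (A : ZMod p) + t + B ≠ 0 := by
      intro h
      apply hpu
      apply (ZMod.intCast_zmod_eq_zero_iff_dvd _ p).1
      push_cast
      exact h
    have := Y445.WQ.mainCUB p h7 _ _ _ hu0 hreg hrel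
    rw [← hcp]
    linear_combination this
  · obtain ⟨m, hm⟩ := disc_eq hK σ hN hT (X * σ Y)
    refine ⟨m, ?_⟩
    rw [← hm]
    have e : Algebra.norm ℤ (X * σ Y) = Algebra.norm ℤ X * Algebra.norm ℤ Y := by
      have e1 : ((Algebra.norm ℤ (X * σ Y) : ℤ) : 𝓞 K) =
          ((Algebra.norm ℤ X * Algebra.norm ℤ Y : ℤ) : 𝓞 K) := by
        push_cast
        rw [hN, hN, hN, map_mul, hσσ]
        ring
      exact_mod_cast e1
    rw [e]

theorem Sol.swap {p : ℕ} {X Y Z : 𝓞 K} (h : Sol p K X Y Z) : Sol p K X Z Y where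
  X0 := h.X0
  Y0 := h.Z0
  Z0 := h.Y0
  eq := by rw [← h.eq]; ring
  cp := fun P hP hp => ⟨(h.cp P hP hp).1, (h.cp P hP hp).2.2, (h.cp P hP hp).2.1⟩

/-- **Furtwängler's theorem**, integral form: all primes above `r` divide `X` -/
theorem furt {p : ℕ} (hp : p.Prime) (h3 : 3 ≤ p) (hK : Module.finrank ℚ K = 2)
    {X Y Z : 𝓞 K} (s : Sol p K X Y Z) {r : ℕ} (hr : r.Prime) (hrp : r ≠ p)
    (hX : ∀ P : Ideal (𝓞 K), P.IsPrime → ((r : ℕ) : 𝓞 K) ∈ P → X ∈ P ∧ Y ∉ P ∧ Z ∉ P) :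
    p ^ 2 ∣ r ^ (p - 1) - 1 := by
  haveI hfact : Fact p.Prime := ⟨hp⟩
  have hp2 : p ≠ 2 := by omega
  by_contra hW
  obtain ⟨E, _, _, ⟨c⟩⟩ := Y978.WQ.main p hp2
  obtain ⟨σ, hN, hT⟩ := Pool.Agent.Y546.SG.exists_conj hK
  have hσσ := conj_conj σ hT
  have d1 := datR h3 hK σ hN hT c s
  have d2 := datR h3 hK σ hN hT c (Sol.swap s)
  obtain ⟨P, hP, hrP⟩ := exists_above (K := K) r hr
  have hcomap : ∀ w : 𝓞 K, w ∈ P.comap σ ↔ σ w ∈ P := fun w => Iff.rfl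
  have hrP' : ((r : ℕ) : 𝓞 K) ∈ P.comap σ := by
    rw [Ideal.mem_comap, map_natCast]
    exact hrP
  obtain ⟨a1, a2, a3⟩ := hX P hP hrP
  obtain ⟨b1, b2, b3⟩ := hX (P.comap σ) (hP.comap σ) hrP'
  have hdv : ∀ n : ℤ, (n : 𝓞 K) ∈ P → (r : ℤ) ∣ n := by
    intro n hn
    by_contra h
    exact int_notMem P hP r hr hrP n h hn
  have kA : (r : ℤ) ∣ Algebra.norm ℤ X := by
    apply hdv
    rw [hN]
    exact P.mul_mem_right _ a1
  have kt : ∀ W : 𝓞 K, (r : ℤ) ∣ Algebra.trace ℤ (𝓞 K) (X * σ W) := by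
    intro W
    apply hdv
    rw [hT, map_mul, hσσ]
    exact P.add_mem (P.mul_mem_right _ a1) (P.mul_mem_right _ b1)
  have kn : ∀ W : 𝓞 K, W ∉ P → W ∉ P.comap σ → ¬ (r : ℤ) ∣ Algebra.norm ℤ W := by
    intro W h1 h2 h
    obtain ⟨u, hu⟩ := h
    have h4 : W * σ W ∈ P := by
      rw [← hN, hu]
      push_cast
      exact P.mul_mem_right _ hrP
    rcases hP.mem_or_mem h4 with h5 | h5
    · exact h1 h5
    · exact h2 h5
  have r1 := d1.L r hr hrp hW 4 (Or.inr (Or.inr (Or.inr (Or.inr (Or.inr (Or.inr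
    ⟨rfl, kA, kt Y, kn Y a2 b2⟩))))))
  have r2 := d2.L r hr hrp hW 4 (Or.inr (Or.inr (Or.inr (Or.inr (Or.inr (Or.inr
    ⟨rfl, kA, kt Z, kn Z a3 b3⟩))))))
  have n2 : (2 : ZMod p) ≠ 0 := by
    have : ((2 : ℕ) : ZMod p) ≠ 0 := by
      rw [Ne, ZMod.natCast_eq_zero_iff]
      intro hd
      exact hp2 ((Nat.prime_dvd_prime_iff_eq hp Nat.prime_two).1 hd)
    exact_mod_cast this
  apply d1.A0
  apply (mul_eq_zero.1 (_ : (2 : ZMod p) ^ 3 * (Algebra.norm ℤ X : ℤ) = 0)).resolve_left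
    (pow_ne_zero 3 n2)
  push_cast at r1 r2
  linear_combination 2 * r1 + 2 * r2

/-- scaling a triple whose members have the same valuations above `p` -/
theorem prepG {p : ℕ} (hp : p.Prime) (m : ℕ) (hm : m ≠ 0) (hpm : p ∣ m) {x y z : K}
    (hx : x ≠ 0) (hy : y ≠ 0) (hz : z ≠ 0)
    (hv : ∀ v : HeightOneSpectrum (𝓞 K), ((p : ℕ) : 𝓞 K) ∈ v.asIdeal →
      v.valuation K x = v.valuation K y ∧ v.valuation K y = v.valuation K z) :
    ∃ (a : K) (X Y Z : 𝓞 K), a ≠ 0 ∧ algebraMap (𝓞 K) K X = a * x ∧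
      algebraMap (𝓞 K) K Y = a * y ∧ algebraMap (𝓞 K) K Z = a * z ∧ X ≠ 0 ∧ Y ≠ 0 ∧ Z ≠ 0 ∧
      (∀ P : Ideal (𝓞 K), P.IsPrime → ((p : ℕ) : 𝓞 K) ∈ P → X ∉ P ∧ Y ∉ P ∧ Z ∉ P) ∧
      (∀ P : Ideal (𝓞 K), P.IsPrime → ((m : ℕ) : 𝓞 K) ∈ P → ¬ (X ∈ P ∧ Y ∈ P ∧ Z ∈ P)) := by
  obtain ⟨T, hT⟩ := finite_primes (K := K) m hm
  obtain ⟨a, X, Y, Z, hXa, hYa, hZa, hn⟩ := scaleT (y := y) (z := z) hx T
  have hne : ∀ (P : Ideal (𝓞 K)), P.IsPrime → ((m : ℕ) : 𝓞 K) ∈ P →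
      ∃ h0 : P ≠ ⊥, ∀ hP : P.IsPrime, (⟨P, hP, h0⟩ : HeightOneSpectrum (𝓞 K)) ∈ T := by
    intro P hP hmP
    have h0 : P ≠ ⊥ := by
      rintro rfl
      rw [Ideal.mem_bot] at hmP
      exact hm (by exact_mod_cast hmP)
    exact ⟨h0, fun hP' => hT _ hmP⟩
  obtain ⟨M, hM, hMp⟩ := exists_above (K := K) p hp
  have hmem : ∀ P : Ideal (𝓞 K), ((p : ℕ) : 𝓞 K) ∈ P → ((m : ℕ) : 𝓞 K) ∈ P := by
    intro P hP
    obtain ⟨d, rfl⟩ := hpm
    rw [Nat.cast_mul]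
    exact P.mul_mem_right _ hP
  have ha : a ≠ 0 := by
    rintro rfl
    rw [zero_mul] at hXa hYa hZa
    have h1 : X = 0 := RingOfIntegers.coe_injective (by rw [map_zero]; exact hXa)
    have h2 : Y = 0 := RingOfIntegers.coe_injective (by rw [map_zero]; exact hYa)
    have h3 : Z = 0 := RingOfIntegers.coe_injective (by rw [map_zero]; exact hZa)
    obtain ⟨h0, h4⟩ := hne M hM (hmem M hMp)
    apply hn _ (h4 hM)
    rw [h1, h2, h3]
    exact ⟨zero_mem _, zero_mem _, zero_mem _⟩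
  have hX0 : X ≠ 0 := by
    rintro rfl
    rw [map_zero] at hXa
    exact mul_ne_zero ha hx hXa.symm
  have hY0 : Y ≠ 0 := by
    rintro rfl
    rw [map_zero] at hYa
    exact mul_ne_zero ha hy hYa.symm
  have hZ0 : Z ≠ 0 := by
    rintro rfl
    rw [map_zero] at hZa
    exact mul_ne_zero ha hz hZa.symm
  refine ⟨a, X, Y, Z, ha, hXa, hYa, hZa, hX0, hY0, hZ0, ?_, ?_⟩
  · intro P hP hpP
    obtain ⟨h0, h4⟩ := hne P hP (hmem P hpP)
    have h5 := hn _ (h4 hP)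
    obtain ⟨h1, h2⟩ := hv ⟨P, hP, h0⟩ hpP
    have e : ∀ (w : K) (W : 𝓞 K), algebraMap (𝓞 K) K W = a * w →
        (W ∈ P ↔ (⟨P, hP, h0⟩ : HeightOneSpectrum (𝓞 K)).valuation K a *
          (⟨P, hP, h0⟩ : HeightOneSpectrum (𝓞 K)).valuation K w < 1) := by
      intro w W hW
      rw [← map_mul, ← hW]
      exact ((⟨P, hP, h0⟩ : HeightOneSpectrum (𝓞 K)).valuation_lt_one_iff_mem (K := K) W).symm
    have e1 : X ∈ P ↔ Y ∈ P := by rw [e x X hXa, e y Y hYa, h1]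
    have e2 : Y ∈ P ↔ Z ∈ P := by rw [e y Y hYa, e z Z hZa, h2]
    change ¬ (X ∈ P ∧ Y ∈ P ∧ Z ∈ P) at h5
    tauto
  · intro P hP h2P
    obtain ⟨h0, h4⟩ := hne P hP h2P
    exact hn _ (h4 hP)

/-- the equation for the integers -/
theorem eq_of_scale {p : ℕ} {a x y z : K} {X Y Z : 𝓞 K} (hXa : algebraMap (𝓞 K) K X = a * x)
    (hYa : algebraMap (𝓞 K) K Y = a * y) (hZa : algebraMap (𝓞 K) K Z = a * z)
    (h : x ^ p + y ^ p + z ^ p = 0) : X ^ p + Y ^ p + Z ^ p = 0 := by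
  apply RingOfIntegers.coe_injective
  rw [map_zero, map_add, map_add, map_pow, map_pow, map_pow]
  rw [hXa, hYa, hZa, mul_pow, mul_pow, mul_pow]
  linear_combination a ^ p * h

/-- **Furtwängler's theorem**: `X ^ p + Y ^ p + Z ^ p = 0` in the first case, and all primes above `r` divide `x` -/
theorem furtK {p : ℕ} (hp : p.Prime) (h3 : 3 ≤ p) (hK : Module.finrank ℚ K = 2) {x y z : K}
    (hx : x ≠ 0) (hy : y ≠ 0) (hz : z ≠ 0) (h : x ^ p + y ^ p + z ^ p = 0)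
    (hv : ∀ v : HeightOneSpectrum (𝓞 K), ((p : ℕ) : 𝓞 K) ∈ v.asIdeal →
      v.valuation K x = v.valuation K y ∧ v.valuation K y = v.valuation K z)
    {r : ℕ} (hr : r.Prime) (hrp : r ≠ p)
    (hdv : ∀ v : HeightOneSpectrum (𝓞 K), ((r : ℕ) : 𝓞 K) ∈ v.asIdeal →
      v.valuation K x < v.valuation K y ∧ v.valuation K y = v.valuation K z) :
    p ^ 2 ∣ r ^ (p - 1) - 1 := by
  obtain ⟨a, X, Y, Z, ha, hXa, hYa, hZa, hX0, hY0, hZ0, hcp, hn⟩ := prepG hp (r * p)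
    (mul_ne_zero hr.ne_zero hp.ne_zero) (dvd_mul_left p r) hx hy hz hv
  have s : Sol p K X Y Z := ⟨hX0, hY0, hZ0, eq_of_scale hXa hYa hZa h, hcp⟩
  refine furt hp h3 hK s hr hrp fun P hP hrP => ?_
  have hmP : ((r * p : ℕ) : 𝓞 K) ∈ P := by
    rw [Nat.cast_mul]
    exact P.mul_mem_right _ hrP
  have h0 : P ≠ ⊥ := by
    rintro rfl
    rw [Ideal.mem_bot] at hrP
    exact hr.ne_zero (by exact_mod_cast hrP)
  obtain ⟨h1, h2⟩ := hdv ⟨P, hP, h0⟩ hrP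
  have h5 := hn P hP hmP
  set v : HeightOneSpectrum (𝓞 K) := ⟨P, hP, h0⟩ with hvdef
  have e : ∀ (w : K) (W : 𝓞 K), algebraMap (𝓞 K) K W = a * w →
      (W ∈ P ↔ v.valuation K a * v.valuation K w < 1) := by
    intro w W hW
    rw [← map_mul, ← hW]
    exact (v.valuation_lt_one_iff_mem (K := K) W).symm
  have e2 : Y ∈ P ↔ Z ∈ P := by rw [e y Y hYa, e z Z hZa, h2]
  have ha' : v.valuation K a ≠ 0 := (Valuation.ne_zero_iff _).2 ha
  have hXP : X ∈ P := by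
    rw [e x X hXa]
    have h6 : v.valuation K a * v.valuation K y ≤ 1 := by
      rw [← map_mul, ← hYa]
      exact v.valuation_le_one (K := K) Y
    exact lt_of_lt_of_le (mul_lt_mul_of_pos_left h1 (zero_lt_iff.2 ha')) h6
  refine ⟨hXP, fun h7 => h5 ⟨hXP, h7, e2.1 h7⟩, fun h7 => h5 ⟨hXP, e2.2 h7, h7⟩⟩

/-- the second theorem, integral form: `X` is congruent to `Y` or to `-Y` modulo every prime above `r` -/
theorem furt2 {p : ℕ} (hp : p.Prime) (h3 : 3 ≤ p) (hK : Module.finrank ℚ K = 2)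
    {X Y Z : 𝓞 K} (s : Sol p K X Y Z) {r : ℕ} (hr : r.Prime) (hrp : r ≠ p)
    (hX : ∀ P : Ideal (𝓞 K), P.IsPrime → ((r : ℕ) : 𝓞 K) ∈ P → X ∉ P ∧ (X - Y ∈ P ∨ X + Y ∈ P)) :
    p ^ 2 ∣ r ^ (p - 1) - 1 ∨ (p : ℤ) ∣ Algebra.norm ℤ X - Algebra.norm ℤ Y := by
  haveI hfact : Fact p.Prime := ⟨hp⟩
  have hp2 : p ≠ 2 := by omega
  by_cases hW : p ^ 2 ∣ r ^ (p - 1) - 1
  · exact Or.inl hW
  right
  obtain ⟨E, _, _, ⟨c⟩⟩ := Y978.WQ.main p hp2
  obtain ⟨σ, hN, hT⟩ := Pool.Agent.Y546.SG.exists_conj hK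
  have hσσ := conj_conj σ hT
  have d1 := datR h3 hK σ hN hT c s
  obtain ⟨P, hP, hrP⟩ := exists_above (K := K) r hr
  have hrP' : ((r : ℕ) : 𝓞 K) ∈ P.comap σ := by
    rw [Ideal.mem_comap, map_natCast]
    exact hrP
  obtain ⟨a1, a2⟩ := hX P hP hrP
  obtain ⟨b1, b2⟩ := hX (P.comap σ) (hP.comap σ) hrP'
  have hdv : ∀ n : ℤ, (n : 𝓞 K) ∈ P → (r : ℤ) ∣ n := by
    intro n hn
    by_contra h
    exact int_notMem P hP r hr hrP n h hn
  have kA : ¬ (r : ℤ) ∣ Algebra.norm ℤ X := by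
    intro h
    obtain ⟨u, hu⟩ := h
    have h4 : X * σ X ∈ P := by
      rw [← hN, hu]
      push_cast
      exact P.mul_mem_right _ hrP
    rcases hP.mem_or_mem h4 with h5 | h5
    · exact a1 h5
    · exact b1 h5
  have hk : Loc r (Algebra.norm ℤ X) (Algebra.trace ℤ (𝓞 K) (X * σ Y)) (Algebra.norm ℤ Y) 2 := by
    have e1 : ∀ e e' : ℤ, X - e * Y ∈ P → σ X - e' * σ Y ∈ P →
        ((Algebra.norm ℤ X : ℤ) : 𝓞 K) - ((e * e' : ℤ) : 𝓞 K) * ((Algebra.norm ℤ Y : ℤ) : 𝓞 K) ∈ P ∧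
        ((Algebra.trace ℤ (𝓞 K) (X * σ Y) : ℤ) : 𝓞 K) -
          ((e + e' : ℤ) : 𝓞 K) * ((Algebra.norm ℤ Y : ℤ) : 𝓞 K) ∈ P := by
      intro e e' h1 h2
      rw [hN, hN, hT, map_mul, hσσ]
      constructor
      · have : X * σ X - ((e * e' : ℤ) : 𝓞 K) * (Y * σ Y) =
            (X - e * Y) * σ X + (σ X - e' * σ Y) * (e * Y) := by
          push_cast
          ring
        rw [this]
        exact P.add_mem (P.mul_mem_right _ h1) (P.mul_mem_right _ h2)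
      · have : X * σ Y + σ X * Y - ((e + e' : ℤ) : 𝓞 K) * (Y * σ Y) =
            (X - e * Y) * σ Y + (σ X - e' * σ Y) * Y := by
          push_cast
          ring
        rw [this]
        exact P.add_mem (P.mul_mem_right _ h1) (P.mul_mem_right _ h2)
    have c2 : σ X - σ Y ∈ P ∨ σ X + σ Y ∈ P := by
      rcases b2 with h | h
      · left
        rw [Ideal.mem_comap, map_sub] at h
        exact h
      · right
        rw [Ideal.mem_comap, map_add] at h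
        exact h
    have hsum : ∀ a b : ℤ, ((a : ℤ) : 𝓞 K) - ((1 : ℤ) : 𝓞 K) * ((b : ℤ) : 𝓞 K) ∈ P → (r : ℤ) ∣ b - a := by
      intro a b h
      have h1 : ((a - b : ℤ) : 𝓞 K) ∈ P := by
        push_cast at h ⊢
        simpa using h
      have h2 := hdv _ h1
      rw [← Int.dvd_neg] at h2
      simpa using h2
    rcases a2 with a2 | a2 <;> rcases c2 with c2 | c2
    · obtain ⟨g1, g2⟩ := e1 1 1 (by simpa using a2) (by simpa using c2)
      have g3 : (r : ℤ) ∣ Algebra.norm ℤ Y - Algebra.norm ℤ X := hsum _ _ (by simpa using g1)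
      have g4 : (r : ℤ) ∣ Algebra.trace ℤ (𝓞 K) (X * σ Y) - 2 * Algebra.norm ℤ Y := by
        apply hdv
        push_cast at g2 ⊢
        norm_num at g2 ⊢
        exact g2
      refine Or.inr (Or.inr (Or.inr (Or.inr (Or.inl ⟨rfl, kA, g3, Or.inl ?_⟩))))
      have : Algebra.trace ℤ (𝓞 K) (X * σ Y) - 2 * Algebra.norm ℤ X =
          (Algebra.trace ℤ (𝓞 K) (X * σ Y) - 2 * Algebra.norm ℤ Y) +
            (Algebra.norm ℤ Y - Algebra.norm ℤ X) * 2 := by ring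
      rw [this]
      exact dvd_add g4 (dvd_mul_of_dvd_left g3 _)
    · obtain ⟨g1, g2⟩ := e1 1 (-1) (by simpa using a2) (by simpa using c2)
      have g3 : (r : ℤ) ∣ Algebra.norm ℤ Y + Algebra.norm ℤ X := by
        apply hdv
        push_cast at g1 ⊢
        have : ((Algebra.norm ℤ Y : ℤ) : 𝓞 K) + ((Algebra.norm ℤ X : ℤ) : 𝓞 K) =
          ((Algebra.norm ℤ X : ℤ) : 𝓞 K) - -1 * ((Algebra.norm ℤ Y : ℤ) : 𝓞 K) := by ring
        rw [this]
        exact g1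
      have g4 : (r : ℤ) ∣ Algebra.trace ℤ (𝓞 K) (X * σ Y) := by
        apply hdv
        push_cast at g2
        norm_num at g2
        exact g2
      exact Or.inr (Or.inr (Or.inr (Or.inl ⟨rfl, kA, g4, Or.inr g3⟩)))
    · obtain ⟨g1, g2⟩ := e1 (-1) 1 (by simpa using a2) (by simpa using c2)
      have g3 : (r : ℤ) ∣ Algebra.norm ℤ Y + Algebra.norm ℤ X := by
        apply hdv
        push_cast at g1 ⊢
        have : ((Algebra.norm ℤ Y : ℤ) : 𝓞 K) + ((Algebra.norm ℤ X : ℤ) : 𝓞 K) =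
          ((Algebra.norm ℤ X : ℤ) : 𝓞 K) - -1 * ((Algebra.norm ℤ Y : ℤ) : 𝓞 K) := by ring
        rw [this]
        exact g1
      have g4 : (r : ℤ) ∣ Algebra.trace ℤ (𝓞 K) (X * σ Y) := by
        apply hdv
        push_cast at g2
        norm_num at g2
        exact g2
      exact Or.inr (Or.inr (Or.inr (Or.inl ⟨rfl, kA, g4, Or.inr g3⟩)))
    · obtain ⟨g1, g2⟩ := e1 (-1) (-1) (by simpa using a2) (by simpa using c2)
      have g3 : (r : ℤ) ∣ Algebra.norm ℤ Y - Algebra.norm ℤ X := hsum _ _ (by simpa using g1)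
      have g4 : (r : ℤ) ∣ Algebra.trace ℤ (𝓞 K) (X * σ Y) + 2 * Algebra.norm ℤ Y := by
        apply hdv
        push_cast at g2 ⊢
        norm_num at g2 ⊢
        have : ((Algebra.trace ℤ (𝓞 K) (X * σ Y) : ℤ) : 𝓞 K) + 2 * ((Algebra.norm ℤ Y : ℤ) : 𝓞 K) =
          ((Algebra.trace ℤ (𝓞 K) (X * σ Y) : ℤ) : 𝓞 K) -
            (-1 + -1) * ((Algebra.norm ℤ Y : ℤ) : 𝓞 K) := by ring
        first
          | exact g2
          | (rw [this]; exact g2)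
      refine Or.inr (Or.inr (Or.inr (Or.inr (Or.inl ⟨rfl, kA, g3, Or.inr ?_⟩))))
      have : Algebra.trace ℤ (𝓞 K) (X * σ Y) + 2 * Algebra.norm ℤ X =
          (Algebra.trace ℤ (𝓞 K) (X * σ Y) + 2 * Algebra.norm ℤ Y) -
            (Algebra.norm ℤ Y - Algebra.norm ℤ X) * 2 := by ring
      rw [this]
      exact dvd_sub g4 (dvd_mul_of_dvd_left g3 _)
  have r1 := d1.L r hr hrp hW 2 hk
  have n2 : (2 : ZMod p) ≠ 0 := by
    have : ((2 : ℕ) : ZMod p) ≠ 0 := by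
      rw [Ne, ZMod.natCast_eq_zero_iff]
      intro hd
      exact hp2 ((Nat.prime_dvd_prime_iff_eq hp Nat.prime_two).1 hd)
    exact_mod_cast this
  apply (ZMod.intCast_zmod_eq_zero_iff_dvd _ p).1
  push_cast at r1 ⊢
  apply (mul_eq_zero.1 (_ : (2 : ZMod p) * ((Algebra.norm ℤ X : ℤ) - (Algebra.norm ℤ Y : ℤ)) = 0)).resolve_left n2
  linear_combination r1

/-- the second theorem: `x` is congruent to `y` or to `-y` modulo every prime above `r` -/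
theorem furt2K {p : ℕ} (hp : p.Prime) (h3 : 3 ≤ p) (hK : Module.finrank ℚ K = 2) {x y z : K}
    (hx : x ≠ 0) (hy : y ≠ 0) (hz : z ≠ 0) (h : x ^ p + y ^ p + z ^ p = 0)
    (hv : ∀ v : HeightOneSpectrum (𝓞 K), ((p : ℕ) : 𝓞 K) ∈ v.asIdeal →
      v.valuation K x = v.valuation K y ∧ v.valuation K y = v.valuation K z)
    {r : ℕ} (hr : r.Prime) (hrp : r ≠ p)
    (hc : ∀ v : HeightOneSpectrum (𝓞 K), ((r : ℕ) : 𝓞 K) ∈ v.asIdeal →
      v.valuation K x = v.valuation K y ∧ v.valuation K (x ^ 2 - y ^ 2) < v.valuation K (y ^ 2)) :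
    p ^ 2 ∣ r ^ (p - 1) - 1 ∨ (p : ℤ) ∣ (Algebra.norm ℚ (x / y) - 1).num := by
  obtain ⟨a, X, Y, Z, ha, hXa, hYa, hZa, hX0, hY0, hZ0, hcp, hn⟩ := prepG hp (r * p)
    (mul_ne_zero hr.ne_zero hp.ne_zero) (dvd_mul_left p r) hx hy hz hv
  have heq := eq_of_scale hXa hYa hZa h
  have s : Sol p K X Y Z := ⟨hX0, hY0, hZ0, heq, hcp⟩
  have main := furt2 hp h3 hK s hr hrp fun P hP hrP => by
    have hmP : ((r * p : ℕ) : 𝓞 K) ∈ P := by
      rw [Nat.cast_mul]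
      exact P.mul_mem_right _ hrP
    have h0 : P ≠ ⊥ := by
      rintro rfl
      rw [Ideal.mem_bot] at hrP
      exact hr.ne_zero (by exact_mod_cast hrP)
    obtain ⟨h1, h2⟩ := hc ⟨P, hP, h0⟩ hrP
    have h5 := hn P hP hmP
    set v : HeightOneSpectrum (𝓞 K) := ⟨P, hP, h0⟩ with hvdef
    have e : ∀ (w : K) (W : 𝓞 K), algebraMap (𝓞 K) K W = a * w →
        (W ∈ P ↔ v.valuation K a * v.valuation K w < 1) := by
      intro w W hW
      rw [← map_mul, ← hW]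
      exact (v.valuation_lt_one_iff_mem (K := K) W).symm
    have e2 : X ∈ P ↔ Y ∈ P := by rw [e x X hXa, e y Y hYa, h1]
    have ha' : v.valuation K a ≠ 0 := (Valuation.ne_zero_iff _).2 ha
    have hXP : X ∉ P := by
      intro h6
      have h7 := e2.1 h6
      apply h5
      refine ⟨h6, h7, ?_⟩
      apply hP.mem_of_pow_mem p
      have h8 : Z ^ p = -(X ^ p) - Y ^ p := by linear_combination heq
      rw [h8]
      exact P.sub_mem (P.neg_mem (Ideal.pow_mem_of_mem _ h6 _ hp.pos))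
        (Ideal.pow_mem_of_mem _ h7 _ hp.pos)
    refine ⟨hXP, ?_⟩
    have h9 : X ^ 2 - Y ^ 2 ∈ P := by
      apply (v.valuation_lt_one_iff_mem (K := K) _).1
      show v.valuation K (algebraMap (𝓞 K) K (X ^ 2 - Y ^ 2)) < 1
      rw [map_sub, map_pow, map_pow, hXa, hYa]
      have e3 : (a * x) ^ 2 - (a * y) ^ 2 = a ^ 2 * (x ^ 2 - y ^ 2) := by ring
      rw [e3, map_mul]
      have h6 : v.valuation K (a ^ 2) * v.valuation K (y ^ 2) ≤ 1 := by
        rw [← map_mul, ← mul_pow, ← hYa, ← map_pow]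
        exact v.valuation_le_one (K := K) (Y ^ 2)
      refine lt_of_lt_of_le (mul_lt_mul_of_pos_left h2 (zero_lt_iff.2 ?_)) h6
      rw [map_pow]
      exact pow_ne_zero 2 ha'
    have e4 : X ^ 2 - Y ^ 2 = (X - Y) * (X + Y) := by ring
    rw [e4] at h9
    exact hP.mem_or_mem h9
  refine main.imp id fun hd => ?_
  obtain ⟨σ, hN, hT⟩ := Pool.Agent.Y546.SG.exists_conj hK
  have hBn := norm_ncp hp σ hN fun P hP hpP => (hcp P hP hpP).2.1
  have hq : Algebra.norm ℚ (x / y) * ((Algebra.norm ℤ Y : ℤ) : ℚ) = ((Algebra.norm ℤ X : ℤ) : ℚ) := by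
    have e1 : x / y * (Y : K) = (X : K) := by
      have e2 : (X : K) = a * x := hXa
      have e3 : (Y : K) = a * y := hYa
      rw [e2, e3]
      field_simp
    rw [Algebra.coe_norm_int, Algebra.coe_norm_int, ← e1, map_mul]
  set q : ℚ := Algebra.norm ℚ (x / y) - 1 with hqdef
  have hB0 : ((Algebra.norm ℤ Y : ℤ) : ℚ) ≠ 0 := by
    intro h0
    have : Algebra.norm ℤ Y = 0 := by exact_mod_cast h0
    exact hBn (this ▸ dvd_zero _)
  have h1 : q * (Algebra.norm ℤ Y : ℤ) = (Algebra.norm ℤ X : ℤ) - (Algebra.norm ℤ Y : ℤ) := by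
    rw [hqdef, sub_mul, hq, one_mul]
  have h2 : q.num * Algebra.norm ℤ Y = q.den * (Algebra.norm ℤ X - Algebra.norm ℤ Y) := by
    have h3 : (q.num : ℚ) * (Algebra.norm ℤ Y : ℤ) = q.den * ((Algebra.norm ℤ X : ℤ) - (Algebra.norm ℤ Y : ℤ)) := by
      rw [← h1]
      have h4 : (q.den : ℚ) * q = q.num := by
        rw [mul_comm]
        exact Rat.mul_den_eq_num q
      rw [← mul_assoc, h4]
    exact_mod_cast h3
  have h3 : (p : ℤ) ∣ q.num * Algebra.norm ℤ Y := by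
    rw [h2]
    exact dvd_mul_of_dvd_right hd _
  exact ((Nat.prime_iff_prime_int.1 hp).dvd_or_dvd h3).resolve_right hBn

end

end Pool.Agent.Zk73.FQ
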