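import Pool.Agent.Zk73.FQ.Dat
import Pool.Agent.Y546.WQ.EvnQ
import Pool.Agent.Y702.WQ.IDEE

/-!
# Auxiliary primes: the local types at the two primes above `r`, the linear relations
-/

set_option autoImplicit false
set_option linter.all false

namespace Pool.Agent.Zk73.FQ

open Pool.Agent.Y546.WQ NumberField IsDedekindDomain Polynomial

theorem nat_ne {p : ℕ} (hp : p.Prime) (n : ℕ) (h0 : 0 < n) (h : n < p) : ((n : ℕ) : ZMod p) ≠ 0 := by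
  rw [Ne, ZMod.natCast_eq_zero_iff]
  intro hd
  exact absurd (Nat.le_of_dvd h0 hd) (by omega)

section

variable {K : Type} [Field K] [NumberField K]

/-- the type of `V + T W` modulo `P`: constant, `V (1 ± T)`, or `T W` -/
def Ty (P : Ideal (𝓞 K)) (V W : 𝓞 K) (k : ℕ) : Prop :=
  (k = 0 ∧ V ∉ P ∧ W ∈ P) ∨ (k = 1 ∧ V ∉ P ∧ W ∉ P ∧ (V - W ∈ P ∨ V + W ∈ P)) ∨
    (k = 2 ∧ V ∈ P ∧ W ∉ P)

theorem Ty.neg {P : Ideal (𝓞 K)} {V W : 𝓞 K} {k : ℕ} (h : Ty P V W k) : Ty P V (-W) k := by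
  rcases h with ⟨h1, h2, h3⟩ | ⟨h1, h2, h3, h4⟩ | ⟨h1, h2, h3⟩
  · exact Or.inl ⟨h1, h2, neg_mem_iff.2 h3⟩
  · refine Or.inr (Or.inl ⟨h1, h2, fun h => h3 (neg_mem_iff.1 h), ?_⟩)
    rw [sub_neg_eq_add, ← sub_eq_add_neg]
    exact h4.symm
  · exact Or.inr (Or.inr ⟨h1, h2, fun h => h3 (neg_mem_iff.1 h)⟩)

/-- the local type of the norm -/
theorem Ty.loc (σ : 𝓞 K →+* 𝓞 K)
    (hN : ∀ a : 𝓞 K, ((Algebra.norm ℤ a : ℤ) : 𝓞 K) = a * σ a)
    (hT : ∀ a : 𝓞 K, ((Algebra.trace ℤ (𝓞 K) a : ℤ) : 𝓞 K) = a + σ a)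
    {r : ℕ} (hr : r.Prime) {P : Ideal (𝓞 K)} (hP : P.IsPrime) (hrP : ((r : ℕ) : 𝓞 K) ∈ P)
    {V W : 𝓞 K} {k l : ℕ} (h1 : Ty P V W k) (h2 : Ty P (σ V) (σ W) l) :
    Loc r (Algebra.norm ℤ V) (Algebra.trace ℤ (𝓞 K) (V * σ W)) (Algebra.norm ℤ W) (k + l) := by
  have hσσ := conj_conj σ hT
  haveI := hP
  have hdv : ∀ n : ℤ, (n : 𝓞 K) ∈ P ↔ (r : ℤ) ∣ n := by
    intro n
    constructor
    · intro hn
      by_contra h
      exact int_notMem P hP r hr hrP n h hn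
    · rintro ⟨u, rfl⟩
      push_cast
      exact P.mul_mem_right _ hrP
  set q := Ideal.Quotient.mk P with hq
  have hm : ∀ w : 𝓞 K, w ∈ P ↔ q w = 0 := fun w => Ideal.Quotient.eq_zero_iff_mem.symm
  have hd : ∀ n : ℤ, (r : ℤ) ∣ n ↔ q (n : 𝓞 K) = 0 := fun n => by rw [← hdv, hm]
  have hA : q ((Algebra.norm ℤ V : ℤ) : 𝓞 K) = q V * q (σ V) := by rw [hN, map_mul]
  have hB : q ((Algebra.norm ℤ W : ℤ) : 𝓞 K) = q W * q (σ W) := by rw [hN, map_mul]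
  have ht : q ((Algebra.trace ℤ (𝓞 K) (V * σ W) : ℤ) : 𝓞 K) = q V * q (σ W) + q (σ V) * q W := by
    rw [hT, map_add, map_mul, map_mul, hσσ, map_mul]
  have e1 : ∀ m n : ℤ, (r : ℤ) ∣ m - n ↔ q (m : 𝓞 K) = q (n : 𝓞 K) := by
    intro m n
    rw [hd]
    push_cast
    rw [map_sub, sub_eq_zero]
  have e2 : ∀ m n : ℤ, (r : ℤ) ∣ m + n ↔ q (m : 𝓞 K) = - q (n : 𝓞 K) := by
    intro m n
    rw [hd]
    push_cast
    rw [map_add, add_eq_zero_iff_eq_neg]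
  have e3 : ∀ m n : ℤ, (r : ℤ) ∣ m - 2 * n ↔ q (m : 𝓞 K) = 2 * q (n : 𝓞 K) := by
    intro m n
    rw [hd]
    push_cast
    rw [map_sub, sub_eq_zero, map_mul, map_ofNat]
  have e4 : ∀ m n : ℤ, (r : ℤ) ∣ m + 2 * n ↔ q (m : 𝓞 K) = - (2 * q (n : 𝓞 K)) := by
    intro m n
    rw [hd]
    push_cast
    rw [map_add, add_eq_zero_iff_eq_neg, map_mul, map_ofNat]
  unfold Loc
  simp only [e3, e4]
  simp only [e1, e2]
  simp only [hd, hA, hB, ht]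
  unfold Ty at h1 h2
  simp only [hm, map_sub, map_add, sub_eq_zero, add_eq_zero_iff_eq_neg] at h1 h2
  generalize q V = v at *
  generalize q (σ V) = v' at *
  generalize q W = w at *
  generalize q (σ W) = w' at *
  rcases h1 with ⟨rfl, a1, a2⟩ | ⟨rfl, a1, a2, a3⟩ | ⟨rfl, a1, a2⟩ <;>
    rcases h2 with ⟨rfl, b1, b2⟩ | ⟨rfl, b1, b2, b3⟩ | ⟨rfl, b1, b2⟩
  · left
    exact ⟨rfl, mul_ne_zero a1 b1, by rw [a2, b2]; ring, by rw [a2]; ring⟩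
  · right; left
    refine ⟨rfl, mul_ne_zero a1 b1, ?_, by rw [a2]; ring⟩
    rcases b3 with b3 | b3
    · left
      rw [a2, b3]; ring
    · right
      rw [a2, b3]; ring
  · right; right; left
    refine ⟨rfl, by rw [b1]; ring, ?_, by rw [a2]; ring⟩
    rw [a2, b1]
    simpa using ⟨a1, b2⟩
  · right; left
    refine ⟨rfl, mul_ne_zero a1 b1, ?_, by rw [b2]; ring⟩
    rcases a3 with a3 | a3
    · left
      rw [b2, a3]; ring
    · right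
      rw [b2, a3]; ring
  · rcases a3 with a3 | a3 <;> rcases b3 with b3 | b3
    · right; right; right; right; left
      refine ⟨rfl, mul_ne_zero a1 b1, by rw [a3, b3], Or.inl ?_⟩
      rw [a3, b3]; ring
    · right; right; right; left
      refine ⟨rfl, mul_ne_zero a1 b1, by rw [a3, b3]; ring, Or.inr ?_⟩
      rw [a3, b3]; ring
    · right; right; right; left
      refine ⟨rfl, mul_ne_zero a1 b1, by rw [a3, b3]; ring, Or.inr ?_⟩
      rw [a3, b3]; ring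
    · right; right; right; right; left
      refine ⟨rfl, mul_ne_zero a1 b1, by rw [a3, b3]; ring, Or.inr ?_⟩
      rw [a3, b3]; ring
  · right; right; right; right; right; left
    refine ⟨rfl, by rw [b1]; ring, ?_, mul_ne_zero a2 b2⟩
    rcases a3 with a3 | a3
    · left
      rw [b1, a3]; ring
    · right
      rw [b1, a3]; ring
  · right; right; left
    refine ⟨rfl, by rw [a1]; ring, ?_, by rw [b2]; ring⟩
    rw [a1, b2]
    simpa using ⟨b1, a2⟩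
  · right; right; right; right; right; left
    refine ⟨rfl, by rw [a1]; ring, ?_, mul_ne_zero a2 b2⟩
    rcases b3 with b3 | b3
    · left
      rw [a1, b3]; ring
    · right
      rw [a1, b3]; ring
  · right; right; right; right; right; right
    exact ⟨rfl, by rw [a1]; ring, by rw [a1, b1]; ring, mul_ne_zero a2 b2⟩

/-- one variable is divisible by `P`, the other two are equal up to sign modulo `P` -/
def One (P : Ideal (𝓞 K)) (X Y Z : 𝓞 K) (i : ℕ) : Prop :=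
  (i = 0 ∧ X ∈ P ∧ Y ∉ P ∧ Z ∉ P) ∨ (i = 1 ∧ Y ∈ P ∧ X ∉ P ∧ Z ∉ P) ∨ (i = 2 ∧ Z ∈ P ∧ X ∉ P ∧ Y ∉ P)

/-- the other two variables are equal up to sign modulo `P` -/
def Rat' (P : Ideal (𝓞 K)) (X Y Z : 𝓞 K) : Prop :=
  (X ∈ P → Y - Z ∈ P ∨ Y + Z ∈ P) ∧ (Y ∈ P → X - Z ∈ P ∨ X + Z ∈ P) ∧
    (Z ∈ P → X - Y ∈ P ∨ X + Y ∈ P)

/-- every element is an integer modulo `P`, if `P` is not equal to its conjugate -/
theorem exists_int (σ : 𝓞 K →+* 𝓞 K)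
    (hT : ∀ a : 𝓞 K, ((Algebra.trace ℤ (𝓞 K) a : ℤ) : 𝓞 K) = a + σ a)
    {r : ℕ} (hr : r.Prime) {P : Ideal (𝓞 K)} (hP : P.IsPrime) (hrP : ((r : ℕ) : 𝓞 K) ∈ P)
    {u : 𝓞 K} (hu : σ u ∈ P) (hu' : u ∉ P) (w : 𝓞 K) : ∃ e : ℤ, w - e ∈ P := by
  obtain ⟨t, ht⟩ : ∃ t : ℤ, t = Algebra.trace ℤ (𝓞 K) u := ⟨_, rfl⟩
  have h1 : u - (t : 𝓞 K) ∈ P := by
    rw [ht, hT]
    have : u - (u + σ u) = -(σ u) := by ring
    rw [this]
    exact P.neg_mem hu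
  have h2 : ¬ (r : ℤ) ∣ t := by
    rintro ⟨s, hs⟩
    apply hu'
    have : u = (u - (t : 𝓞 K)) + s * r := by
      rw [hs]
      push_cast
      ring
    rw [this]
    exact P.add_mem h1 (P.mul_mem_left _ hrP)
  have h3 : w * u - (Algebra.trace ℤ (𝓞 K) (w * u) : ℤ) ∈ P := by
    rw [hT, map_mul]
    have : w * u - (w * u + σ w * σ u) = -(σ w * σ u) := by ring
    rw [this]
    exact P.neg_mem (P.mul_mem_left _ hu)
  have hcop : IsCoprime (r : ℤ) t := by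
    have := (Nat.prime_iff_prime_int.1 hr).coprime_iff_not_dvd.2 h2
    exact this
  obtain ⟨a, b, hab⟩ := hcop
  refine ⟨b * Algebra.trace ℤ (𝓞 K) (w * u), ?_⟩
  have e : w - ((b * Algebra.trace ℤ (𝓞 K) (w * u) : ℤ) : 𝓞 K) =
      b * (w * u - (Algebra.trace ℤ (𝓞 K) (w * u) : ℤ)) - (b * w) * (u - (t : 𝓞 K)) +
        (a * w) * ((r : ℕ) : 𝓞 K) := by
    have h4 : ((a * (r : ℤ) + b * t : ℤ) : 𝓞 K) = 1 := by rw [hab]; simp
    push_cast at h4 ⊢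
    linear_combination (-w) * h4
  rw [e]
  exact P.add_mem (P.sub_mem (P.mul_mem_left _ h3) (P.mul_mem_left _ h1)) (P.mul_mem_left _ hrP)

/-- quotients of two solutions of `a ^ n = 1` -/
theorem ratio {r : ℕ} (hr : r.Prime) {P : Ideal (𝓞 K)} (hP : P.IsPrime) (hrP : ((r : ℕ) : 𝓞 K) ∈ P)
    (hrep : ∀ w : 𝓞 K, ∃ e : ℤ, w - e ∈ P) {n k : ℕ} (hq : ∀ a : ZMod r, a ^ n = 1 → a ^ k = 1)
    {V W : 𝓞 K} (hW : W ∉ P) (h : V ^ n - W ^ n ∈ P) : V ^ k - W ^ k ∈ P := by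
  haveI : Fact r.Prime := ⟨hr⟩
  obtain ⟨v, hv⟩ := hrep V
  obtain ⟨w, hw⟩ := hrep W
  have q : ∀ {w : 𝓞 K} {e : ℤ}, w - e ∈ P → Ideal.Quotient.mk P w = Ideal.Quotient.mk P (e : 𝓞 K) :=
    fun hw => Ideal.Quotient.eq.2 hw
  have hz : ∀ a : ℤ, (a : 𝓞 K) ∈ P ↔ (a : ZMod r) = 0 := by
    intro a
    rw [ZMod.intCast_zmod_eq_zero_iff_dvd]
    constructor
    · intro h
      by_contra h'
      exact int_notMem P hP r hr hrP a h' h
    · rintro ⟨u, rfl⟩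
      push_cast
      exact P.mul_mem_right _ hrP
  have key : ∀ j : ℕ, V ^ j - W ^ j ∈ P ↔ (v : ZMod r) ^ j = w ^ j := by
    intro j
    have h1 : V ^ j - W ^ j ∈ P ↔ ((v ^ j - w ^ j : ℤ) : 𝓞 K) ∈ P := by
      rw [← Ideal.Quotient.eq_zero_iff_mem, ← Ideal.Quotient.eq_zero_iff_mem]
      push_cast
      simp only [map_sub, map_pow]
      rw [q hv, q hw]
    rw [h1, hz]
    push_cast
    exact sub_eq_zero
  have hw0 : (w : ZMod r) ≠ 0 := by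
    intro h0
    apply hW
    rw [← Ideal.Quotient.eq_zero_iff_mem, q hw, Ideal.Quotient.eq_zero_iff_mem]
    exact (hz w).2 h0
  rw [key] at h ⊢
  have h1 := hq ((v : ZMod r) / w) (by
    rw [div_pow, h]
    exact div_self (pow_ne_zero _ hw0))
  rw [div_pow] at h1
  exact (div_eq_one_iff_eq (pow_ne_zero _ hw0)).1 h1

end

end Pool.Agent.Zk73.FQ
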