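import Pool.Agent.Zk73.FQ.Gef

/-!
# Auxiliary primes: contradictions from the linear relations
-/

set_option autoImplicit false
set_option linter.all false

namespace Pool.Agent.Zk73.FQ

open Pool.Agent.Y546.WQ NumberField IsDedekindDomain Polynomial

section

variable {p : ℕ} [Fact p.Prime]

/-- squares -/
theorem sq_of (N m d c : ZMod p) (hN : N ≠ 0) (hc : c ≠ 0) (h : m ^ 2 * d = -N * c ^ 2) :
    ∃ s : ZMod p, s ≠ 0 ∧ s ^ 2 = -N * d := by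
  have hm : m ≠ 0 := by
    rintro rfl
    have : N * c ^ 2 = 0 := by linear_combination h
    exact mul_ne_zero hN (pow_ne_zero 2 hc) this
  refine ⟨N * c / m, div_ne_zero (mul_ne_zero hN hc) hm, ?_⟩
  rw [div_pow, div_eq_iff (pow_ne_zero 2 hm)]
  linear_combination N * h

end

section

variable {K : Type} [Field K] [NumberField K]

theorem Sol.rot {p : ℕ} {X Y Z : 𝓞 K} (h : Sol p K X Y Z) : Sol p K Y X Z where
  X0 := h.Y0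
  Y0 := h.X0
  Z0 := h.Z0
  eq := by rw [← h.eq]; ring
  cp := fun P hP hp => ⟨(h.cp P hP hp).2.1, (h.cp P hP hp).1, (h.cp P hP hp).2.2⟩

variable {p : ℕ} [Fact p.Prime] (σ : 𝓞 K →+* 𝓞 K)
    (hN : ∀ a : 𝓞 K, ((Algebra.norm ℤ a : ℤ) : 𝓞 K) = a * σ a)
    (hT : ∀ a : 𝓞 K, ((Algebra.trace ℤ (𝓞 K) a : ℤ) : 𝓞 K) = a + σ a) (d : ℤ)
    (hdat : ∀ X Y Z : 𝓞 K, Sol p K X Y Z → DatR p d (Algebra.norm ℤ X) (Algebra.norm ℤ Y)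
      (Algebra.norm ℤ Z) (Algebra.trace ℤ (𝓞 K) (X * σ Y)))
    {r : ℕ} (hr : r.Prime) (hrp : r ≠ p) (hW : ¬ p ^ 2 ∣ r ^ (p - 1) - 1)
    {P : Ideal (𝓞 K)} (hP : P.IsPrime) (hrP : ((r : ℕ) : 𝓞 K) ∈ P)

include hN hT hdat hr hrp hW hP hrP

theorem equal_case (h7 : 7 ≤ p) {X Y Z : 𝓞 K} (s : Sol p K X Y Z)
    (a1 : X ∈ P) (a2 : Y ∉ P) (a3 : Z ∉ P) (b1 : σ X ∈ P) (b2 : σ Y ∉ P) (b3 : σ Z ∉ P) : False := by
  have hpp : p.Prime := Fact.out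
  have t1 : Ty P X Y 2 := Or.inr (Or.inr ⟨rfl, a1, a2⟩)
  have t2 : Ty P (σ X) (σ Y) 2 := Or.inr (Or.inr ⟨rfl, b1, b2⟩)
  have t3 : Ty P X Z 2 := Or.inr (Or.inr ⟨rfl, a1, a3⟩)
  have t4 : Ty P (σ X) (σ Z) 2 := Or.inr (Or.inr ⟨rfl, b1, b3⟩)
  have d1 := hdat _ _ _ s
  have d2 := hdat _ _ _ (Sol.swap s)
  have r1 := d1.L r hr hrp hW _ (Ty.loc σ hN hT hr hP hrP t1 t2)
  have r2 := d2.L r hr hrp hW _ (Ty.loc σ hN hT hr hP hrP t3 t4)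
  have n2 : (2 : ZMod p) ≠ 0 := by exact_mod_cast nat_ne hpp 2 (by norm_num) (by omega)
  apply d1.A0
  apply (mul_eq_zero.1 (_ : (2 : ZMod p) ^ 3 * (Algebra.norm ℤ X : ℤ) = 0)).resolve_left
    (pow_ne_zero 3 n2)
  push_cast at r1 r2
  linear_combination 2 * r1 + 2 * r2

theorem mixed_case (h7 : 7 ≤ p) {X Y Z : 𝓞 K} (s : Sol p K X Y Z)
    (a1 : X ∈ P) (a2 : Y ∉ P) (a3 : Z ∉ P) (a4 : Y - Z ∈ P ∨ Y + Z ∈ P)
    (b1 : σ Y ∈ P) (b2 : σ X ∉ P) (b3 : σ Z ∉ P) (b4 : σ X - σ Z ∈ P ∨ σ X + σ Z ∈ P) :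
    (∃ s : ZMod p, s ≠ 0 ∧ s ^ 2 = -15 * (d : ZMod p)) ∧ ¬ Reg p 3 := by
  have hpp : p.Prime := Fact.out
  have t1 : Ty P X Y 2 := Or.inr (Or.inr ⟨rfl, a1, a2⟩)
  have t2 : Ty P (σ X) (σ Y) 0 := Or.inl ⟨rfl, b2, b1⟩
  have t3 : Ty P X Z 2 := Or.inr (Or.inr ⟨rfl, a1, a3⟩)
  have t4 : Ty P (σ X) (σ Z) 1 := Or.inr (Or.inl ⟨rfl, b2, b3, b4⟩)
  have d1 := hdat _ _ _ s
  have d2 := hdat _ _ _ (Sol.swap s)
  have r1 := d1.L r hr hrp hW _ (Ty.loc σ hN hT hr hP hrP t1 t2)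
  have r2 := d2.L r hr hrp hW _ (Ty.loc σ hN hT hr hP hrP t3 t4)
  have n2 : (2 : ZMod p) ≠ 0 := by exact_mod_cast nat_ne hpp 2 (by norm_num) (by omega)
  have n3 : (3 : ZMod p) ≠ 0 := by exact_mod_cast nat_ne hpp 3 (by norm_num) (by omega)
  have n5 : (5 : ZMod p) ≠ 0 := by exact_mod_cast nat_ne hpp 5 (by norm_num) (by omega)
  have A0 := d1.A0
  have cp := d1.cp
  obtain ⟨m, hm⟩ := d1.dd
  have hm' := congrArg (fun w : ℤ => (w : ZMod p)) hm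
  have hR := d2.R h7
  push_cast at r1 r2 hm' hR
  generalize ((Algebra.norm ℤ X : ℤ) : ZMod p) = A at *
  generalize ((Algebra.norm ℤ Y : ℤ) : ZMod p) = B at *
  generalize ((Algebra.norm ℤ Z : ℤ) : ZMod p) = G at *
  generalize ((Algebra.trace ℤ (𝓞 K) (X * σ Y) : ℤ) : ZMod p) = t at *
  have e1 : A = B := by
    apply sub_eq_zero.1
    apply (mul_eq_zero.1 (_ : (2 : ZMod p) * (A - B) = 0)).resolve_left n2
    linear_combination r1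
  subst e1
  have e2 : 2 * G = 3 * A := by linear_combination -r2
  obtain ⟨u, rfl⟩ : ∃ u, A = 2 * u := ⟨A / 2, by field_simp⟩
  have e3 : G = 3 * u := by
    apply sub_eq_zero.1
    apply (mul_eq_zero.1 (_ : (2 : ZMod p) * (G - 3 * u) = 0)).resolve_left n2
    linear_combination e2
  subst e3
  have u0 : u ≠ 0 := by
    rintro rfl
    exact A0 (by ring)
  constructor
  · apply sq_of 15 (m : ZMod p) (d : ZMod p) u (by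
      have : (15 : ZMod p) = 3 * 5 := by norm_num
      rw [this]
      exact mul_ne_zero n3 n5) u0
    have ht : t = -u := by linear_combination cp
    rw [ht] at hm'
    linear_combination -hm'
  · intro hreg
    have h1 := hR hreg
    have h2 : (2 : ZMod p) ^ 3 * 3 * u ^ 3 = 0 := by linear_combination h1
    exact mul_ne_zero (mul_ne_zero (pow_ne_zero 3 n2) n3) (pow_ne_zero 3 u0) h2

/-- all cases for a solution of `X ^ p + Y ^ p + Z ^ p = 0` -/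
theorem odd_cases (h7 : 7 ≤ p) {X Y Z : 𝓞 K} (s : Sol p K X Y Z) {i j : ℕ}
    (hi : One P X Y Z i) (hj : One P (σ X) (σ Y) (σ Z) j)
    (hrat : i ≠ j → Rat' P X Y Z ∧ Rat' P (σ X) (σ Y) (σ Z)) :
    i ≠ j ∧ (∃ s : ZMod p, s ≠ 0 ∧ s ^ 2 = -15 * (d : ZMod p)) ∧ ¬ Reg p 3 := by
  have he : ∀ {X Y Z : 𝓞 K}, Sol p K X Y Z → X ∈ P → Y ∉ P → Z ∉ P → σ X ∈ P → σ Y ∉ P →
      σ Z ∉ P → False := fun s a1 a2 a3 b1 b2 b3 =>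
    equal_case σ hN hT d hdat hr hrp hW hP hrP h7 s a1 a2 a3 b1 b2 b3
  have hm : ∀ {X Y Z : 𝓞 K}, Sol p K X Y Z → X ∈ P → Y ∉ P → Z ∉ P → (Y - Z ∈ P ∨ Y + Z ∈ P) →
      σ Y ∈ P → σ X ∉ P → σ Z ∉ P → (σ X - σ Z ∈ P ∨ σ X + σ Z ∈ P) →
      (∃ s : ZMod p, s ≠ 0 ∧ s ^ 2 = -15 * (d : ZMod p)) ∧ ¬ Reg p 3 :=
    fun s a1 a2 a3 a4 b1 b2 b3 b4 =>
      mixed_case σ hN hT d hdat hr hrp hW hP hrP h7 s a1 a2 a3 a4 b1 b2 b3 b4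
  have sy : ∀ {V W : 𝓞 K}, (V - W ∈ P ∨ V + W ∈ P) → (W - V ∈ P ∨ W + V ∈ P) := by
    intro V W h
    rcases h with h | h
    · left
      rw [← neg_mem_iff, neg_sub]
      exact h
    · right
      rw [add_comm]
      exact h
  rcases hi with ⟨rfl, a1, a2, a3⟩ | ⟨rfl, a1, a2, a3⟩ | ⟨rfl, a1, a2, a3⟩ <;>
    rcases hj with ⟨rfl, b1, b2, b3⟩ | ⟨rfl, b1, b2, b3⟩ | ⟨rfl, b1, b2, b3⟩
  · exact (he s a1 a2 a3 b1 b2 b3).elim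
  · obtain ⟨c1, c2⟩ := hrat (by decide)
    exact ⟨by decide, hm s a1 a2 a3 (c1.1 a1) b1 b2 b3 (c2.2.1 b1)⟩
  · obtain ⟨c1, c2⟩ := hrat (by decide)
    exact ⟨by decide, hm (Sol.swap s) a1 a3 a2 (sy (c1.1 a1)) b1 b2 b3 (c2.2.2 b1)⟩
  · obtain ⟨c1, c2⟩ := hrat (by decide)
    exact ⟨by decide, hm (Sol.rot s) a1 a2 a3 (c1.2.1 a1) b1 b2 b3 (c2.1 b1)⟩
  · exact (he (Sol.rot s) a1 a2 a3 b1 b2 b3).elim
  · obtain ⟨c1, c2⟩ := hrat (by decide)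
    exact ⟨by decide, hm (Sol.swap (Sol.rot s)) a1 a3 a2 (sy (c1.2.1 a1)) b1 b3 b2
      (sy (c2.2.2 b1))⟩
  · obtain ⟨c1, c2⟩ := hrat (by decide)
    exact ⟨by decide, hm (Sol.rot (Sol.swap s)) a1 a2 a3 (c1.2.2 a1) b1 b3 b2 (sy (c2.1 b1))⟩
  · obtain ⟨c1, c2⟩ := hrat (by decide)
    exact ⟨by decide, hm (Sol.rot (Sol.swap (Sol.rot s))) a1 a3 a2 (sy (c1.2.2 a1)) b1 b3 b2
      (sy (c2.2.1 b1))⟩
  · exact (he (Sol.rot (Sol.swap s)) a1 a2 a3 b1 b2 b3).elim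

end

end Pool.Agent.Zk73.FQ
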