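import Pool.Agent.Zk73.FQ.Geg

/-!
# Auxiliary primes: even exponents
-/

set_option autoImplicit false
set_option linter.all false

namespace Pool.Agent.Zk73.FQ

open Pool.Agent.Y546.WQ NumberField IsDedekindDomain Polynomial

section

variable {K : Type} [Field K] [NumberField K]

/-- the linear relation for the norm of `z - ζ y` -/
theorem datE3 {p : ℕ} [Fact p.Prime] (h7 : 7 ≤ p)
    (hK : Module.finrank ℚ K = 2) (σ : 𝓞 K →+* 𝓞 K)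
    (hN : ∀ a : 𝓞 K, ((Algebra.norm ℤ a : ℤ) : 𝓞 K) = a * σ a)
    (hT : ∀ a : 𝓞 K, ((Algebra.trace ℤ (𝓞 K) a : ℤ) : 𝓞 K) = a + σ a)
    {x y z : 𝓞 K} (s : SolE p K x y z) (A B t : ℤ) (hA : A = Algebra.norm ℤ z)
    (hB : B = Algebra.norm ℤ y) (ht : t = Algebra.trace ℤ (𝓞 K) (z * σ y))
    {r : ℕ} (hr : r.Prime) (hrp : r ≠ p) (hW : ¬ p ^ 2 ∣ r ^ (p - 1) - 1) {k : ℕ}
    (hk : Loc r A (-t) B k) : (k : ZMod p) * (A - t + B) = 2 * (-t + 2 * B) := by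
  have hpp : p.Prime := Fact.out
  have hp2 : p ≠ 2 := by omega
  have hσσ := conj_conj σ hT
  obtain ⟨E, _, _, ⟨c⟩⟩ := Y978.WQ.main p hp2
  obtain ⟨N, _, _, i, hcard, hD⟩ := Y258.WQ.mainDOWNG p E c K (by omega)
  have hD' : Dn p E N i := hD
  obtain ⟨f, hdeg, hc0, hcm, hev, hf'⟩ := Y290.WQ.mainNORM K z (-y)
  obtain ⟨g, -, -, -, hgev, hg'⟩ := Y290.WQ.mainNORM K (z ^ 2) (-y ^ 2)
  have hf := hf' N hcard
  have hg := hg' N hcard
  have h4 : ∀ P : Ideal (𝓞 K), P.IsPrime → (2 : 𝓞 K) ∈ P → ∀ w : 𝓞 K, w ^ 4 - w ∈ P :=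
    fun P hP h2P => pow_four σ hN hT P hP h2P
  obtain ⟨h0, hg0, hv⟩ := fldE Y702.WQ.mainIDEE (by omega) c i hD' s.x0 s.y0 s.z0 s.eq
    (fun P hP hpP => (s.cp P hP hpP).1) s.two h4 f hf g hg
  have hcB : f.coeff 2 = B := by
    rw [← hK, hcm, hB]
    have : ((Algebra.norm ℤ (-y) : ℤ) : 𝓞 K) = (Algebra.norm ℤ y : ℤ) := by
      rw [hN, hN, map_neg]
      ring
    exact_mod_cast this
  have hcA : f.coeff 0 = A := by rw [hc0, hA]
  have hnat : f = C A + C (f.coeff 1) * X + C B * X ^ 2 := by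
    have h1 := f.as_sum_range_C_mul_X_pow' (n := 3) (by rw [hK] at hdeg; omega)
    rw [Finset.sum_range_succ, Finset.sum_range_succ, Finset.sum_range_one] at h1
    rw [hcA, hcB, pow_zero, mul_one, pow_one] at h1
    exact h1
  have hc1 : f.coeff 1 = -t := by
    have h1 := hev 1
    have h2 : f.eval 1 = A + f.coeff 1 + B := by
      conv_lhs => rw [hnat]
      simp
    rw [h2] at h1
    have h3 : ((A + f.coeff 1 + B : ℤ) : 𝓞 K) = ((A - t + B : ℤ) : 𝓞 K) := by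
      rw [h1, hN]
      push_cast
      rw [hA, hB, ht, hN, hN, hT]
      simp only [map_add, map_neg, map_mul, map_one, hσσ]
      ring
    have h4 : A + f.coeff 1 + B = A - t + B := by exact_mod_cast h3
    linarith
  rw [hc1] at hnat
  have hev1 : f.eval 1 = A + -t + B := by
    rw [hnat]
    simp
  have hpu : ¬ (p : ℤ) ∣ A + -t + B := by
    rw [← hev1, hev]
    apply norm_coprime hcard Y290.WQ.mainNORM p hpp
    intro P hP hpP h'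
    apply (s.sub_notMem hpp hp2 P hP hpP).2
    have e : z - y = z + ((1 : ℤ) : 𝓞 K) * -y := by push_cast; ring
    rw [e]
    exact h'
  have hpg : ¬ (p : ℤ) ∣ g.eval 1 := by
    rw [hgev]
    apply norm_coprime hcard Y290.WQ.mainNORM p hpp
    intro P hP hpP h'
    apply (s.sub_notMem hpp hp2 P hP hpP).1
    have e : z ^ 2 - y ^ 2 = z ^ 2 + ((1 : ℤ) : 𝓞 K) * -y ^ 2 := by push_cast; ring
    rw [e]
    exact h'
  have hpV : ¬ (p : ℤ) ∣ (g.eval 1) ^ ((p + 1) / 2) := fun h =>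
    hpg ((Nat.prime_iff_prime_int.1 hpp).dvd_of_dvd_pow h)
  have hfz : aeval c.z f = (A : E) + ((-t : ℤ) : E) * c.z + B * c.z ^ 2 := by
    rw [hnat]
    simp only [map_add, map_mul, map_pow, aeval_C, aeval_X, algebraMap_int_eq, Int.coe_castRingHom]
  have := lin hp2 hr hrp hW c hpu hpV (by rw [← hfz]; exact h0) (by rw [← hfz]; exact hv) hk
  push_cast at this
  linear_combination this

/-- the relations for both signs -/
theorem pairE {p : ℕ} [Fact p.Prime] (h7 : 7 ≤ p)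
    (hK : Module.finrank ℚ K = 2) (σ : 𝓞 K →+* 𝓞 K)
    (hN : ∀ a : 𝓞 K, ((Algebra.norm ℤ a : ℤ) : 𝓞 K) = a * σ a)
    (hT : ∀ a : 𝓞 K, ((Algebra.trace ℤ (𝓞 K) a : ℤ) : 𝓞 K) = a + σ a)
    {x y z : 𝓞 K} (s : SolE p K x y z) (A B t : ℤ) (hA : A = Algebra.norm ℤ z)
    (hB : B = Algebra.norm ℤ y) (ht : t = Algebra.trace ℤ (𝓞 K) (z * σ y))
    {r : ℕ} (hr : r.Prime) (hrp : r ≠ p) (hW : ¬ p ^ 2 ∣ r ^ (p - 1) - 1)
    {P : Ideal (𝓞 K)} (hP : P.IsPrime) (hrP : ((r : ℕ) : 𝓞 K) ∈ P) {k l : ℕ}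
    (h1 : Ty P z y k) (h2 : Ty P (σ z) (σ y) l) :
    ((k + l : ℕ) : ZMod p) * (A - t + B) = 2 * (-t + 2 * B) ∧
      ((k + l : ℕ) : ZMod p) * (A + t + B) = 2 * (t + 2 * B) := by
  have hnegN : ∀ w : 𝓞 K, Algebra.norm ℤ (-w) = Algebra.norm ℤ w := by
    intro w
    have : ((Algebra.norm ℤ (-w) : ℤ) : 𝓞 K) = (Algebra.norm ℤ w : ℤ) := by
      rw [hN, hN, map_neg]
      ring
    exact_mod_cast this
  have hnegT : ∀ w : 𝓞 K, Algebra.trace ℤ (𝓞 K) (z * σ (-w)) =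
      -Algebra.trace ℤ (𝓞 K) (z * σ w) := by
    intro w
    rw [map_neg, mul_neg, map_neg]
  constructor
  · apply datE3 h7 hK σ hN hT s A B t hA hB ht hr hrp hW
    have h3 : Ty P (σ z) (σ (-y)) l := by
      rw [map_neg]
      exact h2.neg
    have := Ty.loc σ hN hT hr hP hrP h1.neg h3
    rw [hnegN, hnegT, ← hA, ← hB, ← ht] at this
    exact this
  · have h3 := datE3 h7 hK σ hN hT s.negy A B (-t) hA (by rw [hB, hnegN]) (by rw [hnegT, ht])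
      hr hrp hW (k := k + l) (by
        have := Ty.loc σ hN hT hr hP hrP h1 h2
        rw [← hA, ← hB, ← ht] at this
        rw [neg_neg]
        exact this)
    push_cast at h3 ⊢
    linear_combination h3

/-- the consequences of the relations for both signs -/
theorem keyE {p : ℕ} [Fact p.Prime] (h7 : 7 ≤ p) (a b t : ZMod p) (ha : a ≠ 0) (hb : b ≠ 0) (k : ℕ)
    (e1 : (k : ZMod p) * (a - t + b) = 2 * (-t + 2 * b))
    (e2 : (k : ZMod p) * (a + t + b) = 2 * (t + 2 * b)) :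
    k ≠ 0 ∧ k ≠ 4 ∧ (k = 1 → t = 0 ∧ a = 3 * b) ∧ (k = 2 → a = b) ∧ (k = 3 → t = 0 ∧ b = 3 * a) := by
  have hpp : p.Prime := Fact.out
  have n2 : (2 : ZMod p) ≠ 0 := by exact_mod_cast nat_ne hpp 2 (by norm_num) (by omega)
  refine ⟨?_, ?_, ?_, ?_, ?_⟩
  · rintro rfl
    push_cast at e1 e2
    have e3 : (2 : ZMod p) ^ 3 * b = 0 := by linear_combination -e1 - e2
    exact mul_ne_zero (pow_ne_zero 3 n2) hb e3
  · rintro rfl
    push_cast at e1 e2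
    have e3 : (2 : ZMod p) ^ 3 * a = 0 := by linear_combination e1 + e2
    exact mul_ne_zero (pow_ne_zero 3 n2) ha e3
  · rintro rfl
    push_cast at e1 e2
    have e3 : (2 : ZMod p) * t = 0 := by linear_combination e1 - e2
    have e4 := (mul_eq_zero.1 e3).resolve_left n2
    refine ⟨e4, ?_⟩
    rw [e4] at e1
    linear_combination e1
  · rintro rfl
    push_cast at e1 e2
    have e3 : (2 : ZMod p) * (a - b) = 0 := by linear_combination e1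
    exact sub_eq_zero.1 ((mul_eq_zero.1 e3).resolve_left n2)
  · rintro rfl
    push_cast at e1 e2
    have e3 : (2 : ZMod p) * t = 0 := by linear_combination e2 - e1
    have e4 := (mul_eq_zero.1 e3).resolve_left n2
    refine ⟨e4, ?_⟩
    rw [e4] at e1
    linear_combination -e1

/-- if `P` divides `x` or `y`, the other two variables are equal up to sign modulo `P` -/
def Rat2 (P : Ideal (𝓞 K)) (x y z : 𝓞 K) : Prop :=
  (x ∈ P → y - z ∈ P ∨ y + z ∈ P) ∧ (y ∈ P → x - z ∈ P ∨ x + z ∈ P)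

/-- all cases for a solution of `x ^ (2 p) + y ^ (2 p) = z ^ (2 p)` -/
theorem even_cases {p : ℕ} [Fact p.Prime] (h7 : 7 ≤ p)
    (hK : Module.finrank ℚ K = 2) (σ : 𝓞 K →+* 𝓞 K)
    (hN : ∀ a : 𝓞 K, ((Algebra.norm ℤ a : ℤ) : 𝓞 K) = a * σ a)
    (hT : ∀ a : 𝓞 K, ((Algebra.trace ℤ (𝓞 K) a : ℤ) : 𝓞 K) = a + σ a)
    {r : ℕ} (hr : r.Prime) (hrp : r ≠ p) (hW : ¬ p ^ 2 ∣ r ^ (p - 1) - 1)
    {P : Ideal (𝓞 K)} (hP : P.IsPrime) (hrP : ((r : ℕ) : 𝓞 K) ∈ P)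
    {x y z : 𝓞 K} (s : SolE p K x y z) {i j : ℕ}
    (hi : One P x y z i) (hj : One P (σ x) (σ y) (σ z) j)
    (hrat : i ≠ j → Rat2 P x y z ∧ Rat2 P (σ x) (σ y) (σ z)) : False := by
  have hpp : p.Prime := Fact.out
  have hp2 : p ≠ 2 := by omega
  obtain ⟨A, hA⟩ : ∃ A : ℤ, A = Algebra.norm ℤ z := ⟨_, rfl⟩
  obtain ⟨B, hB⟩ : ∃ B : ℤ, B = Algebra.norm ℤ y := ⟨_, rfl⟩
  obtain ⟨D, hD⟩ : ∃ D : ℤ, D = Algebra.norm ℤ x := ⟨_, rfl⟩
  obtain ⟨t, ht⟩ : ∃ t : ℤ, t = Algebra.trace ℤ (𝓞 K) (z * σ y) := ⟨_, rfl⟩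
  obtain ⟨u, hu⟩ : ∃ u : ℤ, u = Algebra.trace ℤ (𝓞 K) (z * σ x) := ⟨_, rfl⟩
  have f1 := datE2 hpp hp2 σ hN hT s A B D t hA hB hD ht
  have f2 := datE2 hpp hp2 σ hN hT s.swap A D B u hA hD hB hu
  have hnz : ∀ w : 𝓞 K, (∀ P : Ideal (𝓞 K), P.IsPrime → ((p : ℕ) : 𝓞 K) ∈ P → w ∉ P) →
      ((Algebra.norm ℤ w : ℤ) : ZMod p) ≠ 0 := by
    intro w hw h0
    exact norm_ncp hpp σ hN hw ((ZMod.intCast_zmod_eq_zero_iff_dvd _ p).1 h0)
  have A0 : (A : ZMod p) ≠ 0 := by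
    rw [hA]
    exact hnz z fun P hP hpP => (s.cp P hP hpP).2.2
  have B0 : (B : ZMod p) ≠ 0 := by
    rw [hB]
    exact hnz y fun P hP hpP => (s.cp P hP hpP).2.1
  have D0 : (D : ZMod p) ≠ 0 := by
    rw [hD]
    exact hnz x fun P hP hpP => (s.cp P hP hpP).1
  have n3 : (3 : ZMod p) ≠ 0 := by exact_mod_cast nat_ne hpp 3 (by norm_num) (by omega)
  have n5 : (5 : ZMod p) ≠ 0 := by exact_mod_cast nat_ne hpp 5 (by norm_num) (by omega)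
  have n15 : ∀ w : ZMod p, w ≠ 0 → 15 * w ^ 2 = 0 → False := by
    intro w hw h0
    have : (15 : ZMod p) = 3 * 5 := by norm_num
    rw [this] at h0
    exact mul_ne_zero (mul_ne_zero n3 n5) (pow_ne_zero 2 hw) h0
  have ky : ∀ {k l : ℕ}, Ty P z y k → Ty P (σ z) (σ y) l → k + l ≠ 0 ∧ k + l ≠ 4 ∧
      (k + l = 1 → (t : ZMod p) = 0 ∧ (A : ZMod p) = 3 * B) ∧ (k + l = 2 → (A : ZMod p) = B) ∧
      (k + l = 3 → (t : ZMod p) = 0 ∧ (B : ZMod p) = 3 * A) := by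
    intro k l h1 h2
    obtain ⟨e1, e2⟩ := pairE h7 hK σ hN hT s A B t hA hB ht hr hrp hW hP hrP h1 h2
    exact keyE h7 _ _ _ A0 B0 _ e1 e2
  have kx : ∀ {k l : ℕ}, Ty P z x k → Ty P (σ z) (σ x) l → k + l ≠ 0 ∧ k + l ≠ 4 ∧
      (k + l = 1 → (u : ZMod p) = 0 ∧ (A : ZMod p) = 3 * D) ∧ (k + l = 2 → (A : ZMod p) = D) ∧
      (k + l = 3 → (u : ZMod p) = 0 ∧ (D : ZMod p) = 3 * A) := by
    intro k l h1 h2
    obtain ⟨e1, e2⟩ := pairE h7 hK σ hN hT s.swap A D u hA hD hu hr hrp hW hP hrP h1 h2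
    exact keyE h7 _ _ _ A0 D0 _ e1 e2
  have sy : ∀ {V W : 𝓞 K}, (V - W ∈ P ∨ V + W ∈ P) → (W - V ∈ P ∨ W + V ∈ P) := by
    intro V W h
    rcases h with h | h
    · left
      rw [← neg_mem_iff, neg_sub]
      exact h
    · right
      rw [add_comm]
      exact h
  rcases hi with ⟨rfl, a1, a2, a3⟩ | ⟨rfl, a1, a2, a3⟩ | ⟨rfl, a1, a2, a3⟩ <;>
    rcases hj with ⟨rfl, b1, b2, b3⟩ | ⟨rfl, b1, b2, b3⟩ | ⟨rfl, b1, b2, b3⟩
  · exact (kx (k := 0) (l := 0) (Or.inl ⟨rfl, a3, a1⟩) (Or.inl ⟨rfl, b3, b1⟩)).1 rfl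
  · obtain ⟨c1, c2⟩ := hrat (by decide)
    have g1 := (ky (k := 1) (l := 0) (Or.inr (Or.inl ⟨rfl, a3, a2, sy (c1.1 a1)⟩))
      (Or.inl ⟨rfl, b3, b1⟩)).2.2.1 rfl
    have g2 := (kx (k := 0) (l := 1) (Or.inl ⟨rfl, a3, a1⟩)
      (Or.inr (Or.inl ⟨rfl, b3, b2, sy (c2.2 b1)⟩))).2.2.1 rfl
    apply n15 B B0
    have g3 : (B : ZMod p) = D := by
      have h3 : (3 : ZMod p) * (B - D) = 0 := by linear_combination g2.2 - g1.2
      exact sub_eq_zero.1 ((mul_eq_zero.1 h3).resolve_left n3)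
    rw [← g3, g1.1, g1.2] at f1
    linear_combination -f1
  · obtain ⟨c1, c2⟩ := hrat (by decide)
    have g1 := (ky (k := 1) (l := 2) (Or.inr (Or.inl ⟨rfl, a3, a2, sy (c1.1 a1)⟩))
      (Or.inr (Or.inr ⟨rfl, b1, b3⟩))).2.2.2.2 rfl
    have g2 := (kx (k := 0) (l := 2) (Or.inl ⟨rfl, a3, a1⟩)
      (Or.inr (Or.inr ⟨rfl, b1, b2⟩))).2.2.2.1 rfl
    apply n15 A A0
    rw [← g2, g1.1, g1.2] at f1
    linear_combination -f1
  · obtain ⟨c1, c2⟩ := hrat (by decide)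
    have g1 := (ky (k := 0) (l := 1) (Or.inl ⟨rfl, a3, a1⟩)
      (Or.inr (Or.inl ⟨rfl, b3, b2, sy (c2.1 b1)⟩))).2.2.1 rfl
    have g2 := (kx (k := 1) (l := 0) (Or.inr (Or.inl ⟨rfl, a3, a2, sy (c1.2 a1)⟩))
      (Or.inl ⟨rfl, b3, b1⟩)).2.2.1 rfl
    apply n15 B B0
    have g3 : (B : ZMod p) = D := by
      have h3 : (3 : ZMod p) * (B - D) = 0 := by linear_combination g2.2 - g1.2
      exact sub_eq_zero.1 ((mul_eq_zero.1 h3).resolve_left n3)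
    rw [← g3, g1.1, g1.2] at f1
    linear_combination -f1
  · exact (ky (k := 0) (l := 0) (Or.inl ⟨rfl, a3, a1⟩) (Or.inl ⟨rfl, b3, b1⟩)).1 rfl
  · obtain ⟨c1, c2⟩ := hrat (by decide)
    have g1 := (kx (k := 1) (l := 2) (Or.inr (Or.inl ⟨rfl, a3, a2, sy (c1.2 a1)⟩))
      (Or.inr (Or.inr ⟨rfl, b1, b2⟩))).2.2.2.2 rfl
    have g2 := (ky (k := 0) (l := 2) (Or.inl ⟨rfl, a3, a1⟩)
      (Or.inr (Or.inr ⟨rfl, b1, b3⟩))).2.2.2.1 rfl
    apply n15 A A0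
    rw [← g2, g1.1, g1.2] at f2
    linear_combination -f2
  · obtain ⟨c1, c2⟩ := hrat (by decide)
    have g1 := (ky (k := 2) (l := 1) (Or.inr (Or.inr ⟨rfl, a1, a3⟩))
      (Or.inr (Or.inl ⟨rfl, b3, b2, sy (c2.1 b1)⟩))).2.2.2.2 rfl
    have g2 := (kx (k := 2) (l := 0) (Or.inr (Or.inr ⟨rfl, a1, a2⟩))
      (Or.inl ⟨rfl, b3, b1⟩)).2.2.2.1 rfl
    apply n15 A A0
    rw [← g2, g1.1, g1.2] at f1
    linear_combination -f1
  · obtain ⟨c1, c2⟩ := hrat (by decide)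
    have g1 := (kx (k := 2) (l := 1) (Or.inr (Or.inr ⟨rfl, a1, a2⟩))
      (Or.inr (Or.inl ⟨rfl, b3, b2, sy (c2.2 b1)⟩))).2.2.2.2 rfl
    have g2 := (ky (k := 2) (l := 0) (Or.inr (Or.inr ⟨rfl, a1, a3⟩))
      (Or.inl ⟨rfl, b3, b1⟩)).2.2.2.1 rfl
    apply n15 A A0
    rw [← g2, g1.1, g1.2] at f2
    linear_combination -f2
  · exact (ky (k := 2) (l := 2) (Or.inr (Or.inr ⟨rfl, a1, a3⟩)) (Or.inr (Or.inr ⟨rfl, b1, b3⟩))).2.1 rfl

end

end Pool.Agent.Zk73.FQ
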