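import Pool.Agent.Zk73.FQ.Geh

/-!
# Auxiliary primes: the main theorem
-/

set_option autoImplicit false
set_option linter.all false

namespace Pool.Agent.Zk73.FQ

open Pool.Agent.Y546.WQ NumberField IsDedekindDomain Polynomial

section

variable {K : Type} [Field K] [NumberField K]

theorem One.pow {P : Ideal (𝓞 K)} (hP : P.IsPrime) {X Y Z : 𝓞 K} {i k : ℕ} (hk : 0 < k)
    (h : One P X Y Z i) : One P (X ^ k) (Y ^ k) (Z ^ k) i := by
  have h1 : ∀ w : 𝓞 K, w ∈ P → w ^ k ∈ P := fun w hw => Ideal.pow_mem_of_mem _ hw _ hk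
  have h2 : ∀ w : 𝓞 K, w ∉ P → w ^ k ∉ P := fun w hw h => hw (hP.mem_of_pow_mem k h)
  rcases h with ⟨rfl, a1, a2, a3⟩ | ⟨rfl, a1, a2, a3⟩ | ⟨rfl, a1, a2, a3⟩
  · exact Or.inl ⟨rfl, h1 _ a1, h2 _ a2, h2 _ a3⟩
  · exact Or.inr (Or.inl ⟨rfl, h1 _ a1, h2 _ a2, h2 _ a3⟩)
  · exact Or.inr (Or.inr ⟨rfl, h1 _ a1, h2 _ a2, h2 _ a3⟩)

theorem One.neg {P : Ideal (𝓞 K)} {X Y Z : 𝓞 K} {i : ℕ}
    (h : One P X Y Z i) : One P X Y (-Z) i := by
  rcases h with ⟨rfl, a1, a2, a3⟩ | ⟨rfl, a1, a2, a3⟩ | ⟨rfl, a1, a2, a3⟩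
  · exact Or.inl ⟨rfl, a1, a2, fun h => a3 (neg_mem_iff.1 h)⟩
  · exact Or.inr (Or.inl ⟨rfl, a1, a2, fun h => a3 (neg_mem_iff.1 h)⟩)
  · exact Or.inr (Or.inr ⟨rfl, neg_mem_iff.2 a1, a2, a3⟩)

/-- one of the three variables is divisible by `P` -/
theorem exists_one {P : Ideal (𝓞 K)} (hP : P.IsPrime) {X Y Z : 𝓞 K} {n : ℕ} (hn : 0 < n)
    (h : X ^ n + Y ^ n = Z ^ n) (hcop : ¬ (X ∈ P ∧ Y ∈ P ∧ Z ∈ P))
    (hno : ∀ a b c : 𝓞 K ⧸ P, a ^ n + b ^ n = c ^ n → a * b * c = 0) :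
    ∃ i, i < 3 ∧ One P X Y Z i := by
  haveI := hP
  have h1 := hno (Ideal.Quotient.mk P X) (Ideal.Quotient.mk P Y) (Ideal.Quotient.mk P Z) (by
    rw [← map_pow, ← map_pow, ← map_pow, ← map_add, h])
  have h2 : X ∈ P ∨ Y ∈ P ∨ Z ∈ P := by
    rw [← map_mul, ← map_mul, Ideal.Quotient.eq_zero_iff_mem] at h1
    rcases hP.mem_or_mem h1 with h2 | h2
    · rcases hP.mem_or_mem h2 with h3 | h3
      · exact Or.inl h3
      · exact Or.inr (Or.inl h3)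
    · exact Or.inr (Or.inr h2)
  have pw : ∀ w : 𝓞 K, w ∈ P → w ^ n ∈ P := fun w hw => Ideal.pow_mem_of_mem _ hw _ hn
  have s1 : X ∈ P → Y ∈ P → Z ∈ P := by
    intro hx hy
    apply hP.mem_of_pow_mem n
    rw [← h]
    exact P.add_mem (pw _ hx) (pw _ hy)
  have s2 : X ∈ P → Z ∈ P → Y ∈ P := by
    intro hx hz
    apply hP.mem_of_pow_mem n
    have : Y ^ n = Z ^ n - X ^ n := by rw [← h]; ring
    rw [this]
    exact P.sub_mem (pw _ hz) (pw _ hx)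
  have s3 : Y ∈ P → Z ∈ P → X ∈ P := by
    intro hy hz
    apply hP.mem_of_pow_mem n
    have : X ^ n = Z ^ n - Y ^ n := by rw [← h]; ring
    rw [this]
    exact P.sub_mem (pw _ hz) (pw _ hy)
  rcases h2 with h2 | h2 | h2
  · exact ⟨0, by norm_num, Or.inl ⟨rfl, h2, fun h' => hcop ⟨h2, h', s1 h2 h'⟩,
      fun h' => hcop ⟨h2, s2 h2 h', h'⟩⟩⟩
  · exact ⟨1, by norm_num, Or.inr (Or.inl ⟨rfl, h2, fun h' => hcop ⟨h', h2, s1 h' h2⟩,
      fun h' => hcop ⟨s3 h2 h', h2, h'⟩⟩)⟩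
  · exact ⟨2, by norm_num, Or.inr (Or.inr ⟨rfl, h2, fun h' => hcop ⟨h', s2 h' h2, h2⟩,
      fun h' => hcop ⟨s3 h' h2, h', h2⟩⟩)⟩

/-- two members of a solution which are not divisible by `P` -/
theorem rat_aux {r : ℕ} (hr : r.Prime) {P : Ideal (𝓞 K)} (hP : P.IsPrime)
    (hrP : ((r : ℕ) : 𝓞 K) ∈ P) (hrep : ∀ w : 𝓞 K, ∃ e : ℤ, w - e ∈ P) {n k : ℕ}
    (hq : ∀ a : ZMod r, a ^ n = 1 → a ^ k = 1) {V W : 𝓞 K} (hW : W ∉ P)
    (h : V ^ n - W ^ n ∈ P ∨ V ^ n + W ^ n ∈ P) : V ^ k - W ^ k ∈ P ∨ V ^ k + W ^ k ∈ P := by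
  have h1 : (V ^ 2) ^ n - (W ^ 2) ^ n ∈ P := by
    have : (V ^ 2) ^ n - (W ^ 2) ^ n = (V ^ n - W ^ n) * (V ^ n + W ^ n) := by ring
    rw [this]
    rcases h with h | h
    · exact P.mul_mem_right _ h
    · exact P.mul_mem_left _ h
  have h2 := ratio hr hP hrP hrep hq (fun h' => hW (hP.mem_of_pow_mem 2 h')) h1
  have h3 : (V ^ 2) ^ k - (W ^ 2) ^ k = (V ^ k - W ^ k) * (V ^ k + W ^ k) := by ring
  rw [h3] at h2
  exact hP.mem_or_mem h2

/-- **the criterion with an auxiliary prime** -/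
theorem gef {p n r : ℕ} (hp : p.Prime) (h7 : 7 ≤ p) (hK : Module.finrank ℚ K = 2) (hn : p ∣ n)
    (hr : r.Prime) (hrp : r ≠ p) (hW : ¬ p ^ 2 ∣ r ^ (p - 1) - 1)
    (hno : ∀ v : HeightOneSpectrum (𝓞 K), ((r : ℕ) : 𝓞 K) ∈ v.asIdeal →
      ∀ a b c : 𝓞 K ⧸ v.asIdeal, a ^ n + b ^ n = c ^ n → a * b * c = 0)
    (hs : (∀ P : Ideal (𝓞 K), P.IsPrime → ((r : ℕ) : 𝓞 K) ∈ P → ∀ u : 𝓞 K,
        ((Algebra.trace ℤ (𝓞 K) u : ℤ) : 𝓞 K) - u ∈ P → u ∈ P) ∨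
      ((∀ a : ZMod r, a ^ n = 1 → a ^ (n / p) = 1) ∧ (Even n ∨ p - 3 ∉ irr p ∨
        ¬ ∃ s : ZMod p, s ≠ 0 ∧ s ^ 2 = -15 * (NumberField.discr K : ZMod p))))
    {x y z : K} (hx : x ≠ 0) (hy : y ≠ 0) (hz : z ≠ 0) (h : x ^ n + y ^ n = z ^ n)
    (hv : ∀ v : HeightOneSpectrum (𝓞 K), ((p : ℕ) : 𝓞 K) ∈ v.asIdeal →
      v.valuation K x = v.valuation K y ∧ v.valuation K y = v.valuation K z) : False := by
  haveI hfact : Fact p.Prime := ⟨hp⟩
  have hp2 : p ≠ 2 := by omega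
  have hodd : Odd p := hp.odd_of_ne_two hp2
  obtain ⟨k, rfl⟩ := hn
  have hk : 0 < k := by
    rcases Nat.eq_zero_or_pos k with rfl | h'
    · exfalso
      rw [mul_zero, pow_zero, pow_zero, pow_zero] at h
      exact one_ne_zero (add_eq_left.1 h)
    · exact h'
  have hn0 : 0 < p * k := Nat.mul_pos hp.pos hk
  have hdiv : p * k / p = k := Nat.mul_div_cancel_left _ hp.pos
  rw [hdiv] at hs
  obtain ⟨σ, hN, hT⟩ := Pool.Agent.Y546.SG.exists_conj hK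
  have hσσ := conj_conj σ hT
  obtain ⟨E, _, _, ⟨c⟩⟩ := Y978.WQ.main p hp2
  have hdat : ∀ X Y Z : 𝓞 K, Sol p K X Y Z → DatR p (NumberField.discr K) (Algebra.norm ℤ X)
      (Algebra.norm ℤ Y) (Algebra.norm ℤ Z) (Algebra.trace ℤ (𝓞 K) (X * σ Y)) :=
    fun X Y Z s => datR (by omega) hK σ hN hT c s
  obtain ⟨a, X, Y, Z, ha, hXa, hYa, hZa, hX0, hY0, hZ0, hcp, hcop⟩ := prepG hp (2 * r * p)
    (mul_ne_zero (mul_ne_zero two_ne_zero hr.ne_zero) hp.ne_zero) (dvd_mul_left p (2 * r)) hx hy hz hv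
  have heq : X ^ (p * k) + Y ^ (p * k) = Z ^ (p * k) := by
    apply RingOfIntegers.coe_injective
    rw [map_add, map_pow, map_pow, map_pow, hXa, hYa, hZa, mul_pow, mul_pow, mul_pow]
    linear_combination a ^ (p * k) * h
  have hcopr : ∀ Q : Ideal (𝓞 K), Q.IsPrime → ((r : ℕ) : 𝓞 K) ∈ Q → ¬ (X ∈ Q ∧ Y ∈ Q ∧ Z ∈ Q) := by
    intro Q hQ hrQ
    apply hcop Q hQ
    push_cast
    exact Q.mul_mem_right _ (Q.mul_mem_left _ hrQ)
  have hcop2 : ∀ Q : Ideal (𝓞 K), Q.IsPrime → (2 : 𝓞 K) ∈ Q → ¬ (X ∈ Q ∧ Y ∈ Q ∧ Z ∈ Q) := by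
    intro Q hQ hrQ
    apply hcop Q hQ
    push_cast
    exact Q.mul_mem_right _ (Q.mul_mem_right _ hrQ)
  obtain ⟨P, hP, hrP⟩ := exists_above (K := K) r hr
  have hrP' : ((r : ℕ) : 𝓞 K) ∈ P.comap σ := by
    rw [Ideal.mem_comap, map_natCast]
    exact hrP
  have hbot : ∀ Q : Ideal (𝓞 K), ((r : ℕ) : 𝓞 K) ∈ Q → Q ≠ ⊥ := by
    rintro Q hQ rfl
    rw [Ideal.mem_bot] at hQ
    exact hr.ne_zero (by exact_mod_cast hQ)
  have hone : ∀ Q : Ideal (𝓞 K), Q.IsPrime → ((r : ℕ) : 𝓞 K) ∈ Q → ∃ i, i < 3 ∧ One Q X Y Z i :=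
    fun Q hQ hrQ => exists_one hQ hn0 heq (hcopr Q hQ hrQ)
      (hno ⟨Q, hQ, hbot Q hrQ⟩ hrQ)
  obtain ⟨i, hi3, hi⟩ := hone P hP hrP
  obtain ⟨j, hj3, hj'⟩ := hone (P.comap σ) (hP.comap σ) hrP'
  have hj : One P (σ X) (σ Y) (σ Z) j := hj'
  -- the triple of `k`-th powers
  have s : Sol p K (X ^ k) (Y ^ k) (-Z ^ k) := by
    refine ⟨pow_ne_zero _ hX0, pow_ne_zero _ hY0, neg_ne_zero.2 (pow_ne_zero _ hZ0), ?_, ?_⟩
    · rw [hodd.neg_pow, ← pow_mul, ← pow_mul, ← pow_mul, mul_comm k p]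
      linear_combination heq
    · intro Q hQ hpQ
      obtain ⟨c1, c2, c3⟩ := hcp Q hQ hpQ
      exact ⟨fun h' => c1 (hQ.mem_of_pow_mem k h'), fun h' => c2 (hQ.mem_of_pow_mem k h'),
        fun h' => c3 (hQ.mem_of_pow_mem k (neg_mem_iff.1 h'))⟩
  have ik : One P (X ^ k) (Y ^ k) (-Z ^ k) i := (hi.pow hP hk).neg
  have jk : One P (σ (X ^ k)) (σ (Y ^ k)) (σ (-Z ^ k)) j := by
    rw [map_neg, map_pow, map_pow, map_pow]
    exact (hj.pow hP hk).neg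
  by_cases hij : i = j
  · -- the same variable
    exact (odd_cases σ hN hT _ hdat hr hrp hW hP hrP h7 s ik jk fun h' => absurd hij h').1 hij
  · -- two different variables; the two primes are different
    obtain ⟨u, hu, hu'⟩ : ∃ u : 𝓞 K, σ u ∈ P ∧ u ∉ P := by
      rcases hi with ⟨rfl, a1, a2, a3⟩ | ⟨rfl, a1, a2, a3⟩ | ⟨rfl, a1, a2, a3⟩ <;>
        rcases hj with ⟨rfl, b1, b2, b3⟩ | ⟨rfl, b1, b2, b3⟩ | ⟨rfl, b1, b2, b3⟩
      · exact absurd rfl hij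
      · exact ⟨Y, b1, a2⟩
      · exact ⟨Z, b1, a3⟩
      · exact ⟨X, b1, a2⟩
      · exact absurd rfl hij
      · exact ⟨Z, b1, a3⟩
      · exact ⟨X, b1, a2⟩
      · exact ⟨Y, b1, a3⟩
      · exact absurd rfl hij
    rcases hs with hs | ⟨hq, hs⟩
    · apply hu'
      apply hs P hP hrP u
      rw [hT, add_sub_cancel_left]
      exact hu
    have hrep := exists_int σ hT hr hP hrP hu hu'
    -- the equation modulo `P`
    have hz1 : ∀ {V : 𝓞 K}, V ∈ P → V ^ (p * k) ∈ P := fun hV => Ideal.pow_mem_of_mem _ hV _ hn0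
    have key : ∀ X Y Z : 𝓞 K, X ^ (p * k) + Y ^ (p * k) = Z ^ (p * k) →
        (X ∈ P → Y ^ (p * k) - Z ^ (p * k) ∈ P) ∧ (Y ∈ P → X ^ (p * k) - Z ^ (p * k) ∈ P) ∧
          (Z ∈ P → X ^ (p * k) + Y ^ (p * k) ∈ P) := by
      intro X Y Z hXYZ
      refine ⟨fun h' => ?_, fun h' => ?_, fun h' => ?_⟩
      · have : Y ^ (p * k) - Z ^ (p * k) = -X ^ (p * k) := by rw [← hXYZ]; ring
        rw [this]
        exact P.neg_mem (hz1 h')
      · have : X ^ (p * k) - Z ^ (p * k) = -Y ^ (p * k) := by rw [← hXYZ]; ring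
        rw [this]
        exact P.neg_mem (hz1 h')
      · rw [hXYZ]
        exact hz1 h'
    have heqσ : (σ X) ^ (p * k) + (σ Y) ^ (p * k) = (σ Z) ^ (p * k) := by
      rw [← map_pow, ← map_pow, ← map_pow, ← map_add, heq]
    by_cases hev : Even (p * k)
    · -- even exponent
      obtain ⟨l, rfl⟩ : ∃ l, k = 2 * l := by
        rcases Nat.even_mul.1 hev with h' | h'
        · exact absurd h' (Nat.not_even_iff_odd.2 hodd)
        · obtain ⟨l, hl⟩ := h'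
          exact ⟨l, by omega⟩
      have hl : 0 < l := by omega
      have sE : SolE p K (X ^ l) (Y ^ l) (Z ^ l) := by
        refine ⟨pow_ne_zero _ hX0, pow_ne_zero _ hY0, pow_ne_zero _ hZ0, ?_, ?_, ?_⟩
        · rw [← pow_mul, ← pow_mul, ← pow_mul]
          have : l * (2 * p) = p * (2 * l) := by ring
          rw [this]
          exact heq
        · intro Q hQ hpQ
          obtain ⟨c1, c2, c3⟩ := hcp Q hQ hpQ
          exact ⟨fun h' => c1 (hQ.mem_of_pow_mem l h'), fun h' => c2 (hQ.mem_of_pow_mem l h'),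
            fun h' => c3 (hQ.mem_of_pow_mem l h')⟩
        · intro Q hQ h2Q ⟨c1, c2, c3⟩
          exact hcop2 Q hQ h2Q ⟨hQ.mem_of_pow_mem l c1, hQ.mem_of_pow_mem l c2,
            hQ.mem_of_pow_mem l c3⟩
      have r2 : ∀ X Y Z : 𝓞 K, X ^ (p * (2 * l)) + Y ^ (p * (2 * l)) = Z ^ (p * (2 * l)) →
          ¬ (Y ∈ P ∧ Z ∈ P) → ¬ (X ∈ P ∧ Z ∈ P) → Rat2 P (X ^ l) (Y ^ l) (Z ^ l) := by
        intro X Y Z hXYZ n1 n2
        obtain ⟨k1, k2, k3⟩ := key X Y Z hXYZ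
        have e : ∀ V W : 𝓞 K, V ^ (p * (2 * l)) - W ^ (p * (2 * l)) ∈ P → ¬ (V ∈ P ∧ W ∈ P) →
            V ^ l - W ^ l ∈ P ∨ V ^ l + W ^ l ∈ P := by
          intro V W h1 h2
          have hW' : W ∉ P := by
            intro h3
            apply h2
            refine ⟨hP.mem_of_pow_mem (p * (2 * l)) ?_, h3⟩
            have : V ^ (p * (2 * l)) = (V ^ (p * (2 * l)) - W ^ (p * (2 * l))) +
              W ^ (p * (2 * l)) := by ring
            rw [this]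
            exact P.add_mem h1 (hz1 h3)
          have h3 := ratio hr hP hrP hrep hq hW' h1
          have h4 : V ^ (2 * l) - W ^ (2 * l) = (V ^ l - W ^ l) * (V ^ l + W ^ l) := by ring
          rw [h4] at h3
          exact hP.mem_or_mem h3
        refine ⟨fun h1 => e Y Z (k1 (hP.mem_of_pow_mem l h1)) n1,
          fun h1 => e X Z (k2 (hP.mem_of_pow_mem l h1)) n2⟩
      refine even_cases h7 hK σ hN hT hr hrp hW hP hrP sE (i := i) (j := j) (hi.pow hP hl) ?_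
        fun _ => ⟨?_, ?_⟩
      · rw [map_pow, map_pow, map_pow]
        exact hj.pow hP hl
      · apply r2 X Y Z heq
        · rintro ⟨h1, h2⟩
          rcases hi with ⟨-, a1, a2, a3⟩ | ⟨-, a1, a2, a3⟩ | ⟨-, a1, a2, a3⟩
          · exact a2 h1
          · exact a3 h2
          · exact a3 h1
        · rintro ⟨h1, h2⟩
          rcases hi with ⟨-, a1, a2, a3⟩ | ⟨-, a1, a2, a3⟩ | ⟨-, a1, a2, a3⟩
          · exact a3 h2
          · exact a2 h1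
          · exact a2 h1
      · rw [map_pow, map_pow, map_pow]
        apply r2 (σ X) (σ Y) (σ Z) heqσ
        · rintro ⟨h1, h2⟩
          rcases hj with ⟨-, a1, a2, a3⟩ | ⟨-, a1, a2, a3⟩ | ⟨-, a1, a2, a3⟩
          · exact a2 h1
          · exact a3 h2
          · exact a3 h1
        · rintro ⟨h1, h2⟩
          rcases hj with ⟨-, a1, a2, a3⟩ | ⟨-, a1, a2, a3⟩ | ⟨-, a1, a2, a3⟩
          · exact a3 h2
          · exact a2 h1
          · exact a2 h1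
    · -- odd exponent
      have r1 : ∀ X Y Z : 𝓞 K, X ^ (p * k) + Y ^ (p * k) = Z ^ (p * k) → (∃ i, One P X Y Z i) →
          Rat' P (X ^ k) (Y ^ k) (-Z ^ k) := by
        rintro X Y Z hXYZ ⟨i, hi⟩
        obtain ⟨k1, k2, k3⟩ := key X Y Z hXYZ
        have sw : ∀ V W : 𝓞 K, (V - W ∈ P ∨ V + W ∈ P) → (V - -W ∈ P ∨ V + -W ∈ P) := by
          intro V W h'
          rw [sub_neg_eq_add, ← sub_eq_add_neg]
          exact h'.symm
        have e := fun (V W : 𝓞 K) (hW' : W ∉ P) h' =>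
          rat_aux (V := V) (W := W) hr hP hrP hrep hq hW' h'
        refine ⟨fun h1 => ?_, fun h1 => ?_, fun h1 => ?_⟩
        · have h2 := hP.mem_of_pow_mem k h1
          apply sw
          apply e Y Z _ (Or.inl (k1 h2))
          rcases hi with ⟨-, a1, a2, a3⟩ | ⟨-, a1, a2, a3⟩ | ⟨-, a1, a2, a3⟩
          · exact a3
          · exact absurd h2 a2
          · exact absurd h2 a2
        · have h2 := hP.mem_of_pow_mem k h1
          apply sw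
          apply e X Z _ (Or.inl (k2 h2))
          rcases hi with ⟨-, a1, a2, a3⟩ | ⟨-, a1, a2, a3⟩ | ⟨-, a1, a2, a3⟩
          · exact a3
          · exact a3
          · exact absurd h2 a3
        · have h2 := hP.mem_of_pow_mem k (neg_mem_iff.1 h1)
          apply e X Y _ (Or.inr (k3 h2))
          rcases hi with ⟨-, a1, a2, a3⟩ | ⟨-, a1, a2, a3⟩ | ⟨-, a1, a2, a3⟩
          · exact a2
          · exact absurd h2 a3
          · exact a3
      obtain ⟨-, h1, h2⟩ := odd_cases σ hN hT _ hdat hr hrp hW hP hrP h7 s ik jk fun _ =>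
        ⟨r1 X Y Z heq ⟨i, hi⟩, by
          rw [map_neg, map_pow, map_pow, map_pow]
          exact r1 (σ X) (σ Y) (σ Z) heqσ ⟨j, hj⟩⟩
      rcases hs with hs | hs | hs
      · exact hev hs
      · exact h2 (reg_of Y61.WQ.mainBER 3 (by decide) le_rfl (by omega) hs)
      · exact hs h1

end

end Pool.Agent.Zk73.FQ
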