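import Pool.Agent.Zk73.FQ.Gei

/-!
# Auxiliary primes: explicit cases
-/

set_option autoImplicit false
set_option linter.all false

namespace Pool.Agent.Zk73.FQ

open Pool.Agent.Y546.WQ NumberField IsDedekindDomain Polynomial

section

variable {K : Type} [Field K] [NumberField K]

/-- the residue field has at most `r ^ 2` elements -/
theorem pow_sq (σ : 𝓞 K →+* 𝓞 K)
    (hN : ∀ a : 𝓞 K, ((Algebra.norm ℤ a : ℤ) : 𝓞 K) = a * σ a)
    (hT : ∀ a : 𝓞 K, ((Algebra.trace ℤ (𝓞 K) a : ℤ) : 𝓞 K) = a + σ a)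
    {r : ℕ} (hr : r.Prime) {P : Ideal (𝓞 K)} (hP : P.IsPrime) (hrP : ((r : ℕ) : 𝓞 K) ∈ P)
    (a : 𝓞 K ⧸ P) : a ^ (r ^ 2) = a := by
  haveI := hP
  haveI : Fact r.Prime := ⟨hr⟩
  haveI : CharP (𝓞 K ⧸ P) r := charP_quot P hP r hr hrP
  haveI : IsDomain (𝓞 K ⧸ P) := Ideal.Quotient.isDomain P
  obtain ⟨w, rfl⟩ := Ideal.Quotient.mk_surjective a
  set q := Ideal.Quotient.mk P with hq
  have hint : ∀ n : ℤ, (n : 𝓞 K ⧸ P) ^ r = n := by
    intro n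
    have h1 : (n : ZMod r) ^ r = n := ZMod.pow_card _
    have h2 := congrArg (ZMod.castHom (dvd_refl r) (𝓞 K ⧸ P)) h1
    rw [map_pow, map_intCast] at h2
    exact h2
  obtain ⟨t, ht⟩ : ∃ t : ℤ, t = Algebra.trace ℤ (𝓞 K) w := ⟨_, rfl⟩
  obtain ⟨N, hN'⟩ : ∃ N : ℤ, N = Algebra.norm ℤ w := ⟨_, rfl⟩
  have h1 : w ^ 2 = (t : 𝓞 K) * w - (N : 𝓞 K) := by
    rw [ht, hN', hT, hN]
    ring
  have h2 : q w ^ 2 = (t : 𝓞 K ⧸ P) * q w - N := by
    rw [← map_pow, h1, map_sub, map_mul, map_intCast, map_intCast]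
  have h3 : (q w ^ r) ^ 2 = (t : 𝓞 K ⧸ P) * q w ^ r - N := by
    rw [← pow_mul, mul_comm r 2, pow_mul, h2, sub_pow_char, mul_pow, hint, hint]
  have h4 : (q w ^ r - q w) * (q w ^ r - (t - q w)) = 0 := by
    linear_combination h3 - h2
  rw [sq, pow_mul]
  rcases mul_eq_zero.1 h4 with h5 | h5
  · have h6 := sub_eq_zero.1 h5
    rw [h6, h6]
  · have h6 := sub_eq_zero.1 h5
    rw [h6, sub_pow_char, hint, h6]
    ring

/-- a nonzero element of the residue field has order dividing `r ^ 2 - 1` -/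
theorem pow_sq_one (σ : 𝓞 K →+* 𝓞 K)
    (hN : ∀ a : 𝓞 K, ((Algebra.norm ℤ a : ℤ) : 𝓞 K) = a * σ a)
    (hT : ∀ a : 𝓞 K, ((Algebra.trace ℤ (𝓞 K) a : ℤ) : 𝓞 K) = a + σ a)
    {r : ℕ} (hr : r.Prime) {P : Ideal (𝓞 K)} (hP : P.IsPrime) (hrP : ((r : ℕ) : 𝓞 K) ∈ P)
    (a : 𝓞 K ⧸ P) (ha : a ≠ 0) {n : ℕ} (hn : (r ^ 2 - 1) ∣ n) : a ^ n = 1 := by
  haveI := hP
  haveI : IsDomain (𝓞 K ⧸ P) := Ideal.Quotient.isDomain P
  obtain ⟨m, rfl⟩ := hn
  have h1 := pow_sq σ hN hT hr hP hrP a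
  have h2 : 1 ≤ r ^ 2 := Nat.one_le_pow _ _ hr.pos
  have h3 : a ^ (r ^ 2 - 1) = 1 := by
    have h4 : a * (a ^ (r ^ 2 - 1) - 1) = 0 := by
      rw [mul_sub, ← pow_succ', Nat.sub_add_cancel h2, h1]
      ring
    exact sub_eq_zero.1 ((mul_eq_zero.1 h4).resolve_left ha)
  rw [pow_mul, h3, one_pow]

/-- if every element is an integer modulo `P`, the order divides `r - 1` -/
theorem pow_one_of_rep {r : ℕ} (hr : r.Prime) {P : Ideal (𝓞 K)} (hP : P.IsPrime)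
    (hrP : ((r : ℕ) : 𝓞 K) ∈ P) (hrep : ∀ w : 𝓞 K, ∃ e : ℤ, w - e ∈ P)
    (a : 𝓞 K ⧸ P) (ha : a ≠ 0) {n : ℕ} (hn : (r - 1) ∣ n) : a ^ n = 1 := by
  haveI := hP
  haveI : Fact r.Prime := ⟨hr⟩
  haveI : CharP (𝓞 K ⧸ P) r := charP_quot P hP r hr hrP
  obtain ⟨w, rfl⟩ := Ideal.Quotient.mk_surjective a
  obtain ⟨e, he⟩ := hrep w
  have h1 : Ideal.Quotient.mk P w = ((e : ℤ) : 𝓞 K ⧸ P) := by
    have := Ideal.Quotient.eq.2 he
    rw [this, map_intCast]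
  rw [h1] at ha ⊢
  obtain ⟨m, rfl⟩ := hn
  have h2 : (e : ZMod r) ≠ 0 := by
    intro h0
    apply ha
    have := congrArg (ZMod.castHom (dvd_refl r) (𝓞 K ⧸ P)) h0
    simpa using this
  have h3 := ZMod.pow_card_sub_one_eq_one h2
  have h4 := congrArg (ZMod.castHom (dvd_refl r) (𝓞 K ⧸ P)) h3
  have h5 : ((e : ℤ) : 𝓞 K ⧸ P) ^ (r - 1) = 1 := by simpa using h4
  rw [pow_mul, h5, one_pow]

/-- no nontrivial solutions if all `n`-th powers are one -/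
theorem no1 {F : Type*} [CommRing F] [IsDomain F] {n : ℕ} (h : ∀ a : F, a ≠ 0 → a ^ n = 1) :
    ∀ a b c : F, a ^ n + b ^ n = c ^ n → a * b * c = 0 := by
  intro a b c habc
  by_contra hcon
  have h1 : a ≠ 0 := fun h0 => hcon (by rw [h0]; ring)
  have h2 : b ≠ 0 := fun h0 => hcon (by rw [h0]; ring)
  have h3 : c ≠ 0 := fun h0 => hcon (by rw [h0]; ring)
  rw [h a h1, h b h2, h c h3] at habc
  exact one_ne_zero (add_eq_left.1 habc)

/-- no nontrivial solutions in characteristic five if all `n`-th powers are `1` or `-1` -/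
theorem no5 {F : Type*} [CommRing F] [IsDomain F] [CharP F 5] {n : ℕ}
    (h : ∀ a : F, a ≠ 0 → (a ^ n) ^ 2 = 1) :
    ∀ a b c : F, a ^ n + b ^ n = c ^ n → a * b * c = 0 := by
  intro a b c habc
  by_contra hcon
  have h1 : a ≠ 0 := fun h0 => hcon (by rw [h0]; ring)
  have h2 : b ≠ 0 := fun h0 => hcon (by rw [h0]; ring)
  have h3 : c ≠ 0 := fun h0 => hcon (by rw [h0]; ring)
  have five : (5 : F) = 0 := by exact_mod_cast CharP.cast_eq_zero F 5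
  have e1 := h a h1
  have e2 := h b h2
  have e3 := h c h3
  rw [← habc] at e3
  have e4 : 2 * (a ^ n * b ^ n) = -1 := by linear_combination e3 - e1 - e2
  have e5 : (4 : F) * ((a ^ n) ^ 2 * (b ^ n) ^ 2) = 1 := by
    linear_combination (2 * (a ^ n * b ^ n) - 1) * e4
  rw [e1, e2] at e5
  have e6 : (1 : F) = 0 := by linear_combination 2 * five - 3 * e5
  exact one_ne_zero e6

/-- no nontrivial solutions in characteristic five if all `n`-th powers are cube roots of unity -/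
theorem no5' {F : Type*} [CommRing F] [IsDomain F] [CharP F 5] {n : ℕ}
    (h : ∀ a : F, a ≠ 0 → (a ^ n) ^ 3 = 1) :
    ∀ a b c : F, a ^ n + b ^ n = c ^ n → a * b * c = 0 := by
  intro a b c habc
  by_contra hcon
  have h1 : a ≠ 0 := fun h0 => hcon (by rw [h0]; ring)
  have h2 : b ≠ 0 := fun h0 => hcon (by rw [h0]; ring)
  have h3 : c ≠ 0 := fun h0 => hcon (by rw [h0]; ring)
  have five : (5 : F) = 0 := by exact_mod_cast CharP.cast_eq_zero F 5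
  have e1 := h a h1
  have e2 := h b h2
  have e3 := h c h3
  rw [← habc] at e3
  generalize a ^ n = u at *
  generalize b ^ n = v at *
  -- `3 u v (u + v) = -1`
  have e4 : 3 * (u * v * (u + v)) = -1 := by linear_combination e3 - e1 - e2
  have e5 : (27 : F) * ((u ^ 3) * (v ^ 3) * (u + v) ^ 3) = -1 := by
    linear_combination ((3 * (u * v * (u + v))) ^ 2 - 3 * (u * v * (u + v)) + 1) * e4
  rw [e1, e2, e3] at e5
  have e6 : (3 : F) = 0 := by linear_combination e5 - 5 * five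
  have e7 : (1 : F) = 0 := by linear_combination 2 * e6 - five
  exact one_ne_zero e7

theorem sq_odd {a : ℤ} (ha : Odd a) : ∃ b : ℤ, a ^ 2 = 8 * b + 1 := by
  obtain ⟨c, rfl⟩ := ha
  obtain ⟨b, hb⟩ := Int.even_mul_succ_self c
  exact ⟨b, by linear_combination 4 * hb⟩

/-- two is inert or ramified: one prime above two -/
theorem one_two (hK : Module.finrank ℚ K = 2) (σ : 𝓞 K →+* 𝓞 K)
    (hN : ∀ a : 𝓞 K, ((Algebra.norm ℤ a : ℤ) : 𝓞 K) = a * σ a)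
    (hT : ∀ a : 𝓞 K, ((Algebra.trace ℤ (𝓞 K) a : ℤ) : 𝓞 K) = a + σ a)
    (hd : NumberField.discr K % 8 ≠ 1) {P : Ideal (𝓞 K)} (hP : P.IsPrime)
    (h2 : ((2 : ℕ) : 𝓞 K) ∈ P) (w : 𝓞 K)
    (hw : ((Algebra.trace ℤ (𝓞 K) w : ℤ) : 𝓞 K) - w ∈ P) : w ∈ P := by
  obtain ⟨m, hm⟩ := disc_eq hK σ hN hT w
  have hev : ∀ n : ℤ, Even n → (n : 𝓞 K) ∈ P := by
    rintro n ⟨k, rfl⟩
    push_cast
    have : (k : 𝓞 K) + k = k * ((2 : ℕ) : 𝓞 K) := by push_cast; ring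
    rw [this]
    exact P.mul_mem_left _ h2
  obtain ⟨t, ht⟩ : ∃ t : ℤ, t = Algebra.trace ℤ (𝓞 K) w := ⟨_, rfl⟩
  obtain ⟨N, hN'⟩ : ∃ N : ℤ, N = Algebra.norm ℤ w := ⟨_, rfl⟩
  rw [← ht] at hw
  rw [← ht, ← hN'] at hm
  have h1 : w ^ 2 = (t : 𝓞 K) * w - (N : 𝓞 K) := by
    rw [ht, hN', hT, hN]
    ring
  have hNP : (N : 𝓞 K) ∈ P := by
    have : (N : 𝓞 K) = w * ((t : 𝓞 K) - w) := by linear_combination h1
    rw [this]
    exact P.mul_mem_left _ hw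
  have hN2 : Even N := by
    by_contra hcon
    apply int_notMem P hP 2 Nat.prime_two h2 N _ hNP
    rw [Int.not_even_iff_odd, Int.odd_iff] at hcon
    intro h
    push_cast at h
    omega
  rcases Int.even_or_odd t with ht2 | ht2
  · apply hP.mem_of_pow_mem 2
    rw [h1]
    exact P.sub_mem (P.mul_mem_right _ (hev t ht2)) hNP
  · exfalso
    have hmo : Odd m ∧ Odd (NumberField.discr K) := by
      have h3 : Odd (m ^ 2 * NumberField.discr K) := by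
        rw [← hm]
        exact (ht2.pow).sub_even (by
          have : (4 : ℤ) * N = 2 * (2 * N) := by ring
          rw [this]
          exact even_two_mul _)
      rw [Int.odd_mul] at h3
      refine ⟨?_, h3.2⟩
      have := h3.1
      rwa [Int.odd_pow' (by norm_num)] at this
    obtain ⟨a, ha⟩ := sq_odd ht2
    obtain ⟨b, hb⟩ := sq_odd hmo.1
    obtain ⟨e, he⟩ := hN2
    rw [ha, hb, he] at hm
    apply hd
    generalize NumberField.discr K = d at *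
    have e1 : d = 1 + 8 * (a - b * d - e) := by linear_combination -hm
    omega

/-- integers modulo `P`, `r` odd and `d` a square modulo `r` -/
theorem rep_odd (hK : Module.finrank ℚ K = 2) (σ : 𝓞 K →+* 𝓞 K)
    (hN : ∀ a : 𝓞 K, ((Algebra.norm ℤ a : ℤ) : 𝓞 K) = a * σ a)
    (hT : ∀ a : 𝓞 K, ((Algebra.trace ℤ (𝓞 K) a : ℤ) : 𝓞 K) = a + σ a)
    {r : ℕ} (hr : r.Prime) (hr2 : Odd r) (hd : ∃ s : ℤ, (r : ℤ) ∣ NumberField.discr K - s ^ 2)
    {P : Ideal (𝓞 K)} (hP : P.IsPrime)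
    (hrP : ((r : ℕ) : 𝓞 K) ∈ P) (w : 𝓞 K) : ∃ e : ℤ, w - e ∈ P := by
  obtain ⟨m, hm⟩ := disc_eq hK σ hN hT w
  obtain ⟨s, u, hu⟩ := hd
  obtain ⟨c, hc⟩ := hr2
  set T : 𝓞 K := ((Algebra.trace ℤ (𝓞 K) w : ℤ) : 𝓞 K) with hTdef
  have h1 : (2 * w - T) ^ 2 = ((m ^ 2 * NumberField.discr K : ℤ) : 𝓞 K) := by
    rw [← hm, hTdef]
    push_cast
    rw [hT, hN]
    ring
  have key : ∀ v : ℤ, 2 * w - T - (v : 𝓞 K) ∈ P → ∃ e : ℤ, w - e ∈ P := by
    intro v hv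
    refine ⟨(-c) * (Algebra.trace ℤ (𝓞 K) w + v), ?_⟩
    have hc' : ((r : ℕ) : 𝓞 K) = 2 * (c : 𝓞 K) + 1 := by rw [hc]; push_cast; ring
    have e : w - (((-c : ℤ) * (Algebra.trace ℤ (𝓞 K) w + v) : ℤ) : 𝓞 K) =
        (-(c : 𝓞 K)) * (2 * w - T - (v : 𝓞 K)) + w * ((r : ℕ) : 𝓞 K) := by
      rw [hTdef, hc']
      push_cast
      ring
    rw [e]
    exact P.add_mem (P.mul_mem_left _ hv) (P.mul_mem_left _ hrP)
  have h2 : (2 * w - T - ((m * s : ℤ) : 𝓞 K)) * (2 * w - T - ((-(m * s) : ℤ) : 𝓞 K)) ∈ P := by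
    have e : (2 * w - T - ((m * s : ℤ) : 𝓞 K)) * (2 * w - T - ((-(m * s) : ℤ) : 𝓞 K)) =
        (2 * w - T) ^ 2 - (m : 𝓞 K) ^ 2 * (s : 𝓞 K) ^ 2 := by
      push_cast
      ring
    rw [e, h1]
    have e2 : ((m ^ 2 * NumberField.discr K : ℤ) : 𝓞 K) - (m : 𝓞 K) ^ 2 * (s : 𝓞 K) ^ 2 =
        ((m : 𝓞 K) ^ 2 * u) * ((r : ℕ) : 𝓞 K) := by
      have e3 : m ^ 2 * NumberField.discr K = m ^ 2 * s ^ 2 + m ^ 2 * (r * u) := by
        rw [← hu]
        ring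
      rw [e3]
      push_cast
      ring
    rw [e2]
    exact P.mul_mem_left _ hrP
  rcases hP.mem_or_mem h2 with h4 | h4
  · exact key _ h4
  · exact key _ h4

/-- roots of unity modulo `r` -/
theorem hq_of {p r : ℕ} (hp : p.Prime) (hr : r.Prime) (h : ¬ p ∣ r - 1) (k : ℕ) (hk : 0 < k)
    (a : ZMod r) (ha : a ^ (p * k) = 1) : a ^ k = 1 := by
  haveI : Fact r.Prime := ⟨hr⟩
  have ha0 : a ≠ 0 := by
    rintro rfl
    rw [zero_pow (Nat.mul_pos hp.pos hk).ne'] at ha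
    exact zero_ne_one ha
  have h1 : (a ^ k) ^ p = 1 := by rw [← pow_mul, mul_comm k p, ha]
  have h2 : (a ^ k) ^ (r - 1) = 1 := by
    rw [← pow_mul, mul_comm, pow_mul, ZMod.pow_card_sub_one_eq_one ha0, one_pow]
  have h3 := orderOf_dvd_of_pow_eq_one h1
  have h4 := orderOf_dvd_of_pow_eq_one h2
  rcases (Nat.dvd_prime hp).1 h3 with h5 | h5
  · exact orderOf_eq_one_iff.1 h5
  · rw [h5] at h4
    exact absurd h4 h

/-- integers modulo `P`, `r = 2` -/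
theorem rep_two (hK : Module.finrank ℚ K = 2) (σ : 𝓞 K →+* 𝓞 K)
    (hN : ∀ a : 𝓞 K, ((Algebra.norm ℤ a : ℤ) : 𝓞 K) = a * σ a)
    (hT : ∀ a : 𝓞 K, ((Algebra.trace ℤ (𝓞 K) a : ℤ) : 𝓞 K) = a + σ a)
    (hd : NumberField.discr K % 8 ≠ 5) {P : Ideal (𝓞 K)} (hP : P.IsPrime)
    (h2 : (2 : 𝓞 K) ∈ P) (w : 𝓞 K) : ∃ e : ℤ, w - e ∈ P := by
  obtain ⟨m, hm⟩ := disc_eq hK σ hN hT w
  have hev : ∀ n : ℤ, Even n → (n : 𝓞 K) ∈ P := by
    rintro n ⟨k, rfl⟩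
    push_cast
    have : (k : 𝓞 K) + k = k * 2 := by ring
    rw [this]
    exact P.mul_mem_left _ h2
  obtain ⟨t, ht⟩ : ∃ t : ℤ, t = Algebra.trace ℤ (𝓞 K) w := ⟨_, rfl⟩
  obtain ⟨N, hN'⟩ : ∃ N : ℤ, N = Algebra.norm ℤ w := ⟨_, rfl⟩
  rw [← ht, ← hN'] at hm
  have h1 : w ^ 2 = (t : 𝓞 K) * w - (N : 𝓞 K) := by
    rw [ht, hN', hT, hN]
    ring
  rcases Int.even_or_odd t with ht2 | ht2
  · refine ⟨N, ?_⟩
    apply hP.mem_of_pow_mem 2
    have e : (w - (N : 𝓞 K)) ^ 2 = (t : 𝓞 K) * w - ((N * (1 + N) : ℤ) : 𝓞 K) +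
        2 * (((N : ℤ) : 𝓞 K) * ((N : ℤ) : 𝓞 K) - w * N) := by
      push_cast
      linear_combination h1
    rw [e]
    refine P.add_mem (P.sub_mem (P.mul_mem_right _ (hev t ht2)) (hev _ ?_)) (P.mul_mem_right _ h2)
    have := Int.even_mul_succ_self N
    rwa [add_comm N 1] at this
  · -- the trace is odd
    have hmo : Odd m ∧ Odd (NumberField.discr K) := by
      have h3 : Odd (m ^ 2 * NumberField.discr K) := by
        rw [← hm]
        exact (ht2.pow).sub_even (by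
          have : (4 : ℤ) * N = 2 * (2 * N) := by ring
          rw [this]
          exact even_two_mul _)
      rw [Int.odd_mul] at h3
      refine ⟨?_, h3.2⟩
      have := h3.1
      rwa [Int.odd_pow' (by norm_num)] at this
    have hN2 : Even N := by
      obtain ⟨a, ha⟩ := sq_odd ht2
      obtain ⟨b, hb⟩ := sq_odd hmo.1
      rw [ha, hb] at hm
      generalize NumberField.discr K = d at *
      have e1 : d = 1 - 4 * N + 8 * (a - b * d) := by linear_combination -hm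
      rw [Int.even_iff]
      omega
    have h3 : w * (w - (t : 𝓞 K)) ∈ P := by
      have : w * (w - (t : 𝓞 K)) = -(N : 𝓞 K) := by linear_combination h1
      rw [this]
      exact P.neg_mem (hev N hN2)
    rcases hP.mem_or_mem h3 with h4 | h4
    · exact ⟨0, by simpa using h4⟩
    · exact ⟨t, h4⟩

end

end Pool.Agent.Zk73.FQ
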