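import Pool.Agent.Zk73.FQ.Gej

/-!
# Auxiliary primes: explicit cases, end
-/

set_option autoImplicit false
set_option linter.all false

namespace Pool.Agent.Zk73.FQ

open Pool.Agent.Y546.WQ NumberField IsDedekindDomain Polynomial

section

variable {K : Type} [Field K] [NumberField K]

/-- the explicit cases -/
theorem expl {p n r : ℕ} (hp : p.Prime) (h7 : 7 ≤ p) (hK : Module.finrank ℚ K = 2)
    (hW : ¬ p ^ 2 ∣ r ^ (p - 1) - 1)
    (hc : (r = 2 ∧ (6 * p ∣ n ∨ (3 * p ∣ n ∧ NumberField.discr K % 8 ≠ 1) ∨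
        (2 * p ∣ n ∧ NumberField.discr K % 8 ≠ 5))) ∨
      (r = 3 ∧ (8 * p ∣ n ∨ (2 * p ∣ n ∧ NumberField.discr K % 3 ≠ 2))) ∨
      (r = 5 ∧ (8 * p ∣ n ∨ 12 * p ∣ n ∨ (2 * p ∣ n ∧ NumberField.discr K % 5 ≠ 2 ∧
        NumberField.discr K % 5 ≠ 3))))
    {x y z : K} (hx : x ≠ 0) (hy : y ≠ 0) (hz : z ≠ 0) (h : x ^ n + y ^ n = z ^ n)
    (hv : ∀ v : HeightOneSpectrum (𝓞 K), ((p : ℕ) : 𝓞 K) ∈ v.asIdeal →
      v.valuation K x = v.valuation K y ∧ v.valuation K y = v.valuation K z) : False := by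
  obtain ⟨σ, hN, hT⟩ := Pool.Agent.Y546.SG.exists_conj hK
  have hn0 : n ≠ 0 := by
    rintro rfl
    rw [pow_zero, pow_zero, pow_zero] at h
    exact one_ne_zero (add_eq_left.1 h)
  have dom : ∀ v : HeightOneSpectrum (𝓞 K), IsDomain (𝓞 K ⧸ v.asIdeal) := fun v => by
    haveI := v.isPrime
    exact Ideal.Quotient.isDomain v.asIdeal
  have hd : ∀ {c : ℕ}, c * p ∣ n → p ∣ n ∧ c ∣ n := fun hc =>
    ⟨(dvd_mul_left p _).trans hc, (dvd_mul_right _ p).trans hc⟩
  have hqq : ∀ {r : ℕ}, r.Prime → r ≤ 5 → p ∣ n → ∀ a : ZMod r, a ^ n = 1 → a ^ (n / p) = 1 := by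
    intro r hr hr5 hpn a ha
    obtain ⟨k, rfl⟩ := hpn
    rw [Nat.mul_div_cancel_left _ hp.pos]
    have h2 := hr.two_le
    apply hq_of hp hr (fun h' => ?_) k (Nat.pos_of_ne_zero fun h0 => hn0 (by rw [h0, mul_zero])) a ha
    have := Nat.le_of_dvd (by omega) h'
    omega
  have fin := fun {r : ℕ} (hr : r.Prime) (hr5 : r ≤ 5) (hW : ¬ p ^ 2 ∣ r ^ (p - 1) - 1) (hpn : p ∣ n)
    hno hs => gef (n := n) hp h7 hK hpn hr (by omega) hW hno hs hx hy hz h hv
  rcases hc with ⟨rfl, hc⟩ | ⟨rfl, hc⟩ | ⟨rfl, hc⟩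
  · rcases hc with hc | ⟨hc, hd8⟩ | ⟨hc, hd8⟩
    · refine fin Nat.prime_two (by norm_num) hW (hd hc).1 (fun v hv' => ?_)
        (Or.inr ⟨hqq Nat.prime_two (by norm_num) (hd hc).1, Or.inl ?_⟩)
      · haveI := dom v
        apply no1
        intro a ha
        exact pow_sq_one σ hN hT Nat.prime_two v.isPrime hv' a ha
          ((by norm_num : 2 ^ 2 - 1 ∣ 6).trans (hd hc).2)
      · exact even_iff_two_dvd.2 ((by norm_num : 2 ∣ 6).trans (hd hc).2)
    · refine fin Nat.prime_two (by norm_num) hW (hd hc).1 (fun v hv' => ?_)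
        (Or.inl fun P hP h2P u hu => one_two hK σ hN hT hd8 hP h2P u hu)
      haveI := dom v
      apply no1
      intro a ha
      exact pow_sq_one σ hN hT Nat.prime_two v.isPrime hv' a ha
        ((by norm_num : 2 ^ 2 - 1 ∣ 3).trans (hd hc).2)
    · refine fin Nat.prime_two (by norm_num) hW (hd hc).1 (fun v hv' => ?_)
        (Or.inr ⟨hqq Nat.prime_two (by norm_num) (hd hc).1, Or.inl ?_⟩)
      · haveI := dom v
        apply no1
        intro a ha
        exact pow_one_of_rep Nat.prime_two v.isPrime hv'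
          (rep_two hK σ hN hT hd8 v.isPrime (by exact_mod_cast hv')) a ha
          ((by norm_num : 2 - 1 ∣ 2).trans (hd hc).2)
      · exact even_iff_two_dvd.2 (hd hc).2
  · rcases hc with hc | ⟨hc, hd3⟩
    · refine fin Nat.prime_three (by norm_num) hW (hd hc).1 (fun v hv' => ?_)
        (Or.inr ⟨hqq Nat.prime_three (by norm_num) (hd hc).1, Or.inl ?_⟩)
      · haveI := dom v
        apply no1
        intro a ha
        exact pow_sq_one σ hN hT Nat.prime_three v.isPrime hv' a ha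
          ((by norm_num : 3 ^ 2 - 1 ∣ 8).trans (hd hc).2)
      · exact even_iff_two_dvd.2 ((by norm_num : 2 ∣ 8).trans (hd hc).2)
    · refine fin Nat.prime_three (by norm_num) hW (hd hc).1 (fun v hv' => ?_)
        (Or.inr ⟨hqq Nat.prime_three (by norm_num) (hd hc).1, Or.inl ?_⟩)
      · haveI := dom v
        apply no1
        intro a ha
        refine pow_one_of_rep Nat.prime_three v.isPrime hv'
          (rep_odd hK σ hN hT Nat.prime_three (by decide) ?_ v.isPrime hv') a ha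
          ((by norm_num : 3 - 1 ∣ 2).trans (hd hc).2)
        have h3 : NumberField.discr K % 3 = 0 ∨ NumberField.discr K % 3 = 1 := by omega
        rcases h3 with h3 | h3
        · exact ⟨0, by push_cast; omega⟩
        · exact ⟨1, by push_cast; omega⟩
      · exact even_iff_two_dvd.2 (hd hc).2
  · have h5 : Nat.Prime 5 := by norm_num
    rcases hc with hc | hc | ⟨hc, hd5⟩
    · refine fin h5 (by norm_num) hW (hd hc).1 (fun v hv' => ?_)
        (Or.inr ⟨hqq h5 (by norm_num) (hd hc).1, Or.inl ?_⟩)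
      · haveI := dom v
        haveI : CharP (𝓞 K ⧸ v.asIdeal) 5 := charP_quot _ v.isPrime 5 h5 hv'
        apply no5'
        intro a ha
        rw [← pow_mul]
        refine pow_sq_one σ hN hT h5 v.isPrime hv' a ha ?_
        obtain ⟨m, hm⟩ := (hd hc).2
        exact ⟨m, by rw [hm]; norm_num; ring⟩
      · exact even_iff_two_dvd.2 ((by norm_num : 2 ∣ 8).trans (hd hc).2)
    · refine fin h5 (by norm_num) hW (hd hc).1 (fun v hv' => ?_)
        (Or.inr ⟨hqq h5 (by norm_num) (hd hc).1, Or.inl ?_⟩)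
      · haveI := dom v
        haveI : CharP (𝓞 K ⧸ v.asIdeal) 5 := charP_quot _ v.isPrime 5 h5 hv'
        apply no5
        intro a ha
        rw [← pow_mul]
        refine pow_sq_one σ hN hT h5 v.isPrime hv' a ha ?_
        obtain ⟨m, hm⟩ := (hd hc).2
        exact ⟨m, by rw [hm]; norm_num; ring⟩
      · exact even_iff_two_dvd.2 ((by norm_num : 2 ∣ 12).trans (hd hc).2)
    · refine fin h5 (by norm_num) hW (hd hc).1 (fun v hv' => ?_)
        (Or.inr ⟨hqq h5 (by norm_num) (hd hc).1, Or.inl ?_⟩)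
      · haveI := dom v
        haveI : CharP (𝓞 K ⧸ v.asIdeal) 5 := charP_quot _ v.isPrime 5 h5 hv'
        apply no5
        intro a ha
        rw [← pow_mul]
        refine pow_one_of_rep h5 v.isPrime hv'
          (rep_odd hK σ hN hT h5 (by decide) ?_ v.isPrime hv') a ha ?_
        · have h3 : NumberField.discr K % 5 = 0 ∨ NumberField.discr K % 5 = 1 ∨
            NumberField.discr K % 5 = 4 := by omega
          rcases h3 with h3 | h3 | h3
          · exact ⟨0, by push_cast; omega⟩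
          · exact ⟨1, by push_cast; omega⟩
          · exact ⟨2, by push_cast; omega⟩
        · obtain ⟨m, hm⟩ := (hd hc).2
          exact ⟨m, by rw [hm]; norm_num; ring⟩
      · exact even_iff_two_dvd.2 (hd hc).2

end

end Pool.Agent.Zk73.FQ
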