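import Pool.Agent.Y546.WQ.Stm3

/-!
# The relations of Stickelberger modulo a prime above any prime number `r`

The case `r = 2` is in `Pool.Agent.Y261.WQ.TWOG`.
-/

set_option autoImplicit false
set_option linter.all false

namespace Pool.Agent.Zk73.FQ

open Pool.Agent.Y546.WQ NumberField IsDedekindDomain Polynomial

/-- the value of the polynomial and its reflection in characteristic `r` -/
theorem refl_val {F : Type} [Field F] (r : ℕ) [CharP F r] (f : Polynomial ℤ) (m u v : ℕ) (e : ℤ)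
    (hf : f.natDegree ≤ m)
    (h : X ^ v * f.map (Int.castRingHom (ZMod r)) =
      C (e : ZMod r) * X ^ u * (f.reflect m).map (Int.castRingHom (ZMod r))) (y : F) (hy : y ≠ 0) :
    y ^ v * f.eval₂ (Int.castRingHom F) y =
      (e : F) * (y ^ (u + m) * f.eval₂ (Int.castRingHom F) y⁻¹) := by
  let ι : ZMod r →+* F := ZMod.castHom (dvd_refl r) F
  have h1 : ∀ q : Polynomial ℤ, (q.map (Int.castRingHom (ZMod r))).eval₂ ι y =
      q.eval₂ (Int.castRingHom F) y := by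
    intro q
    rw [Polynomial.eval₂_map]
    congr 1
    exact RingHom.ext_int _ _
  have h3 := congrArg (Polynomial.eval₂ ι y) h
  rw [Polynomial.eval₂_mul, Polynomial.eval₂_mul, Polynomial.eval₂_mul, Polynomial.eval₂_X_pow,
    Polynomial.eval₂_X_pow, Polynomial.eval₂_C, map_intCast, h1, h1] at h3
  rw [h3]
  letI : Invertible y⁻¹ := invertibleOfNonzero (inv_ne_zero hy)
  have h4 := Polynomial.eval₂_reflect_mul_pow (Int.castRingHom F) y⁻¹ m f hf
  rw [invOf_eq_inv, inv_inv] at h4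
  rw [← h4, pow_add, inv_pow]
  have h5 : y ^ m ≠ 0 := pow_ne_zero _ hy
  field_simp

/-- the relation in a quotient field of characteristic `r` -/
theorem rel_F {p : ℕ} [Fact p.Prime] {E : Type} [Field E] [NumberField E] (c : Cyc p E) (a : ℕ)
    (r : ℕ) (hr : r.Prime)
    (f : Polynomial ℤ) (n : ℤ) (hn : ¬ (r : ℤ) ∣ n)
    (hP : ∀ P : Ideal (𝓞 E), P.IsPrime → ((r : ℕ) : 𝓞 E) ∈ P →
      ∀ w : 𝓞 E, (w : E) = aeval c.z f → w ∉ P)
    (g : E) (i : ℕ) (hrel : tha c a (aeval c.z f / (n : E)) = c.z ^ i * g ^ p)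
    (zO : 𝓞 E) (hz : (zO : E) = c.z) {F : Type} [Field F] (h2 : ((r : ℕ) : F) = 0)
    (ψ : 𝓞 E →+* F) :
    ∃ d : F, d ≠ 0 ∧ ∏ t ∈ hf p a, f.eval₂ (Int.castRingHom F)
      (ψ zO ^ ((t⁻¹ : (ZMod p)ˣ) : ZMod p).val) =
        ((n : ℤ) : F) ^ (hf p a).card * (ψ zO ^ i * d ^ p) := by
  have hpp : p.Prime := Fact.out
  have hp0 : p ≠ 0 := hpp.ne_zero
  have hzp : zO ^ p = 1 := by
    apply RingOfIntegers.coe_injective
    show (algebraMap (𝓞 E) E) _ = (algebraMap (𝓞 E) E) _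
    have e2 : (algebraMap (𝓞 E) E) zO = c.z := hz
    rw [map_pow, map_one, e2, c.prim.pow_eq_one]
  have hw0 : ψ zO ≠ 0 := by
    intro h
    have h1 := congrArg ψ hzp
    rw [map_pow, h, zero_pow hp0, map_one] at h1
    exact zero_ne_one h1
  have hrE : ((r : ℕ) : 𝓞 E) ≠ 0 := by
    exact_mod_cast hr.ne_zero
  have h2k : ((r : ℕ) : 𝓞 E) ∈ RingHom.ker ψ := by
    rw [RingHom.mem_ker, map_natCast]
    exact h2
  have hkb : RingHom.ker ψ ≠ ⊥ := by
    intro h
    rw [h, Ideal.mem_bot] at h2k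
    exact hrE h2k
  haveI hchar : CharP F r := (CharP.charP_iff_prime_eq_zero hr).2 h2
  let v : HeightOneSpectrum (𝓞 E) := ⟨RingHom.ker ψ, RingHom.ker_isPrime ψ, hkb⟩
  have hab : ∃ al be : 𝓞 E, ¬ (ψ al = 0 ∧ ψ be = 0) ∧ g * (be : E) = (al : E) := by
    obtain ⟨x, d, h | h⟩ := v.exists_primeCompl_mul_eq_or_mul_eq g
    · refine ⟨x, d, fun hh => ?_, h⟩
      exact d.2 hh.2
    · refine ⟨d, x, fun hh => ?_, h⟩
      exact d.2 hh.1
  obtain ⟨al, be, h0, hgab⟩ := hab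
  have hn0 : (n : E) ≠ 0 := by
    intro h
    have h1 : n = 0 := by exact_mod_cast h
    exact hn (h1 ▸ dvd_zero _)
  have hae : ∀ k : ℕ, algebraMap (𝓞 E) E (aeval (zO ^ k) f) = aeval (c.z ^ k) f := by
    intro k
    rw [← Polynomial.aeval_algebraMap_apply, map_pow]
    rw [show algebraMap (𝓞 E) E zO = c.z from hz]
  have hsig : ∀ t : (ZMod p)ˣ, c.σ t (aeval c.z f) = aeval (c.z ^ (t : ZMod p).val) f := by
    intro t
    have e1 := Polynomial.map_aeval_eq_aeval_map (φ := Int.castRingHom ℤ)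
      (ψ := ((c.σ t : E ≃ₐ[ℚ] E) : E →+* E)) (RingHom.ext_int _ _) f c.z
    rw [show (Int.castRingHom ℤ) = RingHom.id ℤ from rfl, Polynomial.map_id] at e1
    rw [← c.σ_z t]
    exact e1
  have hR : (∏ t ∈ hf p a, aeval (zO ^ ((t⁻¹ : (ZMod p)ˣ) : ZMod p).val) f) * be ^ p =
      (n : 𝓞 E) ^ (hf p a).card * (zO ^ i * al ^ p) := by
    apply RingOfIntegers.coe_injective
    have e1 : tha c a (aeval c.z f / (n : E)) =
        (∏ t ∈ hf p a, aeval (c.z ^ ((t⁻¹ : (ZMod p)ˣ) : ZMod p).val) f) /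
          (n : E) ^ (hf p a).card := by
      unfold tha
      rw [← Finset.prod_const, ← Finset.prod_div_distrib]
      refine Finset.prod_congr rfl fun t _ => ?_
      rw [map_div₀, map_intCast, hsig]
    rw [e1, div_eq_iff (pow_ne_zero _ hn0)] at hrel
    show (algebraMap (𝓞 E) E) _ = (algebraMap (𝓞 E) E) _
    have e2 : (algebraMap (𝓞 E) E) zO = c.z := hz
    simp only [map_mul, map_pow, map_prod, map_intCast, e2, hae]
    rw [hrel]
    have e3 : (algebraMap (𝓞 E) E) al = g * (algebraMap (𝓞 E) E) be := hgab.symm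
    rw [e3, mul_pow]
    ring
  have hRF := congrArg ψ hR
  have hnF : ((n : ℤ) : F) ≠ 0 := by
    intro h
    exact hn ((CharP.intCast_eq_zero_iff F r n).1 h)
  have hψ : ∀ x : 𝓞 E, ψ (aeval x f) = f.eval₂ (Int.castRingHom F) (ψ x) := by
    intro x
    rw [Polynomial.aeval_def, Polynomial.hom_eval₂]
    congr 1
    exact RingHom.ext_int _ _
  simp only [map_mul, map_pow, map_prod, map_intCast, hψ] at hRF
  -- the product is not zero
  have hne : ∏ t ∈ hf p a, f.eval₂ (Int.castRingHom F)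
      (ψ zO ^ ((t⁻¹ : (ZMod p)ˣ) : ZMod p).val) ≠ 0 := by
    refine Finset.prod_ne_zero_iff.2 fun t _ hh => ?_
    have e1 : rs c t⁻¹ (aeval zO f) = aeval (zO ^ ((t⁻¹ : (ZMod p)ˣ) : ZMod p).val) f := by
      apply RingOfIntegers.coe_injective
      have e2 : ((rs c t⁻¹ (aeval zO f) : 𝓞 E) : E) = c.σ t⁻¹ ((aeval zO f : 𝓞 E) : E) := rfl
      refine e2.trans ?_
      have e3 := hae 1
      rw [pow_one, pow_one] at e3
      have e4 : ((aeval zO f : 𝓞 E) : E) = aeval c.z f := e3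
      rw [e4, hsig]
      exact (hae _).symm
    have e5 : ψ (rs c t⁻¹ (aeval zO f)) = 0 := by
      rw [e1, hψ, map_pow]
      exact hh
    refine hP (RingHom.ker (ψ.comp (rs c t⁻¹ : 𝓞 E →+* 𝓞 E))) (RingHom.ker_isPrime _) ?_
      (aeval zO f) ?_ ?_
    · rw [RingHom.mem_ker, map_natCast]
      exact h2
    · have e3 := hae 1
      rw [pow_one, pow_one] at e3
      exact e3
    · rw [RingHom.mem_ker]
      exact e5
  have hbe : ψ be ≠ 0 := by
    intro h
    rw [h, zero_pow hp0, mul_zero] at hRF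
    have h1 : ψ al ^ p = 0 :=
      (mul_eq_zero.1 ((mul_eq_zero.1 hRF.symm).resolve_left (pow_ne_zero _ hnF))).resolve_left
        (pow_ne_zero _ hw0)
    exact h0 ⟨pow_eq_zero_iff hp0 |>.1 h1, h⟩
  have hal : ψ al ≠ 0 := by
    intro h
    rw [h, zero_pow hp0, mul_zero, mul_zero] at hRF
    have h1 : ψ be ^ p = 0 := (mul_eq_zero.1 hRF).resolve_left hne
    exact h0 ⟨h, pow_eq_zero_iff hp0 |>.1 h1⟩
  refine ⟨ψ al / ψ be, div_ne_zero hal hbe, ?_⟩
  rw [div_pow, ← mul_div_assoc, ← mul_div_assoc, eq_div_iff (pow_ne_zero _ hbe)]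
  exact hRF

/-- the sum of the representatives of the inverses of the elements of `hf p a` -/
def SSa (p : ℕ) [Fact p.Prime] (a : ℕ) : ℕ := ∑ t ∈ hf p a, ((t⁻¹ : (ZMod p)ˣ) : ZMod p).val

theorem SSa_cast (p : ℕ) [Fact p.Prime] (a : ℕ) : ((SSa p a : ℕ) : ZMod p) = hsa p a 1 := by
  unfold SSa hsa
  rw [Nat.cast_sum]
  refine Finset.sum_congr rfl fun t _ => ?_
  rw [ZMod.natCast_val, ZMod.cast_id', id, pow_one]

/-- a field of characteristic `r` generated by a root of unity of order `p` -/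
theorem frob_id {p : ℕ} [Fact p.Prime] {E : Type} [Field E] [NumberField E] (c : Cyc p E)
    (r : ℕ) (hr : r.Prime) (hrp : r ≠ p) (zO : 𝓞 E) (hzO : (zO : E) = c.z)
    {F : Type} [Field F] [CharP F r] (φ : 𝓞 E →+* F) (hφ : Function.Surjective φ) (x : F) :
    x ^ r ^ (p - 1) = x := by
  have hpp : p.Prime := Fact.out
  haveI : Fact r.Prime := ⟨hr⟩
  obtain ⟨y, rfl⟩ := hφ x
  obtain ⟨f, hf⟩ := c.gen (y : E) y.2
  have hzp : zO ^ p = 1 := by
    apply RingOfIntegers.coe_injective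
    show (algebraMap (𝓞 E) E) _ = (algebraMap (𝓞 E) E) _
    have e2 : (algebraMap (𝓞 E) E) zO = c.z := hzO
    rw [map_pow, map_one, e2, c.prim.pow_eq_one]
  have hw : (φ zO) ^ p = 1 := by rw [← map_pow, hzp, map_one]
  have h1 : y = Polynomial.aeval zO f := by
    apply RingOfIntegers.coe_injective
    have := Polynomial.aeval_algebraMap_apply E zO f
    rw [show algebraMap (𝓞 E) E zO = c.z from hzO] at this
    exact hf.trans this
  have h3 : ∀ ψ : 𝓞 E →+* F, ψ (Polynomial.aeval zO f) =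
      Polynomial.eval₂ (Int.castRingHom _) (ψ zO) f := by
    intro ψ
    rw [Polynomial.aeval_def, Polynomial.hom_eval₂]
    congr 1
    exact RingHom.ext_int _ _
  have h4 := h3 φ
  have h5 := h3 ((iterateFrobenius F r (p - 1)).comp φ)
  rw [RingHom.comp_apply, RingHom.comp_apply, iterateFrobenius_def, iterateFrobenius_def] at h5
  have h6 : (φ zO) ^ r ^ (p - 1) = φ zO := by
    have e1 : r ^ (p - 1) % p = 1 := by
      have e2 : ((r ^ (p - 1) : ℕ) : ZMod p) = ((1 : ℕ) : ZMod p) := by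
        push_cast
        refine ZMod.pow_card_sub_one_eq_one ?_
        rw [Ne, ZMod.natCast_eq_zero_iff]
        intro hd
        exact hrp ((Nat.prime_dvd_prime_iff_eq hpp hr).1 hd).symm
      rw [ZMod.natCast_eq_natCast_iff] at e2
      have e3 : r ^ (p - 1) % p = 1 % p := e2
      rw [e3, Nat.mod_eq_of_lt hpp.one_lt]
    rw [pow_eq_pow_mod _ hw, e1, pow_one]
  rw [h6, ← h4] at h5
  rw [h1]
  exact h5

/-- the relation modulo a prime above `r` -/
theorem rel_r {p : ℕ} [Fact p.Prime] (hp2 : p ≠ 2) (r : ℕ) (hr : r.Prime) (hrp : r ≠ p)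
    {E : Type} [Field E] [NumberField E] (c : Cyc p E) (a : ℕ)
    (f : Polynomial ℤ) (n : ℤ) (hn : ¬ (r : ℤ) ∣ n) (m u v : ℕ) (e : ℤ) (he : e = 1 ∨ e = -1)
    (hfm : f.natDegree ≤ m)
    (huv : X ^ v * f.map (Int.castRingHom (ZMod r)) =
      C (e : ZMod r) * X ^ u * (f.reflect m).map (Int.castRingHom (ZMod r)))
    (hP : ∀ P : Ideal (𝓞 E), P.IsPrime → ((r : ℕ) : 𝓞 E) ∈ P →
      ∀ w : 𝓞 E, (w : E) = aeval c.z f → w ∉ P)
    (g : E) (i : ℕ) (hrel : tha c a (aeval c.z f / (n : E)) = c.z ^ i * g ^ p) :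
    2 * (i : ZMod p) = ((m : ZMod p) + u - v) * hsa p a 1 ∨ p ^ 2 ∣ r ^ (p - 1) - 1 := by
  have hpp : p.Prime := Fact.out
  have hp1 := hpp.one_lt
  haveI : Fact r.Prime := ⟨hr⟩
  obtain ⟨M, hMl, hrM⟩ : ∃ M : Ideal (𝓞 E), M.IsMaximal ∧ ((r : ℕ) : 𝓞 E) ∈ M := by
    have h1 : (Ideal.span {(r : ℤ)}).IsMaximal :=
      PrincipalIdealRing.isMaximal_of_irreducible (Nat.prime_iff_prime_int.1 hr).irreducible
    obtain ⟨M, hM, hMl⟩ := Ideal.exists_maximal_ideal_liesOver_of_isIntegral (S := 𝓞 E)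
      (Ideal.span {(r : ℤ)})
    refine ⟨M, hM, ?_⟩
    have h2 : (r : ℤ) ∈ M.under ℤ := by
      rw [← hMl.over]
      exact Ideal.mem_span_singleton_self _
    rw [Ideal.under_def, Ideal.mem_comap] at h2
    simpa using h2
  let _ : Field (𝓞 E ⧸ M) := Ideal.Quotient.field M
  let φ : 𝓞 E →+* (𝓞 E ⧸ M) := Ideal.Quotient.mk M
  have hφ : Function.Surjective φ := Ideal.Quotient.mk_surjective
  have h2F : ((r : ℕ) : 𝓞 E ⧸ M) = 0 := by
    have : φ (r : 𝓞 E) = 0 := Ideal.Quotient.eq_zero_iff_mem.2 hrM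
    rwa [map_natCast] at this
  haveI hchar : CharP (𝓞 E ⧸ M) r := (CharP.charP_iff_prime_eq_zero hr).2 h2F
  -- the root of unity as an integer
  let zO : 𝓞 E := ⟨c.z, c.prim.isIntegral hpp.pos⟩
  have hzO : (zO : E) = c.z := rfl
  have hzprim : IsPrimitiveRoot zO p :=
    IsPrimitiveRoot.of_map_of_injective (f := algebraMap (𝓞 E) E) c.prim
      (RingOfIntegers.coe_injective)
  set w : 𝓞 E ⧸ M := φ zO with hwdef
  have hw : w ^ p = 1 := by rw [hwdef, ← map_pow, hzprim.pow_eq_one, map_one]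
  have hw0 : w ≠ 0 := by
    intro h
    rw [h, zero_pow hpp.ne_zero] at hw
    exact zero_ne_one hw
  have hpF : ((p : ℕ) : 𝓞 E ⧸ M) ≠ 0 := by
    intro h
    have h1 := (CharP.cast_eq_zero_iff (𝓞 E ⧸ M) r p).1 h
    exact hrp ((Nat.prime_dvd_prime_iff_eq hr hpp).1 h1)
  have hw1 : w ≠ 1 := by
    intro h
    have h1 := hzprim.geom_sum_eq_zero hpp.one_lt
    have h3 := congrArg φ h1
    rw [map_sum, map_zero] at h3
    have h4 : ∀ j ∈ Finset.range p, φ (zO ^ j) = 1 := by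
      intro j _
      rw [map_pow, ← hwdef, h, one_pow]
    rw [Finset.sum_congr rfl h4, Finset.sum_const, Finset.card_range, nsmul_one] at h3
    exact hpF h3
  have hwprim : orderOf w = p := orderOf_eq_prime hw hw1
  have hF : ∀ x : 𝓞 E ⧸ M, x ^ r ^ (p - 1) = x := frob_id c r hr hrp zO hzO φ hφ
  -- the two relations
  obtain ⟨d1, hd1, hr1⟩ := rel_F c a r hr f n hn hP g i hrel zO hzO h2F φ
  obtain ⟨d2, hd2, hr2⟩ := rel_F c a r hr f n hn hP g i hrel zO hzO h2F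
    (φ.comp (rs c (-1) : 𝓞 E →+* 𝓞 E))
  have hw' : (φ.comp (rs c (-1) : 𝓞 E →+* 𝓞 E)) zO = w⁻¹ := by
    have e1 : rs c (-1) zO = zO ^ ((-1 : (ZMod p)ˣ) : ZMod p).val := by
      apply RingOfIntegers.coe_injective
      have e2 : ((rs c (-1) zO : 𝓞 E) : E) = c.σ (-1) ((zO : 𝓞 E) : E) := rfl
      refine e2.trans ?_
      rw [hzO, c.σ_z]
      rfl
    have e3 : (φ.comp (rs c (-1) : 𝓞 E →+* 𝓞 E)) zO = φ (rs c (-1) zO) := rfl
    rw [e3, e1, map_pow, Units.val_neg, Units.val_one]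
    apply eq_inv_of_mul_eq_one_left
    rw [← hwdef, ← pow_succ]
    have e4 : (-1 : ZMod p).val + 1 = p := by
      rw [ZMod.neg_val, if_neg one_ne_zero]
      haveI : Fact (1 < p) := ⟨hp1⟩
      rw [ZMod.val_one]
      omega
    rw [e4, hw]
  rw [hw'] at hr2
  rw [← hwdef] at hr1
  set S := SSa p a with hS
  have hSw : ∀ k : ℕ, ∏ t ∈ hf p a, (w ^ ((t⁻¹ : (ZMod p)ˣ) : ZMod p).val) ^ k = (w ^ S) ^ k := by
    intro k
    rw [Finset.prod_pow, Finset.prod_pow_eq_pow_sum]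
    rfl
  have hnF : ((n : ℤ) : 𝓞 E ⧸ M) ≠ 0 := by
    intro h
    exact hn ((CharP.intCast_eq_zero_iff (𝓞 E ⧸ M) r n).1 h)
  set ν : 𝓞 E ⧸ M := ((n : ℤ) : 𝓞 E ⧸ M) ^ (hf p a).card with hν
  have hν0 : ν ≠ 0 := pow_ne_zero _ hnF
  have hprod : (w ^ S) ^ v * (ν * (w ^ i * d1 ^ p)) =
      ((e : 𝓞 E ⧸ M) ^ (hf p a).card) * ((w ^ S) ^ (u + m) * (ν * ((w⁻¹) ^ i * d2 ^ p))) := by
    rw [← hr1, ← hr2, ← hSw, ← hSw, ← Finset.prod_const, ← Finset.prod_mul_distrib,
      ← Finset.prod_mul_distrib, ← Finset.prod_mul_distrib]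
    refine Finset.prod_congr rfl fun t _ => ?_
    have := refl_val r f m u v e hfm huv (w ^ ((t⁻¹ : (ZMod p)ˣ) : ZMod p).val)
      (pow_ne_zero _ hw0)
    rw [inv_pow]
    exact this
  set V : 𝓞 E ⧸ M := d1 / d2 with hV
  have hV0 : V ≠ 0 := div_ne_zero hd1 hd2
  have he2 : ((e : 𝓞 E ⧸ M) ^ (hf p a).card) ^ 2 = 1 := by
    rw [← pow_mul, mul_comm, pow_mul]
    rcases he with rfl | rfl <;> simp
  have hkey : w ^ (S * v + 2 * i) * V ^ p =
      ((e : 𝓞 E ⧸ M) ^ (hf p a).card) * w ^ (S * (u + m)) := by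
    have e2 : w ^ i ≠ 0 := pow_ne_zero _ hw0
    have e3 : d2 ^ p ≠ 0 := pow_ne_zero _ hd2
    rw [hV, div_pow, pow_add, pow_mul, pow_mul w S, mul_comm 2 i, pow_mul w i 2, pow_two (w ^ i)]
    rw [inv_pow] at hprod
    field_simp at hprod ⊢
    linear_combination hprod
  obtain ⟨N, hN⟩ : p ∣ r ^ (p - 1) - 1 := by
    have e2 : ((r ^ (p - 1) : ℕ) : ZMod p) = ((1 : ℕ) : ZMod p) := by
      push_cast
      refine ZMod.pow_card_sub_one_eq_one ?_
      rw [Ne, ZMod.natCast_eq_zero_iff]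
      intro hd
      exact hrp ((Nat.prime_dvd_prime_iff_eq hpp hr).1 hd).symm
    rw [ZMod.natCast_eq_natCast_iff] at e2
    exact (Nat.modEq_iff_dvd' (Nat.one_le_pow _ _ hr.pos)).1 e2.symm
  have hVN : V ^ (p * N) = 1 := by
    rw [← hN]
    apply mul_right_cancel₀ hV0
    rw [← pow_succ, Nat.sub_add_cancel (Nat.one_le_pow _ _ hr.pos), one_mul]
    exact hF V
  have hsq : w ^ ((S * v + 2 * i) * (2 * N)) = w ^ ((S * (u + m)) * (2 * N)) := by
    have h1 := congrArg (fun x => x ^ (2 * N)) hkey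
    simp only [mul_pow] at h1
    rw [← pow_mul, ← pow_mul V, show p * (2 * N) = p * N * 2 by ring, pow_mul V, hVN,
      one_pow, mul_one, pow_mul _ 2 N, he2, one_pow, one_mul, ← pow_mul] at h1
    exact h1
  by_cases hpN : p ∣ N
  · right
    obtain ⟨N', rfl⟩ := hpN
    exact ⟨N', by rw [hN]; ring⟩
  · left
    have h1 : (S * v + 2 * i) * (2 * N) ≡ (S * (u + m)) * (2 * N) [MOD p] := by
      have hu : (Units.mk0 w hw0) ^ ((S * v + 2 * i) * (2 * N)) =
          (Units.mk0 w hw0) ^ ((S * (u + m)) * (2 * N)) := by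
        ext
        push_cast
        exact hsq
      have ho : orderOf (Units.mk0 w hw0) = p := by
        rw [← orderOf_units]
        exact hwprim
      have := pow_eq_pow_iff_modEq.1 hu
      rwa [ho] at this
    have h2 := (ZMod.natCast_eq_natCast_iff _ _ p).2 h1
    push_cast at h2
    have h3 : (N : ZMod p) ≠ 0 := by
      rw [Ne, ZMod.natCast_eq_zero_iff]
      exact hpN
    have h4 : (2 : ZMod p) ≠ 0 := by
      have : ((2 : ℕ) : ZMod p) ≠ 0 := by
        rw [Ne, ZMod.natCast_eq_zero_iff]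
        intro hd
        exact hp2 ((Nat.prime_dvd_prime_iff_eq hpp Nat.prime_two).1 hd)
      exact_mod_cast this
    have h5 := mul_right_cancel₀ (mul_ne_zero h4 h3) h2
    rw [SSa_cast] at h5
    linear_combination h5

end Pool.Agent.Zk73.FQ
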