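import Pool.Agent.Y546.WQ.FinQ
import Pool.Agent.Zk73.FQ.Rel

/-!
# The linear relation modulo `p` from a prime `r` with `r ^ (p - 1)` not congruent to one modulo `p ^ 2`
-/

set_option autoImplicit false
set_option linter.all false

namespace Pool.Agent.Zk73.FQ

open Pool.Agent.Y546.WQ NumberField IsDedekindDomain Polynomial

/-- the first two coefficients of the relation modulo `p` at `T = 1` -/
theorem first_order {p : ℕ} [Fact p.Prime] (hp2 : p ≠ 2) (a : ℕ) (f : Polynomial (ZMod p)) (i : ℕ)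
    (r : ZMod p) (h1 : f.eval 1 ≠ 0)
    (h : (X - 1) ^ (p - 1) ∣ thPa p a f - Polynomial.C r * X ^ i) :
    (i : ZMod p) * f.eval 1 = (derivative f).eval 1 * hsa p a 1 := by
  classical
  have hpp : p.Prime := Fact.out
  have hp3 : 3 ≤ p := by
    have := hpp.two_le
    omega
  have h2 : (X - 1 : Polynomial (ZMod p)) ^ 2 ∣ thPa p a f - Polynomial.C r * X ^ i :=
    dvd_trans (pow_dvd_pow _ (by omega)) h
  obtain ⟨q, hq⟩ := h2
  have e1 : (thPa p a f).eval 1 = r := by
    have := congrArg (Polynomial.eval 1) hq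
    simp only [eval_sub, eval_mul, eval_C, eval_pow, eval_X, one_pow, mul_one, eval_one, sub_self,
      ne_eq, OfNat.ofNat_ne_zero, not_false_eq_true, zero_pow, zero_mul] at this
    linear_combination this
  have e2 : (derivative (thPa p a f)).eval 1 = r * i := by
    have := congrArg (fun g => (derivative g).eval 1) hq
    simp only [derivative_sub, derivative_mul, derivative_C, derivative_X_pow, eval_sub, eval_mul,
      eval_add, eval_C, eval_pow, eval_X, one_pow, mul_one, zero_mul, zero_add, derivative_pow,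
      derivative_X, derivative_one, eval_one, sub_self, sub_zero, eval_zero,
      eval_natCast] at this
    simp at this
    linear_combination this
  have e3 : (thPa p a f).eval 1 = (f.eval 1) ^ (hf p a).card := by
    unfold thPa
    rw [eval_prod]
    simp only [eval_comp, eval_pow, eval_X, one_pow, Finset.prod_const]
  have e4 : (derivative (thPa p a f)).eval 1 * f.eval 1 =
      (f.eval 1) ^ (hf p a).card * ((derivative f).eval 1 * hsa p a 1) := by
    unfold thPa
    rw [derivative_prod_finset, eval_finset_sum, Finset.sum_mul]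
    have : ∀ t ∈ hf p a, eval 1 ((∏ s ∈ (hf p a).erase t,
        f.comp (X ^ ((s⁻¹ : (ZMod p)ˣ) : ZMod p).val)) *
        derivative (f.comp (X ^ ((t⁻¹ : (ZMod p)ˣ) : ZMod p).val))) * f.eval 1 =
        (f.eval 1) ^ (hf p a).card * ((derivative f).eval 1 * ((t⁻¹ : (ZMod p)ˣ) : ZMod p)) := by
      intro t ht
      rw [eval_mul, eval_prod]
      simp only [eval_comp, eval_pow, eval_X, one_pow, Finset.prod_const, derivative_comp,
        derivative_X_pow, eval_mul, eval_C, mul_one, eval_natCast]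
      have hc : (hf p a).card = ((hf p a).erase t).card + 1 := by
        rw [Finset.card_erase_of_mem ht]
        have := Finset.card_pos.2 ⟨t, ht⟩
        omega
      rw [hc, pow_succ]
      have hv : ((((t⁻¹ : (ZMod p)ˣ) : ZMod p).val : ℕ) : ZMod p) = ((t⁻¹ : (ZMod p)ˣ) : ZMod p) := by
        rw [ZMod.natCast_val, ZMod.cast_id', id]
      rw [hv]
      ring
    rw [Finset.sum_congr rfl this, ← Finset.mul_sum, ← Finset.mul_sum]
    unfold hsa
    simp only [pow_one]
  rw [e2] at e4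
  rw [← e1, e3] at e4
  have h0 : (f.eval 1) ^ (hf p a).card ≠ 0 := pow_ne_zero _ h1
  apply mul_left_cancel₀ h0
  linear_combination e4

theorem aux_mul (p T : ℕ) (h0 : 0 < T) (h : T < p) : (p - 1) * T = p * (T - 1) + (p - T) := by
  obtain ⟨T', rfl⟩ : ∃ T', T = T' + 1 := ⟨T - 1, by omega⟩
  obtain ⟨d, rfl⟩ := Nat.exists_eq_add_of_lt h
  have e1 : T' + 1 + d + 1 - 1 = T' + 1 + d := by omega
  have e2 : T' + 1 - 1 = T' := by omega
  have e3 : T' + 1 + d + 1 - (T' + 1) = d + 1 := by omega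
  rw [e1, e2, e3]
  ring

/-- some sum of inverses is not zero -/
theorem exists_hsa {p : ℕ} [Fact p.Prime] (hp2 : p ≠ 2) : ∃ a : ℕ, 0 < a ∧ a + 2 ≤ p ∧ hsa p a 1 ≠ 0 := by
  classical
  have hpp : p.Prime := Fact.out
  have hp3 : 3 ≤ p := by
    have := hpp.two_le
    omega
  by_contra hcon
  push Not at hcon
  have h0 : ∀ a ∈ Finset.range (p - 1), hsa p a 1 = 0 := by
    intro a ha
    rw [Finset.mem_range] at ha
    rcases Nat.eq_zero_or_pos a with rfl | h
    · unfold hsa hf
      apply Finset.sum_eq_zero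
      intro t ht
      rw [Finset.mem_filter] at ht
      exfalso
      have h1 := ht.2
      have h2 : (t : ZMod p).val < p := ZMod.val_lt _
      simp at h1
      omega
    · exact hcon a h (by omega)
  have hsum : ∑ a ∈ Finset.range (p - 1), hsa p a 1 = 0 := Finset.sum_eq_zero h0
  -- the number of `a` for a given `t`
  have hcount : ∀ t : (ZMod p)ˣ, (((Finset.range (p - 1)).filter fun a : ℕ =>
      p < (t : ZMod p).val + ((a : ZMod p) * (t : ZMod p)).val).card : ℤ) = (t : ZMod p).val - 1 := by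
    intro t
    set T := (t : ZMod p).val with hT
    have hTp : T < p := ZMod.val_lt _
    have hT0 : 0 < T := by
      rcases Nat.eq_zero_or_pos T with h | h
      · exfalso
        exact t.ne_zero ((ZMod.val_eq_zero _).1 h)
      · exact h
    have hval : ∀ a : ℕ, ((a : ZMod p) * (t : ZMod p)).val = (a * T) % p := by
      intro a
      rw [ZMod.val_mul, ZMod.val_natCast, ← hT, Nat.mod_mul_mod]
    have hstep : ∀ a : ℕ, a < p - 1 → (if p < T + (a * T) % p then (1 : ℤ) else 0) =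
        (((a + 1) * T / p : ℕ) : ℤ) - ((a * T / p : ℕ) : ℤ) := by
      intro a ha
      have hm := Nat.div_add_mod (a * T) p
      have hlt := Nat.mod_lt (a * T) hpp.pos
      have hne : T + (a * T) % p ≠ p := by
        intro h
        have h3 : p ∣ (a + 1) * T := by
          refine ⟨a * T / p + 1, ?_⟩
          calc (a + 1) * T = a * T + T := by ring
            _ = p * (a * T / p) + (a * T) % p + T := by rw [hm]
            _ = p * (a * T / p) + p := by omega
            _ = p * (a * T / p + 1) := by ring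
        rcases (hpp.dvd_mul).1 h3 with h4 | h4
        · have := Nat.le_of_dvd (by omega) h4
          omega
        · have := Nat.le_of_dvd hT0 h4
          omega
      split_ifs with h
      · have h3 : (a + 1) * T / p = a * T / p + 1 := by
          have e : (a + 1) * T = p * (a * T / p + 1) + (T + (a * T) % p - p) := by
            have : p * (a * T / p + 1) = p * (a * T / p) + p := by ring
            have e2 : (a + 1) * T = a * T + T := by ring
            omega
          rw [e, Nat.mul_add_div hpp.pos,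
            Nat.div_eq_of_lt (show T + (a * T) % p - p < p by omega), add_zero]
        rw [h3]
        push_cast
        ring
      · have h3 : (a + 1) * T / p = a * T / p := by
          have e : (a + 1) * T = p * (a * T / p) + (T + (a * T) % p) := by
            have e2 : (a + 1) * T = a * T + T := by ring
            omega
          rw [e, Nat.mul_add_div hpp.pos,
            Nat.div_eq_of_lt (show T + (a * T) % p < p by omega), add_zero]
        rw [h3]
        ring
    rw [Finset.card_filter]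
    push_cast
    have e1 : ∑ a ∈ Finset.range (p - 1), (if p < T + ((a : ZMod p) * (t : ZMod p)).val then (1 : ℤ) else 0) =
        ∑ a ∈ Finset.range (p - 1), ((((a + 1) * T / p : ℕ) : ℤ) - ((a * T / p : ℕ) : ℤ)) := by
      refine Finset.sum_congr rfl fun a ha => ?_
      rw [hval]
      exact hstep a (Finset.mem_range.1 ha)
    rw [e1, Finset.sum_range_sub (fun a : ℕ => ((a * T / p : ℕ) : ℤ))]
    have e2 : (p - 1) * T / p = T - 1 := by
      have e := aux_mul p T hT0 hTp
      rw [e, Nat.mul_add_div hpp.pos, Nat.div_eq_of_lt (show p - T < p by omega), add_zero]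
    rw [e2]
    simp
    omega
  have hswap : ∑ a ∈ Finset.range (p - 1), hsa p a 1 =
      ∑ t : (ZMod p)ˣ, (1 - ((t⁻¹ : (ZMod p)ˣ) : ZMod p)) := by
    unfold hsa hf
    simp only [pow_one]
    simp_rw [Finset.sum_filter]
    rw [Finset.sum_comm]
    refine Finset.sum_congr rfl fun t _ => ?_
    rw [← Finset.sum_filter, Finset.sum_const, nsmul_eq_mul]
    have h1 : (((Finset.range (p - 1)).filter fun a : ℕ =>
      p < (t : ZMod p).val + ((a : ZMod p) * (t : ZMod p)).val).card : ZMod p) = (t : ZMod p) - 1 := by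
      have := congrArg (fun z : ℤ => (z : ZMod p)) (hcount t)
      push_cast at this
      rw [ZMod.natCast_val, ZMod.cast_id', id] at this
      exact this
    rw [h1, sub_mul, one_mul, ← Units.val_mul, mul_inv_cancel, Units.val_one]
  rw [hswap, Finset.sum_sub_distrib, Finset.sum_const, Finset.card_univ, ZMod.card_units_eq_totient,
    Nat.totient_prime hpp, nsmul_one] at hsum
  have h3 : ∑ t : (ZMod p)ˣ, ((t⁻¹ : (ZMod p)ˣ) : ZMod p) = 0 := by
    have hi : ∑ t : (ZMod p)ˣ, ((t⁻¹ : (ZMod p)ˣ) : ZMod p) = ∑ t : (ZMod p)ˣ, (t : ZMod p) :=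
      Equiv.sum_comp (Equiv.inv (ZMod p)ˣ) (fun t : (ZMod p)ˣ => (t : ZMod p))
    rw [hi]
    have := FiniteField.sum_pow_units (ZMod p) 1
    rw [ZMod.card, if_neg (by
      intro h
      have := Nat.le_of_dvd one_pos h
      omega)] at this
    simpa using this
  rw [h3, sub_zero, Nat.cast_sub hpp.one_le, CharP.cast_eq_zero, zero_sub, Nat.cast_one] at hsum
  exact one_ne_zero (neg_eq_zero.1 hsum)

/-- the local types of a quadratic polynomial `A + t T + B T ^ 2` modulo `r`: `A`, `A (1 ± T)`, `t T`,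
`A (1 ± T ^ 2)`, `A (1 ± T) ^ 2`, `B T (1 ± T)`, `B T ^ 2`; twice the exponent of `T` in the symmetric form is `k` -/
def Loc (r : ℕ) (A t B : ℤ) (k : ℕ) : Prop :=
  (k = 0 ∧ ¬ (r : ℤ) ∣ A ∧ (r : ℤ) ∣ t ∧ (r : ℤ) ∣ B) ∨
  (k = 1 ∧ ¬ (r : ℤ) ∣ A ∧ ((r : ℤ) ∣ t - A ∨ (r : ℤ) ∣ t + A) ∧ (r : ℤ) ∣ B) ∨
  (k = 2 ∧ (r : ℤ) ∣ A ∧ ¬ (r : ℤ) ∣ t ∧ (r : ℤ) ∣ B) ∨
  (k = 2 ∧ ¬ (r : ℤ) ∣ A ∧ (r : ℤ) ∣ t ∧ ((r : ℤ) ∣ B - A ∨ (r : ℤ) ∣ B + A)) ∨
  (k = 2 ∧ ¬ (r : ℤ) ∣ A ∧ (r : ℤ) ∣ B - A ∧ ((r : ℤ) ∣ t - 2 * A ∨ (r : ℤ) ∣ t + 2 * A)) ∨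
  (k = 3 ∧ (r : ℤ) ∣ A ∧ ((r : ℤ) ∣ t - B ∨ (r : ℤ) ∣ t + B) ∧ ¬ (r : ℤ) ∣ B) ∨
  (k = 4 ∧ (r : ℤ) ∣ A ∧ (r : ℤ) ∣ t ∧ ¬ (r : ℤ) ∣ B)

theorem reflect_quad (A t B : ℤ) : (C A + C t * X + C B * X ^ 2 : Polynomial ℤ).reflect 2 =
    C B + C t * X + C A * X ^ 2 := by
  rw [reflect_add, reflect_add]
  have h1 : (C A : Polynomial ℤ).reflect 2 = C A * X ^ 2 := by
    have := reflect_C_mul_X_pow 2 0 (c := A)
    rw [pow_zero, mul_one] at this
    rw [this, revAt_le (by norm_num)]
  have h2 : (C t * X : Polynomial ℤ).reflect 2 = C t * X := by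
    have := reflect_C_mul_X_pow 2 1 (c := t)
    rw [pow_one] at this
    rw [this, revAt_le (by norm_num), pow_one]
  have h3 : (C B * X ^ 2 : Polynomial ℤ).reflect 2 = C B := by
    rw [reflect_C_mul_X_pow, revAt_le (by norm_num), Nat.sub_self, pow_zero, mul_one]
  rw [h1, h2, h3]
  ring

theorem cast_of_dvd {r : ℕ} {a b : ℤ} (h : (r : ℤ) ∣ a - b) : (a : ZMod r) = b := by
  have := (ZMod.intCast_zmod_eq_zero_iff_dvd _ r).2 h
  push_cast at this
  linear_combination this

/-- the symmetry of the polynomial modulo `r` -/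
theorem Loc.sym {r : ℕ} {A t B : ℤ} {k : ℕ} (h : Loc r A t B k) : ∃ (u v : ℕ) (e : ℤ),
    (e = 1 ∨ e = -1) ∧ 2 + u = v + k ∧
    X ^ v * (C A + C t * X + C B * X ^ 2 : Polynomial ℤ).map (Int.castRingHom (ZMod r)) =
      C (e : ZMod r) * X ^ u *
        ((C A + C t * X + C B * X ^ 2 : Polynomial ℤ).reflect 2).map (Int.castRingHom (ZMod r)) := by
  rw [reflect_quad]
  simp only [Polynomial.map_add, Polynomial.map_mul, Polynomial.map_pow, map_X, map_C,
    Int.coe_castRingHom]
  have hz : ∀ a : ℤ, (r : ℤ) ∣ a → (a : ZMod r) = 0 := fun a ha =>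
    (ZMod.intCast_zmod_eq_zero_iff_dvd _ r).2 ha
  have hp : ∀ a b : ℤ, (r : ℤ) ∣ a + b → (a : ZMod r) = -b := by
    intro a b hab
    have := (ZMod.intCast_zmod_eq_zero_iff_dvd _ r).2 hab
    push_cast at this
    linear_combination this
  rcases h with ⟨rfl, -, ht, hB⟩ | ⟨rfl, -, ht, hB⟩ | ⟨rfl, hA, -, hB⟩ | ⟨rfl, -, ht, hB⟩ |
    ⟨rfl, -, hB, -⟩ | ⟨rfl, hA, ht, -⟩ | ⟨rfl, hA, ht, -⟩
  · refine ⟨0, 2, 1, Or.inl rfl, rfl, ?_⟩
    rw [hz t ht, hz B hB]
    simp only [Int.cast_one, map_one, map_zero]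
    ring
  · rcases ht with ht | ht
    · refine ⟨0, 1, 1, Or.inl rfl, rfl, ?_⟩
      rw [cast_of_dvd ht, hz B hB]
      simp only [Int.cast_one, map_one, map_zero]
      ring
    · refine ⟨0, 1, -1, Or.inr rfl, rfl, ?_⟩
      rw [hp _ _ ht, hz B hB]
      simp only [Int.cast_neg, Int.cast_one, map_one, map_neg, map_zero]
      ring
  · refine ⟨0, 0, 1, Or.inl rfl, rfl, ?_⟩
    rw [hz A hA, hz B hB]
    simp only [Int.cast_one, map_one, map_zero]
    ring
  · rcases hB with hB | hB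
    · refine ⟨0, 0, 1, Or.inl rfl, rfl, ?_⟩
      rw [cast_of_dvd hB, hz t ht]
      simp only [Int.cast_one, map_one, map_zero]
      ring
    · refine ⟨0, 0, -1, Or.inr rfl, rfl, ?_⟩
      rw [hp _ _ hB, hz t ht]
      simp only [Int.cast_neg, Int.cast_one, map_one, map_neg, map_zero]
      ring
  · refine ⟨0, 0, 1, Or.inl rfl, rfl, ?_⟩
    rw [cast_of_dvd hB]
    simp only [Int.cast_one, map_one]
    ring
  · rcases ht with ht | ht
    · refine ⟨1, 0, 1, Or.inl rfl, rfl, ?_⟩
      rw [cast_of_dvd ht, hz A hA]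
      simp only [Int.cast_one, map_one, map_zero]
      ring
    · refine ⟨1, 0, -1, Or.inr rfl, rfl, ?_⟩
      rw [hp _ _ ht, hz A hA]
      simp only [Int.cast_neg, Int.cast_one, map_one, map_neg, map_zero]
      ring
  · refine ⟨2, 0, 1, Or.inl rfl, rfl, ?_⟩
    rw [hz t ht, hz A hA]
    simp only [Int.cast_one, map_one, map_zero]
    ring

/-- the value at the root of unity is prime to `r` -/
theorem Loc.unit {p : ℕ} [Fact p.Prime] (hp2 : p ≠ 2) {r : ℕ} (hr : r.Prime) (hrp : r ≠ p)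
    {E : Type} [Field E] [NumberField E] (c : Cyc p E) {A t B : ℤ} {k : ℕ} (h : Loc r A t B k)
    (P : Ideal (𝓞 E)) (hP : P.IsPrime) (hrP : ((r : ℕ) : 𝓞 E) ∈ P) (w : 𝓞 E)
    (hw : (w : E) = aeval c.z (C A + C t * X + C B * X ^ 2 : Polynomial ℤ)) : w ∉ P := by
  have hpp : p.Prime := Fact.out
  intro hwP
  haveI := hP
  haveI : IsDomain (𝓞 E ⧸ P) := Ideal.Quotient.isDomain P
  haveI hchar := charP_quot P hP r hr hrP
  obtain ⟨z, hz, hzp⟩ := exists_zint c
  have hw' : w = (A : 𝓞 E) + t * z + B * z ^ 2 := by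
    apply RingOfIntegers.ext
    rw [hw]
    have hz' : algebraMap (𝓞 E) E z = c.z := hz
    simp only [map_add, map_mul, map_pow, aeval_C, aeval_X, hz', algebraMap_int_eq,
      Int.coe_castRingHom, map_intCast]
  set y := Ideal.Quotient.mk P z with hy
  have hyp : y ^ p = 1 := by rw [hy, ← map_pow, hzp.pow_eq_one, map_one]
  have hy1 : y ≠ 1 := by
    intro h1
    have h2 : 1 - z ∈ P := by
      rw [← Ideal.Quotient.eq_zero_iff_mem, map_sub, map_one, ← hy, h1, sub_self]
    have h3 := p_mem_of_one_sub_mem z hzp P h2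
    apply int_notMem P hP r hr hrP (p : ℤ) (by
      intro h4
      have h5 : r ∣ p := by exact_mod_cast h4
      exact hrp ((Nat.prime_dvd_prime_iff_eq hr hpp).1 h5))
    exact_mod_cast h3
  have hord : orderOf y = p := orderOf_eq_prime hyp hy1
  have hy4 : y ^ 4 ≠ 1 := by
    intro h1
    have h2 := orderOf_dvd_of_pow_eq_one h1
    rw [hord] at h2
    have h3 : p ∣ 2 ^ 2 := by simpa using h2
    exact hp2 ((Nat.prime_dvd_prime_iff_eq hpp Nat.prime_two).1 (hpp.dvd_of_dvd_pow h3))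
  have hy0 : y ≠ 0 := by
    intro h1
    rw [h1, zero_pow hpp.ne_zero] at hyp
    exact zero_ne_one hyp
  have n1 : (1 : 𝓞 E ⧸ P) + y ≠ 0 := by
    intro h1
    apply hy4
    have : y = -1 := by linear_combination h1
    rw [this]
    norm_num
  have n2 : (1 : 𝓞 E ⧸ P) - y ≠ 0 := by
    intro h1
    apply hy4
    have : y = 1 := by linear_combination -h1
    rw [this, one_pow]
  have n3 : (1 : 𝓞 E ⧸ P) + y ^ 2 ≠ 0 := by
    intro h1
    apply hy4
    have : y ^ 2 = -1 := by linear_combination h1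
    calc y ^ 4 = (y ^ 2) ^ 2 := by ring
      _ = 1 := by rw [this]; norm_num
  have n4 : (1 : 𝓞 E ⧸ P) - y ^ 2 ≠ 0 := by
    intro h1
    apply hy4
    have : y ^ 2 = 1 := by linear_combination -h1
    calc y ^ 4 = (y ^ 2) ^ 2 := by ring
      _ = 1 := by rw [this]; norm_num
  have e0 : (A : 𝓞 E ⧸ P) + t * y + B * y ^ 2 = 0 := by
    have := Ideal.Quotient.eq_zero_iff_mem.2 hwP
    rw [hw'] at this
    simpa [hy] using this
  have hz : ∀ a : ℤ, (r : ℤ) ∣ a → (a : 𝓞 E ⧸ P) = 0 := fun a ha =>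
    (CharP.intCast_eq_zero_iff _ r a).2 ha
  have hnz : ∀ a : ℤ, ¬ (r : ℤ) ∣ a → (a : 𝓞 E ⧸ P) ≠ 0 := fun a ha h0 =>
    ha ((CharP.intCast_eq_zero_iff _ r a).1 h0)
  have hm : ∀ a b : ℤ, (r : ℤ) ∣ a - b → (a : 𝓞 E ⧸ P) = b := by
    intro a b hab
    have := hz _ hab
    push_cast at this
    linear_combination this
  have hpl : ∀ a b : ℤ, (r : ℤ) ∣ a + b → (a : 𝓞 E ⧸ P) = -b := by
    intro a b hab
    have := hz _ hab
    push_cast at this
    linear_combination this
  rcases h with ⟨rfl, hA, ht, hB⟩ | ⟨rfl, hA, ht, hB⟩ | ⟨rfl, hA, ht, hB⟩ | ⟨rfl, hA, ht, hB⟩ |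
    ⟨rfl, hA, hB, ht⟩ | ⟨rfl, hA, ht, hB⟩ | ⟨rfl, hA, ht, hB⟩
  · rw [hz t ht, hz B hB] at e0
    apply hnz A hA
    linear_combination e0
  · rcases ht with ht | ht
    · rw [hm _ _ ht, hz B hB] at e0
      exact mul_ne_zero (hnz A hA) n1 (by linear_combination e0)
    · rw [hpl _ _ ht, hz B hB] at e0
      exact mul_ne_zero (hnz A hA) n2 (by linear_combination e0)
  · rw [hz A hA, hz B hB] at e0
    exact mul_ne_zero (hnz t ht) hy0 (by linear_combination e0)
  · rcases hB with hB | hB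
    · rw [hm _ _ hB, hz t ht] at e0
      exact mul_ne_zero (hnz A hA) n3 (by linear_combination e0)
    · rw [hpl _ _ hB, hz t ht] at e0
      exact mul_ne_zero (hnz A hA) n4 (by linear_combination e0)
  · rw [hm _ _ hB] at e0
    rcases ht with ht | ht
    · have e1 := hm _ _ ht
      push_cast at e1
      rw [e1] at e0
      exact mul_ne_zero (hnz A hA) (pow_ne_zero 2 n1) (by linear_combination e0)
    · have e1 := hpl _ _ ht
      push_cast at e1
      rw [e1] at e0
      exact mul_ne_zero (hnz A hA) (pow_ne_zero 2 n2) (by linear_combination e0)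
  · rcases ht with ht | ht
    · rw [hm _ _ ht, hz A hA] at e0
      exact mul_ne_zero (mul_ne_zero (hnz B hB) hy0) n1 (by linear_combination e0)
    · rw [hpl _ _ ht, hz A hA] at e0
      exact mul_ne_zero (mul_ne_zero (hnz B hB) hy0) n2 (by linear_combination -e0)
  · rw [hz t ht, hz A hA] at e0
    exact mul_ne_zero (hnz B hB) (pow_ne_zero 2 hy0) (by linear_combination e0)

/-- **the linear relation** -/
theorem lin {p : ℕ} [Fact p.Prime] (hp2 : p ≠ 2) {r : ℕ} (hr : r.Prime) (hrp : r ≠ p)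
    (hW : ¬ p ^ 2 ∣ r ^ (p - 1) - 1) {E : Type} [Field E] [NumberField E] (c : Cyc p E)
    {A t B V : ℤ} (hpu : ¬ (p : ℤ) ∣ A + t + B) (hpV : ¬ (p : ℤ) ∣ V)
    (h0 : (A : E) + t * c.z + B * c.z ^ 2 ≠ 0)
    (hv : ∀ P : HeightOneSpectrum (𝓞 E), ∃ m : ℤ,
      P.valuation E ((A : E) + t * c.z + B * c.z ^ 2) =
        P.valuation E ((V : ℤ) : E) * WithZero.exp ((p : ℤ) * m)) {k : ℕ} (hk : Loc r A t B k) :
    (k : ZMod p) * (A + t + B) = 2 * (t + 2 * B) := by
  have hpp : p.Prime := Fact.out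
  set f : Polynomial ℤ := C A + C t * X + C B * X ^ 2 with hf
  have hfz : aeval c.z f = (A : E) + t * c.z + B * c.z ^ 2 := by
    rw [hf]
    simp only [map_add, map_mul, map_pow, aeval_C, aeval_X, algebraMap_int_eq, Int.coe_castRingHom]
  have hf1 : f.eval 1 = A + t + B := by
    rw [hf]
    simp
  have hV0 : V.natAbs ≠ 0 := by
    intro h
    rw [Int.natAbs_eq_zero] at h
    exact hpV (h ▸ dvd_zero _)
  obtain ⟨s, n, hn, hsn⟩ := Nat.exists_eq_pow_mul_and_not_dvd hV0 r hr.ne_one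
  have hrn : ¬ (r : ℤ) ∣ (n : ℤ) := fun h => hn (by exact_mod_cast h)
  have hVn : V.natAbs = V.natAbs := rfl
  have hpn : ¬ (p : ℤ) ∣ (n : ℤ) := by
    intro h
    apply hpV
    rw [← Int.dvd_natAbs, hsn]
    push_cast
    exact dvd_mul_of_dvd_right h _
  have hunit : ∀ P : Ideal (𝓞 E), P.IsPrime → ((r : ℕ) : 𝓞 E) ∈ P → ∀ w : 𝓞 E,
      (w : E) = aeval c.z f → w ∉ P := fun P hP hrP w hw => hk.unit hp2 hr hrp c P hP hrP w hw
  have hv' : ∀ P : HeightOneSpectrum (𝓞 E), ∃ m : ℤ, P.valuation E (aeval c.z f) =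
      P.valuation E (((n : ℤ) : ℤ) : E) * WithZero.exp ((p : ℤ) * m) := by
    intro P
    obtain ⟨u, hu, hup⟩ := exists_zint c
    have hΛ : algebraMap (𝓞 E) E (aeval u f) = aeval c.z f := by
      have hu' : algebraMap (𝓞 E) E u = c.z := hu
      rw [← hu']
      exact (aeval_algebraMap_apply E u f).symm
    by_cases hrP : ((r : ℕ) : 𝓞 E) ∈ P.asIdeal
    · refine ⟨0, ?_⟩
      have hn1 : P.valuation E (((n : ℤ) : ℤ) : E) = 1 := by
        have := val_one P ((n : ℤ) : 𝓞 E) (int_notMem P.asIdeal P.isPrime r hr hrP n hrn)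
        simpa using this
      rw [hn1, mul_zero, WithZero.exp_zero, mul_one, ← hΛ]
      exact val_one P _ (hunit P.asIdeal P.isPrime hrP _ hΛ)
    · obtain ⟨m, hm⟩ := hv P
      refine ⟨m, ?_⟩
      rw [hfz, hm]
      congr 1
      have h3 : P.valuation E ((r : ℕ) : E) = 1 := by
        have h10 : (((r : ℕ) : 𝓞 E) : E) = (r : E) := map_natCast (algebraMap (𝓞 E) E) r
        have := val_one P ((r : ℕ) : 𝓞 E) hrP
        rwa [h10] at this
      have h4 : P.valuation E ((V : ℤ) : E) = P.valuation E ((V.natAbs : ℕ) : E) := by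
        rcases Int.natAbs_eq V with h | h
        · conv_lhs => rw [h]
          rw [Int.cast_natCast]
        · conv_lhs => rw [h]
          rw [Int.cast_neg, Int.cast_natCast, Valuation.map_neg]
      rw [h4, hsn]
      push_cast
      rw [map_mul, map_pow, h3, one_pow, one_mul]
  obtain ⟨a, ha, hap, hane⟩ := exists_hsa (p := p) hp2
  obtain ⟨g, hg, i, hi⟩ := relGA aUNITA hp2 a ha hap c f (n : ℤ) hpn (by rw [hf1]; exact hpu)
    (by rw [hfz]; exact h0) hv'
  obtain ⟨ρ, hρ, hdv⟩ := Y919.WQ.mainLAMA p hp2 a ha hap E c f (n : ℤ) hpn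
    (by rw [hf1]; exact hpu) g hg i hi
  have hmap : f.map (Int.castRingHom (ZMod p)) = C (A : ZMod p) + C (t : ZMod p) * X +
      C (B : ZMod p) * X ^ 2 := by
    rw [hf]
    simp
  have hu0 : (A : ZMod p) + (t : ZMod p) + B ≠ 0 := by
    intro h
    apply hpu
    apply (ZMod.intCast_zmod_eq_zero_iff_dvd _ p).1
    push_cast
    exact h
  have h1 : (f.map (Int.castRingHom (ZMod p))).eval 1 = (A : ZMod p) + t + B := by
    rw [hmap]
    simp
  have h2 : (derivative (f.map (Int.castRingHom (ZMod p)))).eval 1 = (t : ZMod p) + 2 * B := by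
    rw [hmap]
    simp
    ring
  have e1 := first_order hp2 a _ i ρ (by rw [h1]; exact hu0) hdv
  rw [h1, h2] at e1
  obtain ⟨u, v, e, he, huv, hsym⟩ := hk.sym
  have hdeg : f.natDegree ≤ 2 := by
    rw [hf]
    compute_degree
  have e2 := (rel_r hp2 r hr hrp c a f n hrn 2 u v e he hdeg hsym hunit g i hi).resolve_right hW
  have e3 : ((2 : ℕ) : ZMod p) + u - v = k := by
    have := congrArg (fun x : ℕ => (x : ZMod p)) huv
    push_cast at this
    push_cast
    linear_combination this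
  rw [e3] at e2
  apply mul_right_cancel₀ hane
  linear_combination (A + t + B : ZMod p) * e2 * (-1) + 2 * e1

end Pool.Agent.Zk73.FQ
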