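import Pool.Agent.Zk73.FQ.Three

/-!
# The criterion of Mirimanoff over quadratic fields
-/

set_option autoImplicit false
set_option linter.all false

namespace Pool.Agent.Zk73.FQ

open Pool.Agent.Y546.WQ NumberField IsDedekindDomain Polynomial

theorem nat_ne {p : ℕ} (hp : p.Prime) (n : ℕ) (h0 : 0 < n) (h : n < p) : ((n : ℕ) : ZMod p) ≠ 0 := by
  rw [Ne, ZMod.natCast_eq_zero_iff]
  intro hd
  exact absurd (Nat.le_of_dvd h0 hd) (by omega)

section

variable {p : ℕ} [Fact p.Prime]

/-- the solutions of the linear systems -/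
theorem lin_sys (h5 : 5 ≤ p) (A B G : ZMod p) (hA : A ≠ 0) (hB : B ≠ 0) (hG : G ≠ 0)
    (k : ℕ × ℕ × ℕ) (hk : k ∈ T10) (r1 : (k.1 : ZMod p) * G = 2 * (G - A + B))
    (r2 : (k.2.1 : ZMod p) * B = 2 * (B - A + G)) (r3 : (k.2.2 : ZMod p) * A = 2 * (A - B + G)) :
    (k ∈ T4 → A = B ∧ B = G) ∧
    ((A = B ∧ B = G) ∨
      ((B = G ∧ B = 2 * A) ∨ (A = G ∧ A = 2 * B) ∨ (A = B ∧ A = 2 * G)) ∨
      ((A = B ∧ 2 * G = 3 * A) ∨ (A = G ∧ 2 * B = 3 * A) ∨ (B = G ∧ 2 * A = 3 * B))) := by
  have hpp : p.Prime := Fact.out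
  have n2 : (2 : ZMod p) ≠ 0 := by exact_mod_cast nat_ne hpp 2 (by norm_num) (by omega)
  have n4 : (4 : ZMod p) ≠ 0 := by exact_mod_cast nat_ne hpp 4 (by norm_num) (by omega)
  have c2 : ∀ a : ZMod p, 2 * a = 0 → a = 0 := fun a ha => (mul_eq_zero.1 ha).resolve_left n2
  have c4 : ∀ a : ZMod p, 4 * a = 0 → a = 0 := fun a ha => (mul_eq_zero.1 ha).resolve_left n4
  simp only [T10, List.mem_cons, List.not_mem_nil, or_false] at hk
  rcases hk with rfl | rfl | rfl | rfl | rfl | rfl | rfl | rfl | rfl | rfl <;>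
    simp only [Nat.cast_ofNat, Nat.cast_zero, Nat.cast_one] at r1 r2 r3
  · have e1 : A = B := by
      have := c2 (A - B) (by linear_combination r1)
      linear_combination this
    have e2 : B = G := by
      have := c2 (B - G) (by linear_combination r3)
      linear_combination this
    exact ⟨fun _ => ⟨e1, e2⟩, Or.inl ⟨e1, e2⟩⟩
  · refine ⟨fun h => absurd h (by decide), Or.inr (Or.inl (Or.inl ?_))⟩
    have e2 : B = G := by
      have := c2 (B - G) (by linear_combination r3)
      linear_combination this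
    exact ⟨e2, by linear_combination r1 - 3 * e2 + 2 * e2 + 2 * e2⟩
  · refine ⟨fun h => absurd h (by decide), Or.inr (Or.inl (Or.inr (Or.inl ?_)))⟩
    have e2 : A = G := by
      have := c2 (A - G) (by linear_combination r2)
      linear_combination this
    exact ⟨e2, by linear_combination r3 - 2 * e2⟩
  · refine ⟨fun h => absurd h (by decide), Or.inr (Or.inl (Or.inr (Or.inr ?_)))⟩
    have e2 : A = B := by
      have := c2 (A - B) (by linear_combination r1)
      linear_combination this
    exact ⟨e2, by linear_combination r2 + 3 * e2 - 2 * e2⟩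
  · exfalso
    apply hA
    apply c4
    have e2 : B = G := by
      have := c2 (B - G) (by linear_combination r3)
      linear_combination this
    linear_combination r1 + r2
  · exfalso
    apply hB
    apply c4
    linear_combination r1 + r3
  · exfalso
    apply hG
    apply c4
    linear_combination r2 + r3
  · refine ⟨fun h => absurd h (by decide), Or.inr (Or.inr (Or.inl ?_))⟩
    have e2 : A = B := by
      have := c2 (A - B) (by linear_combination r1)
      linear_combination this
    exact ⟨e2, by linear_combination -r2 - 3 * e2 + 2 * e2⟩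
  · refine ⟨fun h => absurd h (by decide), Or.inr (Or.inr (Or.inr (Or.inl ?_)))⟩
    have e2 : A = G := by
      have := c2 (A - G) (by linear_combination r2)
      linear_combination this
    exact ⟨e2, by linear_combination -r1 - 3 * e2 + 2 * e2⟩
  · refine ⟨fun h => absurd h (by decide), Or.inr (Or.inr (Or.inr (Or.inr ?_)))⟩
    have e2 : B = G := by
      have := c2 (B - G) (by linear_combination r3)
      linear_combination this
    exact ⟨e2, by linear_combination -r2 - 2 * e2⟩

/-- squares -/
theorem sq_of (N m d c : ZMod p) (hN : N ≠ 0) (hc : c ≠ 0) (h : m ^ 2 * d = -N * c ^ 2) :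
    ∃ s : ZMod p, s ≠ 0 ∧ s ^ 2 = -N * d := by
  have hm : m ≠ 0 := by
    rintro rfl
    have : N * c ^ 2 = 0 := by linear_combination -h
    exact mul_ne_zero hN (pow_ne_zero 2 hc) this
  refine ⟨N * c / m, div_ne_zero (mul_ne_zero hN hc) hm, ?_⟩
  rw [div_pow, div_eq_iff (pow_ne_zero 2 hm)]
  linear_combination N * h

end

end Pool.Agent.Zk73.FQ
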