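import Pool.Agent.Zk73.FQ.Dat

/-!
# Residues modulo three of the norms of a solution, and the linear relations modulo `p`
-/

set_option autoImplicit false
set_option linter.all false

namespace Pool.Agent.Zk73.FQ

open Pool.Agent.Y546.WQ NumberField IsDedekindDomain Polynomial

/-- the local type modulo three -/
def LZ (a t b : ZMod 3) (k : ℕ) : Prop :=
  (k = 0 ∧ a ≠ 0 ∧ t = 0 ∧ b = 0) ∨ (k = 1 ∧ a ≠ 0 ∧ t ≠ 0 ∧ b = 0) ∨
  (k = 2 ∧ a = 0 ∧ t ≠ 0 ∧ b = 0) ∨ (k = 2 ∧ a ≠ 0 ∧ t = 0 ∧ b ≠ 0) ∨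
  (k = 2 ∧ a ≠ 0 ∧ t ≠ 0 ∧ b = a) ∨
  (k = 3 ∧ a = 0 ∧ t ≠ 0 ∧ b ≠ 0) ∨ (k = 4 ∧ a = 0 ∧ t = 0 ∧ b ≠ 0)

instance (a t b : ZMod 3) (k : ℕ) : Decidable (LZ a t b k) := by
  unfold LZ
  infer_instance

theorem pm3 : ∀ a b : ZMod 3, a ≠ 0 → b ≠ 0 → b - a = 0 ∨ b + a = 0 := by decide

theorem tw3 : ∀ a t : ZMod 3, a ≠ 0 → t ≠ 0 → t - 2 * a = 0 ∨ t + 2 * a = 0 := by decide

theorem LZ.loc {A t B : ℤ} {k : ℕ} (h : LZ (A : ZMod 3) t B k) : Loc 3 A t B k := by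
  have hz : ∀ a : ℤ, ((a : ℤ) : ZMod 3) = 0 → ((3 : ℕ) : ℤ) ∣ a := fun a ha =>
    (ZMod.intCast_zmod_eq_zero_iff_dvd _ 3).1 ha
  have hnz : ∀ a : ℤ, ((a : ℤ) : ZMod 3) ≠ 0 → ¬ ((3 : ℕ) : ℤ) ∣ a := fun a ha h =>
    ha ((ZMod.intCast_zmod_eq_zero_iff_dvd _ 3).2 h)
  have hpm : ∀ a b : ℤ, (a : ZMod 3) ≠ 0 → (b : ZMod 3) ≠ 0 →
      ((3 : ℕ) : ℤ) ∣ b - a ∨ ((3 : ℕ) : ℤ) ∣ b + a := by
    intro a b ha hb
    rcases pm3 a b ha hb with h | h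
    · exact Or.inl (hz _ (by push_cast; exact h))
    · exact Or.inr (hz _ (by push_cast; exact h))
  rcases h with ⟨hk, ha, ht, hb⟩ | ⟨hk, ha, ht, hb⟩ | ⟨hk, ha, ht, hb⟩ | ⟨hk, ha, ht, hb⟩ |
    ⟨hk, ha, ht, hb⟩ | ⟨hk, ha, ht, hb⟩ | ⟨hk, ha, ht, hb⟩
  · exact Or.inl ⟨hk, hnz _ ha, hz _ ht, hz _ hb⟩
  · exact Or.inr (Or.inl ⟨hk, hnz _ ha, hpm _ _ ha ht, hz _ hb⟩)
  · exact Or.inr (Or.inr (Or.inl ⟨hk, hz _ ha, hnz _ ht, hz _ hb⟩))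
  · exact Or.inr (Or.inr (Or.inr (Or.inl ⟨hk, hnz _ ha, hz _ ht, hpm _ _ ha hb⟩)))
  · refine Or.inr (Or.inr (Or.inr (Or.inr (Or.inl ⟨hk, hnz _ ha, hz _ (by push_cast; rw [hb, sub_self]), ?_⟩))))
    rcases tw3 _ _ ha ht with h | h
    · exact Or.inl (hz _ (by push_cast; exact h))
    · exact Or.inr (hz _ (by push_cast; exact h))
  · exact Or.inr (Or.inr (Or.inr (Or.inr (Or.inr (Or.inl ⟨hk, hz _ ha, hpm _ _ hb ht, hnz _ hb⟩)))))
  · exact Or.inr (Or.inr (Or.inr (Or.inr (Or.inr (Or.inr ⟨hk, hz _ ha, hz _ ht, hnz _ hb⟩)))))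

/-- the ten possible types -/
def T10 : List (ℕ × ℕ × ℕ) :=
  [(2, 2, 2), (3, 3, 2), (1, 2, 3), (2, 1, 1), (4, 4, 2), (0, 2, 4), (2, 0, 0), (2, 3, 3), (3, 2, 1), (1, 1, 2)]

/-- the four possible types if three ramifies -/
def T4 : List (ℕ × ℕ × ℕ) := [(2, 2, 2), (4, 4, 2), (0, 2, 4), (2, 0, 0)]

theorem types10 : ∀ x y x' y' : ZMod 3, ¬ (x = 0 ∧ y = 0) → ¬ (x' = 0 ∧ y' = 0) →
    ∃ k ∈ T10, LZ (x * x') (x * y' + x' * y) (y * y') k.1 ∧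
      LZ (x * x') (x * (-x' - y') + x' * (-x - y)) ((-x - y) * (-x' - y')) k.2.1 ∧
      LZ (y * y') (y * (-x' - y') + y' * (-x - y)) ((-x - y) * (-x' - y')) k.2.2 := by
  unfold T10
  decide

theorem types4 : ∀ x y : ZMod 3, ¬ (x = 0 ∧ y = 0) →
    ∃ k ∈ T4, LZ (x * x) (x * y + x * y) (y * y) k.1 ∧
      LZ (x * x) (x * (-x - y) + x * (-x - y)) ((-x - y) * (-x - y)) k.2.1 ∧
      LZ (y * y) (y * (-x - y) + y * (-x - y)) ((-x - y) * (-x - y)) k.2.2 := by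
  unfold T4
  decide

section

variable {K : Type} [Field K] [NumberField K]

/-- residues modulo a prime above three, if three is not inert -/
theorem exists_rep (hK : Module.finrank ℚ K = 2) (σ : 𝓞 K →+* 𝓞 K)
    (hN : ∀ a : 𝓞 K, ((Algebra.norm ℤ a : ℤ) : 𝓞 K) = a * σ a)
    (hT : ∀ a : 𝓞 K, ((Algebra.trace ℤ (𝓞 K) a : ℤ) : 𝓞 K) = a + σ a)
    (hd : NumberField.discr K % 3 ≠ 2) (P : Ideal (𝓞 K)) (hP : P.IsPrime) (h3 : (3 : 𝓞 K) ∈ P)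
    (w : 𝓞 K) : ∃ e : ℤ, w - e ∈ P := by
  obtain ⟨m, hm⟩ := disc_eq hK σ hN hT w
  have h1 : (2 * w - ((Algebra.trace ℤ (𝓞 K) w : ℤ) : 𝓞 K)) ^ 2 =
      ((m ^ 2 * NumberField.discr K : ℤ) : 𝓞 K) := by
    rw [← hm]
    push_cast
    rw [hT, hN]
    ring
  set T : 𝓞 K := ((Algebra.trace ℤ (𝓞 K) w : ℤ) : 𝓞 K) with hTdef
  have key : ∀ u : ℤ, 2 * w - T - (u : 𝓞 K) ∈ P → ∃ e : ℤ, w - e ∈ P := by
    intro u hu
    refine ⟨2 * (Algebra.trace ℤ (𝓞 K) w + u), ?_⟩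
    have e : w - ((2 * (Algebra.trace ℤ (𝓞 K) w + u) : ℤ) : 𝓞 K) =
        2 * (2 * w - T - (u : 𝓞 K)) - w * 3 := by
      rw [hTdef]
      push_cast
      ring
    rw [e]
    exact P.sub_mem (P.mul_mem_left _ hu) (P.mul_mem_left _ h3)
  have hd3 : NumberField.discr K % 3 = 0 ∨ NumberField.discr K % 3 = 1 := by omega
  rcases hd3 with hd3 | hd3
  · obtain ⟨u, hu⟩ := Int.dvd_of_emod_eq_zero hd3
    apply key 0
    have h2 : (2 * w - T) ^ 2 ∈ P := by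
      rw [h1, hu]
      push_cast
      have : (m : 𝓞 K) ^ 2 * (3 * (u : 𝓞 K)) = (m ^ 2 * u) * 3 := by ring
      rw [this]
      exact P.mul_mem_left _ h3
    have h4 := hP.mem_of_pow_mem 2 h2
    simpa using h4
  · obtain ⟨u, hu⟩ : (3 : ℤ) ∣ NumberField.discr K - 1 := by omega
    have h2 : (2 * w - T - (m : 𝓞 K)) * (2 * w - T - ((-m : ℤ) : 𝓞 K)) ∈ P := by
      have e : (2 * w - T - (m : 𝓞 K)) * (2 * w - T - ((-m : ℤ) : 𝓞 K)) =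
          (2 * w - T) ^ 2 - (m : 𝓞 K) ^ 2 := by
        push_cast
        ring
      rw [e, h1]
      have e2 : ((m ^ 2 * NumberField.discr K : ℤ) : 𝓞 K) - (m : 𝓞 K) ^ 2 = (m ^ 2 * u) * 3 := by
        have e3 : m ^ 2 * NumberField.discr K = m ^ 2 + m ^ 2 * (3 * u) := by
          rw [← hu]
          ring
        rw [e3]
        push_cast
        ring
      rw [e2]
      exact P.mul_mem_left _ h3
    rcases hP.mem_or_mem h2 with h4 | h4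
    · exact key m h4
    · exact key (-m) h4

/-- two integers congruent modulo a prime above three -/
theorem cast3 (P : Ideal (𝓞 K)) (hP : P.IsPrime) (h3 : (3 : 𝓞 K) ∈ P) {a b : ℤ}
    (h : (a : 𝓞 K) - b ∈ P) : (a : ZMod 3) = b := by
  have h1 : ((3 : ℕ) : ℤ) ∣ a - b := by
    by_contra hcon
    apply int_notMem P hP 3 Nat.prime_three (by exact_mod_cast h3) _ hcon
    push_cast
    exact h
  exact cast_of_dvd h1

theorem pow3 (p : ℕ) (hp : Odd p) (a : ZMod 3) : a ^ p = a := by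
  obtain ⟨k, rfl⟩ := hp
  rw [pow_succ, pow_mul]
  have : ∀ a : ZMod 3, a ^ 2 = 1 ∨ a = 0 := by decide
  rcases this a with h | h
  · rw [h, one_pow, one_mul]
  · rw [h, mul_zero]

/-- the data of a solution at three -/
theorem types_of {p : ℕ} (hodd : Odd p) (hK : Module.finrank ℚ K = 2) (σ : 𝓞 K →+* 𝓞 K)
    (hN : ∀ a : 𝓞 K, ((Algebra.norm ℤ a : ℤ) : 𝓞 K) = a * σ a)
    (hT : ∀ a : 𝓞 K, ((Algebra.trace ℤ (𝓞 K) a : ℤ) : 𝓞 K) = a + σ a)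
    (hd : NumberField.discr K % 3 ≠ 2) {X Y Z : 𝓞 K} (h : X ^ p + Y ^ p + Z ^ p = 0)
    (hcop : ∀ P : Ideal (𝓞 K), P.IsPrime → (3 : 𝓞 K) ∈ P → ¬ (X ∈ P ∧ Y ∈ P ∧ Z ∈ P)) :
    ∃ k ∈ T10, (NumberField.discr K % 3 = 0 → k ∈ T4) ∧
      Loc 3 (Algebra.norm ℤ X) (Algebra.trace ℤ (𝓞 K) (X * σ Y)) (Algebra.norm ℤ Y) k.1 ∧
      Loc 3 (Algebra.norm ℤ X) (Algebra.trace ℤ (𝓞 K) (X * σ Z)) (Algebra.norm ℤ Z) k.2.1 ∧
      Loc 3 (Algebra.norm ℤ Y) (Algebra.trace ℤ (𝓞 K) (Y * σ Z)) (Algebra.norm ℤ Z) k.2.2 := by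
  have hσσ := conj_conj σ hT
  obtain ⟨P, hP, h3P'⟩ := exists_above (K := K) 3 Nat.prime_three
  have h3P : (3 : 𝓞 K) ∈ P := by exact_mod_cast h3P'
  have h3σ : (3 : 𝓞 K) ∈ P.comap σ := by
    rw [Ideal.mem_comap, map_ofNat]
    exact h3P
  have rep := exists_rep hK σ hN hT hd P hP h3P
  obtain ⟨x, hx⟩ := rep X
  obtain ⟨y, hy⟩ := rep Y
  obtain ⟨z, hz⟩ := rep Z
  obtain ⟨x', hx'⟩ := rep (σ X)
  obtain ⟨y', hy'⟩ := rep (σ Y)
  obtain ⟨z', hz'⟩ := rep (σ Z)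
  have q : ∀ {w : 𝓞 K} {e : ℤ}, w - e ∈ P → Ideal.Quotient.mk P w = Ideal.Quotient.mk P (e : 𝓞 K) :=
    fun hw => Ideal.Quotient.eq.2 hw
  -- the sums
  have hs : ∀ (a b c : ℤ), (a : 𝓞 K) ^ p + (b : 𝓞 K) ^ p + (c : 𝓞 K) ^ p ∈ P →
      (c : ZMod 3) = -a - b := by
    intro a b c habc
    have h1 : ((a ^ p + b ^ p + c ^ p : ℤ) : 𝓞 K) - ((0 : ℤ) : 𝓞 K) ∈ P := by
      push_cast
      simpa using habc
    have h2 := cast3 P hP h3P h1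
    push_cast at h2
    rw [pow3 p hodd, pow3 p hodd, pow3 p hodd] at h2
    linear_combination h2
  have s1 : (z : ZMod 3) = -x - y := by
    apply hs
    rw [← Ideal.Quotient.eq_zero_iff_mem]
    simp only [map_add, map_pow]
    rw [← q hx, ← q hy, ← q hz, ← map_pow, ← map_pow, ← map_pow, ← map_add, ← map_add, h, map_zero]
  have s2 : (z' : ZMod 3) = -x' - y' := by
    apply hs
    rw [← Ideal.Quotient.eq_zero_iff_mem]
    simp only [map_add, map_pow]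
    rw [← q hx', ← q hy', ← q hz', ← map_pow, ← map_pow, ← map_pow, ← map_pow, ← map_pow,
      ← map_pow, ← map_add, ← map_add, ← map_add, ← map_add, h, map_zero, map_zero]
  have hmem : ∀ {w : 𝓞 K} {e : ℤ}, w - e ∈ P → (e : ZMod 3) = 0 → w ∈ P := by
    intro w e hw he
    have h1 : ((3 : ℕ) : ℤ) ∣ e := (ZMod.intCast_zmod_eq_zero_iff_dvd _ 3).1 he
    obtain ⟨u, rfl⟩ := h1
    have h2 : w = (w - (((3 : ℕ) : ℤ) * u : ℤ)) + u * 3 := by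
      push_cast
      ring
    rw [h2]
    exact P.add_mem hw (P.mul_mem_left _ h3P)
  have n1 : ¬ ((x : ZMod 3) = 0 ∧ (y : ZMod 3) = 0) := by
    rintro ⟨h1, h2⟩
    apply hcop P hP h3P
    refine ⟨hmem hx h1, hmem hy h2, hmem hz ?_⟩
    rw [s1, h1, h2]
    ring
  have n2 : ¬ ((x' : ZMod 3) = 0 ∧ (y' : ZMod 3) = 0) := by
    rintro ⟨h1, h2⟩
    apply hcop (P.comap σ) (hP.comap σ) h3σ
    refine ⟨hmem hx' h1, hmem hy' h2, hmem hz' ?_⟩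
    rw [s2, h1, h2]
    ring
  have hnorm : ∀ {w : 𝓞 K} {e e' : ℤ}, w - e ∈ P → σ w - e' ∈ P →
      ((Algebra.norm ℤ w : ℤ) : ZMod 3) = e * e' := by
    intro w e e' h1 h2
    have h4 : ((Algebra.norm ℤ w : ℤ) : 𝓞 K) - ((e * e' : ℤ) : 𝓞 K) ∈ P := by
      rw [hN]
      have : w * σ w - ((e * e' : ℤ) : 𝓞 K) = (w - e) * σ w + e * (σ w - e') := by
        push_cast
        ring
      rw [this]
      exact P.add_mem (P.mul_mem_right _ h1) (P.mul_mem_left _ h2)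
    have := cast3 P hP h3P h4
    rw [this]
    push_cast
    rfl
  have htr : ∀ {v w : 𝓞 K} {e e' f f' : ℤ}, v - e ∈ P → σ v - e' ∈ P → w - f ∈ P → σ w - f' ∈ P →
      ((Algebra.trace ℤ (𝓞 K) (v * σ w) : ℤ) : ZMod 3) = e * f' + e' * f := by
    intro v w e e' f f' h1 h2 h4 h5
    have h6 : ((Algebra.trace ℤ (𝓞 K) (v * σ w) : ℤ) : 𝓞 K) - ((e * f' + e' * f : ℤ) : 𝓞 K) ∈ P := by
      rw [hT, map_mul, hσσ]
      have : v * σ w + σ v * w - ((e * f' + e' * f : ℤ) : 𝓞 K) =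
          (v - e) * σ w + e * (σ w - f') + ((σ v - e') * w + e' * (w - f)) := by
        push_cast
        ring
      rw [this]
      exact P.add_mem (P.add_mem (P.mul_mem_right _ h1) (P.mul_mem_left _ h5))
        (P.add_mem (P.mul_mem_right _ h2) (P.mul_mem_left _ h4))
    have := cast3 P hP h3P h6
    rw [this]
    push_cast
    rfl
  have a1 := hnorm hx hx'
  have a2 := hnorm hy hy'
  have a3 := hnorm hz hz'
  have b1 := htr hx hx' hy hy'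
  have b2 := htr hx hx' hz hz'
  have b3 := htr hy hy' hz hz'
  rw [s1, s2] at a3 b2 b3
  by_cases hd0 : NumberField.discr K % 3 = 0
  · -- three ramifies
    have hsame : ∀ {w : 𝓞 K} {e e' : ℤ}, w - e ∈ P → σ w - e' ∈ P → (e' : ZMod 3) = e := by
      intro w e e' h1 h2
      have h4 : w - σ w ∈ P := by
        obtain ⟨m, hm⟩ := disc_eq hK σ hN hT w
        obtain ⟨u, hu⟩ := Int.dvd_of_emod_eq_zero hd0
        apply hP.mem_of_pow_mem 2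
        have h5 : (w - σ w) ^ 2 = (m ^ 2 * u : ℤ) * 3 := by
          have h6 : (w - σ w) ^ 2 = ((Algebra.trace ℤ (𝓞 K) w ^ 2 - 4 * Algebra.norm ℤ w : ℤ) : 𝓞 K) := by
            push_cast
            rw [hT, hN]
            ring
          rw [h6, hm, hu]
          push_cast
          ring
        rw [h5]
        exact P.mul_mem_left _ h3P
      apply cast3 P hP h3P
      have h7 : (e' : 𝓞 K) - (e : 𝓞 K) = (w - e) - (w - σ w) - (σ w - e') := by ring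
      rw [h7]
      exact P.sub_mem (P.sub_mem h1 h4) h2
    have ex := hsame hx hx'
    have ey := hsame hy hy'
    obtain ⟨k, hk, c1, c2, c3⟩ := types4 x y n1
    simp only [ex, ey] at a1 a2 a3 b1 b2 b3
    have hk10 : k ∈ T10 := by
      have : ∀ k ∈ T4, k ∈ T10 := by decide
      exact this k hk
    refine ⟨k, hk10, fun _ => hk, LZ.loc ?_, LZ.loc ?_, LZ.loc ?_⟩
    · rw [a1, a2, b1]
      exact c1
    · rw [a1, a3, b2]
      exact c2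
    · rw [a2, a3, b3]
      exact c3
  · obtain ⟨k, hk, c1, c2, c3⟩ := types10 x y x' y' n1 n2
    refine ⟨k, hk, fun h => absurd h hd0, LZ.loc ?_, LZ.loc ?_, LZ.loc ?_⟩
    · rw [a1, a2, b1]
      exact c1
    · rw [a1, a3, b2]
      exact c2
    · rw [a2, a3, b3]
      exact c3

end

end Pool.Agent.Zk73.FQ
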